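import Pool.Agent.Zk43.FQ.Fin

/-!
# Terjanian's theorem over quadratic fields
-/

set_option autoImplicit false

namespace Pool.Agent.Zk43.FQ

open NumberField IsDedekindDomain Polynomial Finset

section

variable {K : Type} [Field K] [NumberField K]

theorem geom_sub_le (v : HeightOneSpectrum (𝓞 K)) (p : ℕ) (ρ : K) (h1 : v.valuation K ρ ≤ 1) :
    v.valuation K ((∑ i ∈ range p, ρ ^ i) - p) ≤ v.valuation K (ρ - 1) := by
  have e : (∑ i ∈ range p, ρ ^ i) - (p : K) = ∑ i ∈ range p, (ρ ^ i - 1) := by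
    rw [sum_sub_distrib]
    simp
  rw [e]
  refine Valuation.map_sum_le _ fun i _ => ?_
  have e2 : ρ ^ i - 1 = (∑ j ∈ range i, ρ ^ j) * (ρ - 1) := (geom_sum_mul ρ i).symm
  rw [e2, map_mul]
  refine mul_le_of_le_one_left' (Valuation.map_sum_le _ fun j _ => ?_)
  rw [map_pow]
  exact pow_le_one' h1 j

/-- the quotient has even valuations -/
theorem even_G (p : ℕ) (hp : p.Prime) (hp2 : p ≠ 2) (ρ γ : K) (hγ0 : γ ≠ 0)
    (h : ρ ^ p = 1 + γ ^ p) (hρ : Ev ρ) (hγ : Ev γ)
    (hpv : ∀ v : HeightOneSpectrum (𝓞 K), ((p : ℕ) : 𝓞 K) ∈ v.asIdeal → 1 ≤ v.valuation K γ) :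
    (∑ i ∈ range p, ρ ^ i) ≠ 0 ∧ Ev (∑ i ∈ range p, ρ ^ i) := by
  have hodd := hp.odd_of_ne_two hp2
  have hG : (∑ i ∈ range p, ρ ^ i) * (ρ - 1) = γ ^ p := by
    rw [geom_sum_mul, h]
    ring
  have hne : (∑ i ∈ range p, ρ ^ i) ≠ 0 := by
    intro h0
    rw [h0, zero_mul] at hG
    exact pow_ne_zero p hγ0 hG.symm
  have hne1 : ρ - 1 ≠ 0 := by
    intro h0
    rw [h0, mul_zero] at hG
    exact pow_ne_zero p hγ0 hG.symm
  refine ⟨hne, fun v => ?_⟩
  have hGv : v.valuation K (∑ i ∈ range p, ρ ^ i) * v.valuation K (ρ - 1) =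
      v.valuation K γ ^ p := by rw [← map_mul, hG, map_pow]
  obtain ⟨a, ha⟩ := hρ v
  obtain ⟨c, hc⟩ := hγ v
  obtain ⟨g, hg⟩ := val_exists v _ hne
  have hpp : p - 1 + 1 = p := by have := hp.pos; omega
  obtain ⟨k, hk⟩ := hodd
  have hpow : v.valuation K (ρ ^ p - 1) = v.valuation K γ ^ p := by
    rw [h, add_sub_cancel_left, map_pow]
  rcases lt_trichotomy (v.valuation K ρ) 1 with h1 | h1 | h1
  · -- the valuation is trivial
    have h2 : v.valuation K (ρ - 1) = 1 := by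
      rw [Valuation.map_sub_eq_of_lt_right, map_one]
      rwa [map_one]
    have h3 : v.valuation K (ρ ^ p - 1) = 1 := by
      rw [Valuation.map_sub_eq_of_lt_right, map_one]
      rw [map_one, map_pow]
      exact pow_lt_one₀ zero_le' h1 hp.ne_zero
    refine ⟨0, ?_⟩
    rw [h2, mul_one, ← hpow, h3] at hGv
    rw [hGv]
    simp
  · by_cases h2 : v.valuation K (ρ - 1) = 1
    · rw [h2, mul_one, hc, ← WithZero.exp_nsmul] at hGv
      refine ⟨p * c, ?_⟩
      rw [hGv]
      congr 1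
      simp only [nsmul_eq_mul]
      ring
    · have h3 : v.valuation K (ρ - 1) < 1 := by
        refine lt_of_le_of_ne ?_ h2
        refine (Valuation.map_sub _ _ _).trans (max_le h1.le ?_)
        rw [map_one]
      have h4 : v.valuation K (∑ i ∈ range p, ρ ^ i) ≤ 1 := by
        refine Valuation.map_sum_le _ fun j _ => ?_
        rw [map_pow]
        exact pow_le_one' h1.le j
      have h5 : v.valuation K γ ^ p < 1 := by
        rw [← hGv]
        exact mul_lt_one_of_nonneg_of_lt_one_right h4 zero_le' h3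
      have h6 : v.valuation K γ < 1 := (pow_lt_one_iff_of_nonneg zero_le' hp.ne_zero).1 h5
      have h7 : ((p : ℕ) : 𝓞 K) ∉ v.asIdeal := fun h8 => not_le.2 h6 (hpv v h8)
      have h8 := val_nat v p h7
      have h9 := geom_sub_le v p ρ h1.le
      refine ⟨0, ?_⟩
      have e : (∑ i ∈ range p, ρ ^ i) = p - (p - ∑ i ∈ range p, ρ ^ i) := by ring
      have h10 : v.valuation K (p - ∑ i ∈ range p, ρ ^ i) < v.valuation K (p : K) := by
        rw [h8, Valuation.map_sub_swap]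
        exact h9.trans_lt h3
      rw [e, Valuation.map_sub_eq_of_lt_left _ h10, h8]
      simp
  · have h2 : v.valuation K (ρ - 1) = v.valuation K ρ := by
      apply Valuation.map_sub_eq_of_lt_left
      rwa [map_one]
    have h3 : v.valuation K (ρ ^ p - 1) = v.valuation K ρ ^ p := by
      rw [Valuation.map_sub_eq_of_lt_left, map_pow]
      rw [map_one, map_pow]
      exact one_lt_pow₀ h1 hp.ne_zero
    rw [h2, ← hpow, h3, hg, ha, ← WithZero.exp_add, ← WithZero.exp_nsmul] at hGv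
    have h4 := WithZero.exp_injective hGv
    refine ⟨2 * k * a, ?_⟩
    rw [hg]
    congr 1
    rw [hk] at h4
    simp only [nsmul_eq_mul] at h4
    push_cast at h4
    linear_combination h4

variable {D : ℤ} {r : K}

/-- the main argument -/
theorem QF.core (q : QF K D r) (hD : D % 8 ≠ 5) (p : ℕ) (hp : p.Prime) (hp2 : p ≠ 2)
    (hd : ∀ m : ℤ, m ∣ D → (0 < D → 0 < m) → ¬ m ≡ p [ZMOD 8])
    (P : HeightOneSpectrum (𝓞 K)) (h2 : (2 : 𝓞 K) ∈ P.asIdeal)
    (ρ γ : K) (hγ0 : γ ≠ 0) (h : ρ ^ p = 1 + γ ^ p) (hρ : Ev ρ) (hγ : Ev γ)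
    (hP : P.valuation K γ < 1) :
    ∃ v : HeightOneSpectrum (𝓞 K), ((p : ℕ) : 𝓞 K) ∈ v.asIdeal ∧ v.valuation K γ < 1 := by
  by_contra hcon
  push Not at hcon
  have hodd := hp.odd_of_ne_two hp2
  obtain ⟨hG0, hGE⟩ := even_G p hp hp2 ρ γ hγ0 h hρ hγ hcon
  have hposr : 0 < D → ∀ φ : K →+* ℂ, ∃ x : ℝ, 0 < x ∧ φ (∑ i ∈ range p, ρ ^ i) = x := by
    intro hDpos φ
    obtain ⟨x, hx⟩ := q.real hDpos φ ρ
    refine ⟨∑ i ∈ range p, x ^ i, hodd.geom_sum_pos, ?_⟩
    rw [map_sum]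
    push_cast
    refine sum_congr rfl fun i _ => ?_
    rw [map_pow, hx]
  obtain ⟨m, s, hmsf, hs0, hms, hmpos, hml, hm2⟩ := q.gen _ hG0 hGE hposr
  -- the local computation
  have hw2 := w_two_pos P
  have hγp : P.valuation K (ρ ^ p - 1) < 1 := by
    rw [h, add_sub_cancel_left, map_pow]
    exact pow_lt_one₀ zero_le' hP hp.ne_zero
  have hρ1 : P.valuation K ρ = 1 := by
    have h3 : P.valuation K (ρ ^ p) = 1 := by
      have e : ρ ^ p = 1 + (ρ ^ p - 1) := by ring
      rw [e, Valuation.map_add_eq_of_lt_left, map_one]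
      rw [map_one]
      exact hγp
    rw [map_pow] at h3
    exact (pow_eq_one_iff_of_nonneg zero_le' hp.ne_zero).1 h3
  have hρ2 := q.res P h2 hD ρ hρ1
  have hp1 : P.valuation K (p : K) = 1 := by
    have := w_odd P h2 (p : ℤ) (by exact_mod_cast hodd)
    simpa using this
  have hGsub := geom_sub_le P p ρ hρ1.le
  have hG1 : P.valuation K (∑ i ∈ range p, ρ ^ i) = 1 := by
    have e : (∑ i ∈ range p, ρ ^ i) = p + ((∑ i ∈ range p, ρ ^ i) - p) := by ring
    rw [e, Valuation.map_add_eq_of_lt_left, hp1]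
    rw [hp1]
    exact hGsub.trans_lt hρ2
  have hρ3 : P.valuation K (ρ - 1) = P.valuation K γ ^ p := by
    have hG : (∑ i ∈ range p, ρ ^ i) * (ρ - 1) = γ ^ p := by
      rw [geom_sum_mul, h]
      ring
    rw [← map_pow, ← hG, map_mul, hG1, one_mul]
  have hγ6 : P.valuation K γ ^ p ≤ P.valuation K (2 : K) ^ 3 := by
    obtain ⟨c, hc⟩ := hγ P
    rw [hc] at hP
    have hc1 : c ≤ -1 := by
      have h3 : WithZero.exp (2 * c) < WithZero.exp (0 : ℤ) := by simpa using hP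
      rw [WithZero.exp_lt_exp] at h3
      omega
    have hp3 : 3 ≤ p := by
      have := hp.two_le
      omega
    have h3 : P.valuation K γ ≤ P.valuation K (2 : K) := by
      refine le_trans ?_ (w_two_ge P q.rank)
      rw [hc, WithZero.exp_le_exp]
      omega
    refine (pow_le_pow_of_le_one zero_le' (h3.trans (w_two_lt P h2).le) hp3).trans ?_
    exact pow_le_pow_left' h3 3
  have hfin : P.valuation K ((m : K) * s ^ 2 - ((p : ℤ) : K)) ≤ P.valuation K (2 : K) ^ 3 := by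
    rw [← hms, Int.cast_natCast]
    exact hGsub.trans (hρ3.le.trans hγ6)
  obtain ⟨m', h3, h4, h5⟩ := q.final P h2 hD m hmsf hmpos hml hm2 (p : ℤ) (by exact_mod_cast hodd) s hfin
  exact hd m' h3 h4 h5

end

end Pool.Agent.Zk43.FQ
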