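import Pool.Agent.Zk43.FQ.Loc

/-!
# Quadratic fields: which rational square classes are locally prime numbers
-/

set_option autoImplicit false

namespace Pool.Agent.Zk43.FQ

open NumberField IsDedekindDomain Polynomial

theorem odd_sq (a : ℤ) (ha : Odd a) : ∃ k : ℤ, a ^ 2 = 8 * k + 1 := by
  obtain ⟨k, hk⟩ := Int.eight_dvd_sq_sub_one_of_odd ha
  exact ⟨k, by linarith⟩

/-- the congruences modulo eight if two is ramified -/
theorem fin_odd (D m p A B c : ℤ) (hm : Odd m) (hp : Odd p) (hD : D % 4 = 2 ∨ D % 4 = 3)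
    (hABc : ¬ (Even A ∧ Even B ∧ Even c)) (h1 : (8 : ℤ) ∣ m * (A ^ 2 + D * B ^ 2) - p * c ^ 2)
    (h2 : (8 : ℤ) ∣ 2 * m * A * B) :
    (8 : ℤ) ∣ m - p ∨ (D % 4 = 3 ∧ (8 : ℤ) ∣ m * D - p) := by
  -- four divides the product
  have h3 : (4 : ℤ) ∣ A * B := by
    obtain ⟨k, hk⟩ := hm
    obtain ⟨j, hj⟩ := h2
    have h4 : (2 * k + 1) * (A * B) = 4 * j := by rw [← hk]; linarith
    have h5 : IsCoprime (4 : ℤ) (2 * k + 1) := by
      have : IsCoprime ((2 : ℤ) ^ 2) (2 * k + 1) := IsCoprime.pow_left ⟨-k, 1, by ring⟩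
      simpa using this
    exact h5.dvd_of_dvd_mul_left ⟨j, h4⟩
  obtain ⟨j, hj⟩ := h1
  obtain ⟨m', hm'⟩ := hm
  obtain ⟨p', hp'⟩ := hp
  rcases Int.even_or_odd A with hA | hA
  · rcases Int.even_or_odd B with hB | hB
    · exfalso
      obtain ⟨a, ha⟩ := hA
      obtain ⟨b, hb⟩ := hB
      have hc : Even c := by
        by_contra hcon
        rw [Int.not_even_iff_odd] at hcon
        obtain ⟨k, hk⟩ := odd_sq c hcon
        rw [hk, ha, hb, hp'] at hj
        ring_nf at hj
        omega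
      exact hABc ⟨⟨a, ha⟩, ⟨b, hb⟩, hc⟩
    · have h4 : (4 : ℤ) ∣ A := by
        obtain ⟨b, hb⟩ := hB
        have h5 : IsCoprime (4 : ℤ) B := by
          have : IsCoprime ((2 : ℤ) ^ 2) B := IsCoprime.pow_left ⟨-b, 1, by rw [hb]; ring⟩
          simpa using this
        exact h5.dvd_of_dvd_mul_right h3
      obtain ⟨a, ha⟩ := h4
      obtain ⟨b, hb⟩ := odd_sq B hB
      -- `m D = p c ^ 2`
      have h5 : m * D - p * c ^ 2 = 8 * (j - m * D * b - 2 * m * a ^ 2) := by
        have h6 : m * (A ^ 2 + D * B ^ 2) - p * c ^ 2 = 8 * j := hj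
        rw [hb, ha] at h6
        linear_combination h6
      rcases hD with hD | hD
      · exfalso
        obtain ⟨d, hd⟩ : ∃ d : ℤ, D = 4 * d + 2 := ⟨D / 4, by omega⟩
        rcases Int.even_or_odd c with hc | hc
        · obtain ⟨c', hc'⟩ := hc
          rw [hc', hd, hm'] at h5
          ring_nf at h5
          omega
        · obtain ⟨k, hk⟩ := odd_sq c hc
          rw [hk, hd, hm', hp'] at h5
          ring_nf at h5
          omega
      · right
        refine ⟨hD, ?_⟩
        obtain ⟨d, hd⟩ : ∃ d : ℤ, D = 4 * d + 3 := ⟨D / 4, by omega⟩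
        rcases Int.even_or_odd c with hc | hc
        · exfalso
          obtain ⟨c', hc'⟩ := hc
          rw [hc', hd, hm'] at h5
          ring_nf at h5
          omega
        · obtain ⟨k, hk⟩ := odd_sq c hc
          rw [hk] at h5
          exact ⟨j - m * D * b - 2 * m * a ^ 2 + p * k, by linear_combination h5⟩
  · left
    have h4 : (4 : ℤ) ∣ B := by
      obtain ⟨a, ha⟩ := hA
      have h5 : IsCoprime (4 : ℤ) A := by
        have : IsCoprime ((2 : ℤ) ^ 2) A := IsCoprime.pow_left ⟨-a, 1, by rw [ha]; ring⟩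
        simpa using this
      exact h5.dvd_of_dvd_mul_left h3
    obtain ⟨b, hb⟩ := h4
    obtain ⟨a, ha⟩ := odd_sq A hA
    have h5 : m - p * c ^ 2 = 8 * (j - m * a - 2 * m * D * b ^ 2) := by
      have h6 : m * (A ^ 2 + D * B ^ 2) - p * c ^ 2 = 8 * j := hj
      rw [ha, hb] at h6
      linear_combination h6
    rcases Int.even_or_odd c with hc | hc
    · exfalso
      obtain ⟨c', hc'⟩ := hc
      rw [hc', hm'] at h5
      ring_nf at h5
      omega
    · obtain ⟨k, hk⟩ := odd_sq c hc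
      rw [hk] at h5
      exact ⟨j - m * a - 2 * m * D * b ^ 2 + p * k, by linear_combination h5⟩

/-- `m` is not even if `D` is three modulo four -/
theorem fin_even (D m p A B c : ℤ) (hm : m % 4 = 2) (hp : Odd p) (hD : D % 4 = 3)
    (hABc : ¬ (Even A ∧ Even B ∧ Even c)) (h1 : (8 : ℤ) ∣ m * (A ^ 2 + D * B ^ 2) - p * c ^ 2)
    (h2 : (8 : ℤ) ∣ 2 * m * A * B) : False := by
  obtain ⟨m', hm'⟩ : ∃ m', m = 4 * m' + 2 := ⟨m / 4, by omega⟩
  obtain ⟨d, hd⟩ : ∃ d : ℤ, D = 4 * d + 3 := ⟨D / 4, by omega⟩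
  obtain ⟨p', hp'⟩ := hp
  obtain ⟨j, hj⟩ := h1
  obtain ⟨i, hi⟩ := h2
  have hc : Even c := by
    by_contra hcon
    rw [Int.not_even_iff_odd] at hcon
    obtain ⟨k, hk⟩ := odd_sq c hcon
    rw [hk, hm', hp'] at hj
    ring_nf at hj
    omega
  have hAB : Even (A * B) := by
    by_contra hcon
    rw [Int.not_even_iff_odd] at hcon
    obtain ⟨k, hk⟩ := hcon
    have h3 : 2 * m * (A * B) = 8 * i := by rw [← hi]; ring
    rw [hk, hm'] at h3
    ring_nf at h3
    omega
  obtain ⟨c', hc'⟩ := hc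
  have key : ∀ a b : ℤ, Odd a → Even b → ∀ e : ℤ, Odd e → ∀ f : ℤ,
      (4 * m' + 2) * (e * a ^ 2 + f * b ^ 2) - (2 * p' + 1) * (c' + c') ^ 2 = 8 * j → False := by
    intro a b ha hb e he f h
    obtain ⟨k, hk⟩ := odd_sq a ha
    obtain ⟨b', hb'⟩ := hb
    obtain ⟨e', he'⟩ := he
    rw [hk, hb', he'] at h
    ring_nf at h
    omega
  rw [hm', hp', hc'] at hj
  rcases Int.even_mul.1 hAB with hA | hB
  · rcases Int.even_or_odd B with hB | hB
    · exact hABc ⟨hA, hB, ⟨c', hc'⟩⟩
    · exact key B A hB hA D ⟨2 * d + 1, by rw [hd]; ring⟩ 1 (by linear_combination hj)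
  · rcases Int.even_or_odd A with hA | hA
    · exact hABc ⟨hA, hB, ⟨c', hc'⟩⟩
    · exact key A B hA hB 1 odd_one D (by linear_combination hj)

section

variable {K : Type} [Field K] [NumberField K] {D : ℤ} {r : K} (P : HeightOneSpectrum (𝓞 K))

/-- three integers without a common factor two -/
theorem QF.frac (q : QF K D r) (s : K) : ∃ A B c : ℤ, c ≠ 0 ∧ ¬ (Even A ∧ Even B ∧ Even c) ∧
    s * c = A + B * r := by
  obtain ⟨hco, -, -⟩ := q.coords
  obtain ⟨x, y, rfl⟩ := hco s
  have key : ∀ n : ℕ, ∀ A B c : ℤ, c.natAbs = n → c ≠ 0 → ((x : K) + y * r) * c = A + B * r →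
      ∃ A B c : ℤ, c ≠ 0 ∧ ¬ (Even A ∧ Even B ∧ Even c) ∧ ((x : K) + y * r) * c = A + B * r := by
    intro n
    induction n using Nat.strong_induction_on with
    | _ n ih =>
      intro A B c hn hc h
      by_cases hev : Even A ∧ Even B ∧ Even c
      · obtain ⟨⟨A', hA⟩, ⟨B', hB⟩, ⟨c', hc'⟩⟩ := hev
        have hc0 : c' ≠ 0 := by rintro rfl; exact hc (by rw [hc']; rfl)
        refine ih c'.natAbs (by omega) A' B' c' rfl hc0 ?_
        rw [hA, hB, hc'] at h
        push_cast at h
        apply mul_left_cancel₀ (two_ne_zero (α := K))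
        linear_combination h
      · exact ⟨A, B, c, hc, hev, h⟩
  have hx : (x : K) * (x.den : K) = (x.num : K) := by
    have := Rat.mul_den_eq_num x
    exact_mod_cast congrArg (Rat.cast (K := K)) this
  have hy : (y : K) * (y.den : K) = (y.num : K) := by
    have := Rat.mul_den_eq_num y
    exact_mod_cast congrArg (Rat.cast (K := K)) this
  refine key _ (x.num * y.den) (y.num * x.den) ((x.den : ℤ) * y.den) rfl
    (by exact_mod_cast mul_ne_zero x.den_nz y.den_nz) ?_
  push_cast
  linear_combination (y.den : K) * hx + r * (x.den : K) * hy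

/-- squarefree integers whose primes divide `D` -/
theorem dvd_of_sf (m D : ℤ) (hm : Squarefree m) (h : ∀ l : ℕ, l.Prime → (l : ℤ) ∣ m → (l : ℤ) ∣ D) :
    m ∣ D := by
  rw [← Int.natAbs_dvd_natAbs]
  have hsf : Squarefree m.natAbs := Int.squarefree_natAbs.2 hm
  rw [← Nat.prod_primeFactors_of_squarefree hsf]
  refine Finset.prod_primes_dvd _ (fun a ha => (Nat.prime_of_mem_primeFactors ha).prime) fun a ha => ?_
  have h1 := Nat.dvd_of_mem_primeFactors ha
  have h2 := h a (Nat.prime_of_mem_primeFactors ha) (Int.natCast_dvd.2 h1)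
  exact Int.natCast_dvd.1 h2

theorem QF.final (q : QF K D r) (h2 : (2 : 𝓞 K) ∈ P.asIdeal) (hD : D % 8 ≠ 5) (m : ℤ)
    (hmsf : Squarefree m) (hmpos : 0 < D → 0 < m)
    (hml : ∀ l : ℕ, l.Prime → (l : ℤ) ∣ m → (l : ℤ) ∣ D ∨ l = 2)
    (hm2 : D % 4 = 1 → ¬ (2 : ℤ) ∣ m) (p : ℤ) (hp : Odd p) (s : K)
    (h : P.valuation K ((m : K) * s ^ 2 - p) ≤ P.valuation K (2 : K) ^ 3) :
    ∃ m' : ℤ, m' ∣ D ∧ (0 < D → 0 < m') ∧ m' ≡ p [ZMOD 8] := by
  have hw2 := w_two_pos P
  have hw21 := w_two_lt P h2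
  have hpval : P.valuation K (p : K) = 1 := w_odd P h2 p hp
  have hoddm : ∀ m : ℤ, Squarefree m → Odd m →
      (∀ l : ℕ, l.Prime → (l : ℤ) ∣ m → (l : ℤ) ∣ D ∨ l = 2) → m ∣ D := by
    intro m hm ho hl
    refine dvd_of_sf m D hm fun l hlp hlm => ?_
    rcases hl l hlp hlm with h | h
    · exact h
    · exfalso
      rw [h] at hlm
      obtain ⟨k, hk⟩ := ho
      have : (2 : ℤ) ∣ m := by exact_mod_cast hlm
      omega
  by_cases hD4 : D % 4 = 1
  · -- two is split
    have hD8 : D % 8 = 1 := by omega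
    have hmo : Odd m := by
      rw [← Int.not_even_iff_odd, even_iff_two_dvd]
      exact hm2 hD4
    refine ⟨m, hoddm m hmsf hmo hml, hmpos, ?_⟩
    have h8 : P.valuation K (2 : K) ^ 3 < 1 := pow_lt_one₀ zero_le' hw21 (by norm_num)
    have hs : P.valuation K s = 1 := by
      have h3 : P.valuation K ((m : K) * s ^ 2) = 1 := by
        have e : (m : K) * s ^ 2 = p - (p - (m : K) * s ^ 2) := by ring
        rw [e, Valuation.map_sub_eq_of_lt_left, hpval]
        rw [hpval, Valuation.map_sub_swap]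
        exact h.trans_lt h8
      rw [map_mul, w_odd P h2 m hmo, one_mul, map_pow] at h3
      exact (pow_eq_one_iff_of_nonneg zero_le' two_ne_zero).1 h3
    -- a rational approximation
    obtain ⟨A, B, c, hc0, hABc, hs'⟩ := q.frac s
    obtain ⟨k, -, -, -, hk⟩ := w_int P h2 c hc0
    obtain ⟨ρ, hρ⟩ := q.approx P h2 hD8 (k + 3)
    have hcK : (c : K) ≠ 0 := by exact_mod_cast hc0
    have hsx : P.valuation K (s * c - ((A + B * ρ : ℤ) : K)) ≤ P.valuation K (2 : K) ^ (k + 3) := by
      have e : s * c - ((A + B * ρ : ℤ) : K) = B * (r - ρ) := by rw [hs']; push_cast; ring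
      rw [e, map_mul]
      exact (mul_le_of_le_one_left' (w_int_le P B)).trans hρ
    -- the integer `A + B ρ`
    obtain ⟨E, hE⟩ : ∃ E : ℤ, E = A + B * ρ := ⟨_, rfl⟩
    rw [← hE] at hsx
    have hsc : P.valuation K (s * c) = P.valuation K (2 : K) ^ k := by rw [map_mul, hs, one_mul, hk]
    have hEv : P.valuation K (E : K) = P.valuation K (2 : K) ^ k := by
      have e : (E : K) = s * c - (s * c - E) := by ring
      rw [e, Valuation.map_sub_eq_of_lt_left, hsc]
      rw [hsc]
      refine hsx.trans_lt ?_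
      exact pow_lt_pow_right_of_lt_one₀ hw2 hw21 (by omega)
    have hE0 : E ≠ 0 := by
      rintro rfl
      rw [Int.cast_zero, map_zero] at hEv
      exact (pow_pos hw2 k).ne hEv
    obtain ⟨k', E', hE'o, hE', hkE⟩ := w_int P h2 E hE0
    obtain ⟨k'', c', hc'o, hc', hkc⟩ := w_int P h2 c hc0
    have hkk : k' = k := by
      rw [hkE] at hEv
      exact pow_right_injective₀ hw2 hw21.ne hEv
    have hkk' : k'' = k := by
      rw [hkc] at hk
      exact pow_right_injective₀ hw2 hw21.ne hk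
    rw [hkk] at hE'
    rw [hkk'] at hc'
    have hcK' : P.valuation K (c' : K) = 1 := w_odd P h2 c' hc'o
    have hEK' : P.valuation K (E' : K) = 1 := w_odd P h2 E' hE'o
    -- divide by the power of two
    have h3 : P.valuation K (s * c' - E') ≤ P.valuation K (2 : K) ^ 3 := by
      have e : s * c - (E : K) = 2 ^ k * (s * c' - E') := by rw [hc', hE']; push_cast; ring
      rw [e, map_mul, map_pow, pow_add] at hsx
      exact (mul_le_mul_iff_right₀ (pow_pos hw2 k)).1 hsx
    have h4 : P.valuation K (((m * E' ^ 2 - p * c' ^ 2 : ℤ)) : K) ≤ P.valuation K (2 : K) ^ 3 := by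
      have e : (((m * E' ^ 2 - p * c' ^ 2 : ℤ)) : K) =
          c' ^ 2 * (m * s ^ 2 - p) - m * (s * c' + E') * (s * c' - E') := by
        push_cast
        ring
      rw [e]
      refine (Valuation.map_sub _ _ _).trans (max_le ?_ ?_)
      · rw [map_mul, map_pow, hcK', one_pow, one_mul]
        exact h
      · rw [map_mul, map_mul]
        have h5 : P.valuation K (s * c' + E') ≤ 1 := by
          refine (Valuation.map_add _ _ _).trans (max_le ?_ hEK'.le)
          rw [map_mul, hs, hcK', one_mul]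
        have h6 : P.valuation K (m : K) * P.valuation K (s * c' + E') ≤ 1 :=
          mul_le_one' (w_int_le P m) h5
        exact (mul_le_of_le_one_left' h6).trans h3
    have h5 := dvd_of_w_le P h2 _ 3 h4
    obtain ⟨a, ha⟩ := odd_sq E' hE'o
    obtain ⟨b, hb⟩ := odd_sq c' hc'o
    obtain ⟨j, hj⟩ := h5
    rw [ha, hb] at hj
    rw [Int.modEq_iff_dvd]
    exact ⟨m * a - p * b - j, by linear_combination -hj⟩
  · -- two is ramified
    obtain ⟨hD4', hD4''⟩ : (D % 4 = 2 ∨ D % 4 = 3) ∧ True := by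
      rcases q.unif P h2 hD4 with ⟨h, -⟩ | ⟨h, -⟩
      · exact ⟨Or.inl h, trivial⟩
      · exact ⟨Or.inr h, trivial⟩
    have hcongr : ∀ (m : ℤ) (s : K), P.valuation K ((m : K) * s ^ 2 - p) ≤ P.valuation K (2 : K) ^ 3 →
        ∃ A B c : ℤ, ¬ (Even A ∧ Even B ∧ Even c) ∧
          (8 : ℤ) ∣ m * (A ^ 2 + D * B ^ 2) - p * c ^ 2 ∧ (8 : ℤ) ∣ 2 * m * A * B := by
      intro m s h
      obtain ⟨A, B, c, -, hABc, hs⟩ := q.frac s
      have e : ((m * (A ^ 2 + D * B ^ 2) - p * c ^ 2 : ℤ) : K) + ((2 * m * A * B : ℤ) : K) * r =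
          (m * s ^ 2 - p) * c ^ 2 := by
        have h3 : (m * s ^ 2 - p) * (c : K) ^ 2 = m * (s * c) ^ 2 - p * c ^ 2 := by ring
        rw [h3, hs]
        push_cast
        linear_combination (-(m : K) * B ^ 2) * q.sq
      have h3 : P.valuation K (((m * (A ^ 2 + D * B ^ 2) - p * c ^ 2 : ℤ) : K) +
          ((2 * m * A * B : ℤ) : K) * r) ≤ P.valuation K (2 : K) ^ 3 := by
        rw [e, map_mul, map_pow]
        exact (mul_le_of_le_one_right' (pow_le_one' (w_int_le P c) 2)).trans h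
      obtain ⟨h4, h5⟩ := q.dvd_pair P h2 hD4 _ _ h3
      exact ⟨A, B, c, hABc, h4, h5⟩
    rcases Int.even_or_odd m with hme | hmo
    · -- `m` is even
      have hm4 : m % 4 = 2 := by
        obtain ⟨k, hk⟩ := hme
        have h3 : ¬ (2 : ℤ) * 2 ∣ m := by
          intro h4
          have := Int.isUnit_iff.1 (hmsf 2 h4)
          omega
        have h4 : m % 4 ≠ 0 := fun h5 => h3 (by
          rw [show (2 : ℤ) * 2 = 4 by norm_num]
          exact Int.dvd_of_emod_eq_zero h5)
        omega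
      rcases hD4' with hD2 | hD3
      · -- `D` is even
        obtain ⟨m', hm'⟩ : ∃ m', m = 2 * m' := ⟨m / 2, by omega⟩
        obtain ⟨D', hD'⟩ : ∃ D', D = 2 * D' := ⟨D / 2, by omega⟩
        have hm'o : Odd m' := by
          rw [Int.odd_iff]
          omega
        have hD'o : Odd D' := by
          rw [Int.odd_iff]
          omega
        have hr0 := q.r_ne
        have h3 : P.valuation K (((m' * D' : ℤ) : K) * (2 * s / r) ^ 2 - p) ≤
            P.valuation K (2 : K) ^ 3 := by
          have e : ((m' * D' : ℤ) : K) * (2 * s / r) ^ 2 = (m : K) * s ^ 2 := by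
            rw [div_pow, mul_div_assoc', div_eq_iff (pow_ne_zero 2 hr0), q.sq, hm', hD']
            push_cast
            ring
          rw [e]
          exact h
        obtain ⟨A, B, c, hABc, h4, h5⟩ := hcongr _ _ h3
        have h6 := fin_odd D (m' * D') p A B c (hm'o.mul hD'o) hp (Or.inl hD2) hABc h4 h5
        have h7 : (8 : ℤ) ∣ m' * D' - p := by
          rcases h6 with h | ⟨h, -⟩
          · exact h
          · omega
        -- `m'` divides `D'`
        have hsf' : Squarefree m' := hmsf.squarefree_of_dvd ⟨2, by rw [hm']; ring⟩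
        have h8 : m' ∣ D' := by
          have h9 : m' ∣ D := hoddm m' hsf' hm'o fun l hl hlm =>
            hml l hl (hlm.trans ⟨2, by rw [hm']; ring⟩)
          rw [hD'] at h9
          have h10 : IsCoprime m' 2 := by
            obtain ⟨k, hk⟩ := hm'o
            exact ⟨1, -k, by rw [hk]; ring⟩
          exact h10.dvd_of_dvd_mul_left h9
        obtain ⟨e, he⟩ := h8
        refine ⟨e, ⟨2 * m', by rw [hD', he]; ring⟩, ?_, ?_⟩
        · intro hDpos
          have h9 := hmpos hDpos
          have h10 : 0 < m' := by omega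
          have h11 : 0 < m' * e := by rw [← he]; omega
          exact (pos_iff_pos_of_mul_pos h11).1 h10
        · obtain ⟨k, hk⟩ := odd_sq m' hm'o
          obtain ⟨j, hj⟩ := h7
          rw [he] at hj
          rw [Int.modEq_iff_dvd]
          exact ⟨e * k - j, by linear_combination -hj + e * hk⟩
      · exfalso
        obtain ⟨A, B, c, hABc, h4, h5⟩ := hcongr m s h
        exact fin_even D m p A B c hm4 hp hD3 hABc h4 h5
    · -- `m` is odd
      have hmD := hoddm m hmsf hmo hml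
      obtain ⟨A, B, c, hABc, h4, h5⟩ := hcongr m s h
      rcases fin_odd D m p A B c hmo hp hD4' hABc h4 h5 with h6 | ⟨-, h6⟩
      · refine ⟨m, hmD, hmpos, ?_⟩
        rw [Int.modEq_iff_dvd]
        obtain ⟨j, hj⟩ := h6
        exact ⟨-j, by linear_combination -hj⟩
      · obtain ⟨e, he⟩ := hmD
        refine ⟨e, ⟨m, by rw [he]; ring⟩, ?_, ?_⟩
        · intro hDpos
          have h9 := hmpos hDpos
          have h11 : 0 < m * e := by rw [← he]; exact hDpos
          exact (pos_iff_pos_of_mul_pos h11).1 h9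
        · obtain ⟨k, hk⟩ := odd_sq m hmo
          obtain ⟨j, hj⟩ := h6
          rw [he] at hj
          rw [Int.modEq_iff_dvd]
          exact ⟨e * k - j, by linear_combination -hj + e * hk⟩

end

end Pool.Agent.Zk43.FQ
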