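import Pool.Agent.Zk43.FQ.Quad

/-!
# Quadratic fields: elements with even valuations are rational numbers times squares
-/

set_option autoImplicit false

namespace Pool.Agent.Zk43.FQ

open NumberField IsDedekindDomain Polynomial

section

variable {K : Type} [Field K] [NumberField K] {D : ℤ} {r : K}

/-- all conjugates are real -/
theorem QF.real (q : QF K D r) (hD : 0 < D) (φ : K →+* ℂ) (a : K) : ∃ x : ℝ, φ a = x := by
  obtain ⟨hco, -, -⟩ := q.coords
  obtain ⟨x, y, rfl⟩ := hco a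
  have h3 : φ r ^ 2 = (D : ℂ) := by rw [← map_pow, q.sq, map_intCast]
  obtain ⟨ρ, hρ⟩ : ∃ ρ, ρ = φ r := ⟨_, rfl⟩
  rw [← hρ] at h3
  have h4 := congrArg Complex.re h3
  have h5 := congrArg Complex.im h3
  rw [pow_two, Complex.mul_re, Complex.intCast_re] at h4
  rw [pow_two, Complex.mul_im, Complex.intCast_im] at h5
  have hq0 : (0 : ℝ) < D := by exact_mod_cast hD
  have him : ρ.im = 0 := by
    have h6 : ρ.re * ρ.im = 0 := by linarith
    rcases mul_eq_zero.1 h6 with h | h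
    · rw [h] at h4
      nlinarith [mul_self_nonneg ρ.im]
    · exact h
  have hρ' : ρ = (ρ.re : ℂ) := Complex.ext rfl (by simpa using him)
  refine ⟨x + y * ρ.re, ?_⟩
  rw [map_add, map_mul, map_ratCast, map_ratCast, ← hρ, hρ']
  push_cast
  simp

/-- the norm of an element with positive conjugates is positive -/
theorem norm_pos_of (b : K) (h : ∀ φ : K →+* ℂ, ∃ x : ℝ, 0 < x ∧ φ b = x) :
    0 < Algebra.norm ℚ b := by
  have h1 := Algebra.norm_eq_prod_embeddings ℚ ℂ b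
  choose f hf using h
  have h2 : ∏ σ : K →ₐ[ℚ] ℂ, σ b = ((∏ σ : K →ₐ[ℚ] ℂ, f (σ : K →+* ℂ) : ℝ) : ℂ) := by
    rw [Complex.ofReal_prod]
    exact Finset.prod_congr rfl fun σ _ => (hf (σ : K →+* ℂ)).2
  rw [h2] at h1
  have h3 : ((Algebra.norm ℚ b : ℝ)) = ∏ σ : K →ₐ[ℚ] ℂ, f (σ : K →+* ℂ) := by
    have h4 : (((Algebra.norm ℚ b : ℚ) : ℝ) : ℂ) =
        ((∏ σ : K →ₐ[ℚ] ℂ, f (σ : K →+* ℂ) : ℝ) : ℂ) := by
      rw [← h1]
      simp
    exact_mod_cast h4
  have h5 : (0 : ℝ) < ∏ σ : K →ₐ[ℚ] ℂ, f (σ : K →+* ℂ) :=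
    Finset.prod_pos fun σ _ => (hf (σ : K →+* ℂ)).1
  rw [← h3] at h5
  exact_mod_cast h5

theorem QF.gen (q : QF K D r) (b : K) (hb0 : b ≠ 0) (hb : Ev b)
    (hpos : 0 < D → ∀ φ : K →+* ℂ, ∃ x : ℝ, 0 < x ∧ φ b = x) :
    ∃ (m : ℤ) (s : K), Squarefree m ∧ s ≠ 0 ∧ b = (m : K) * s ^ 2 ∧ (0 < D → 0 < m) ∧
      (∀ l : ℕ, l.Prime → (l : ℤ) ∣ m → (l : ℤ) ∣ D ∨ l = 2) ∧ (D % 4 = 1 → ¬ (2 : ℤ) ∣ m) := by
  have hnp : 0 < Algebra.norm ℚ b := by
    rcases lt_trichotomy D 0 with hD | hD | hD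
    · obtain ⟨hco, hno, -⟩ := q.coords
      obtain ⟨x, y, hxy⟩ := hco b
      rw [hxy, hno]
      have hDQ : (D : ℚ) < 0 := by exact_mod_cast hD
      by_cases hy : y = 0
      · have hx : x ≠ 0 := by
          rintro rfl
          apply hb0
          rw [hxy, hy]
          simp
        rw [hy]
        have : 0 < x ^ 2 := by positivity
        linarith
      · have h1 : 0 < y ^ 2 := by positivity
        have h2 : 0 < -(D : ℚ) * y ^ 2 := mul_pos (by linarith) h1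
        have h3 : 0 ≤ x ^ 2 := sq_nonneg x
        linarith
    · exact absurd hD q.sf.ne_zero
    · exact norm_pos_of b (hpos hD)
  obtain ⟨n, hn⟩ : ∃ n : ℚ, Algebra.norm ℚ b = n ^ 2 := by
    obtain ⟨n, hn | hn⟩ := norm_sq b hb0 hb
    · exact ⟨n, hn⟩
    · exfalso
      rw [hn] at hnp
      have := sq_nonneg n
      linarith
  obtain ⟨t, s, ht, hs, hts⟩ := q.hilb b hb0 n hn
  -- the squarefree part of `t`
  obtain ⟨s0, c, hc, hsf⟩ := Nat.sq_mul_squarefree (t.num.natAbs * t.den)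
  have hnum : t.num ≠ 0 := Rat.num_ne_zero.2 ht
  have hden : (t.den : ℚ) ≠ 0 := by exact_mod_cast t.den_nz
  have hdenK : (t.den : K) ≠ 0 := by exact_mod_cast t.den_nz
  have hN0 : t.num.natAbs * t.den ≠ 0 := mul_ne_zero (Int.natAbs_ne_zero.2 hnum) t.den_nz
  have hc0 : c ≠ 0 := by
    rintro rfl
    apply hN0
    rw [← hc]
    simp
  have hcK : (c : K) ≠ 0 := by exact_mod_cast hc0
  obtain ⟨m, hm⟩ : ∃ m : ℤ, m = t.num.sign * s0 := ⟨_, rfl⟩
  have hmabs : m.natAbs = s0 := by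
    rw [hm, Int.natAbs_mul, Int.natAbs_sign_of_ne_zero hnum, one_mul, Int.natAbs_natCast]
  have hmsf : Squarefree m := by rw [← Int.squarefree_natAbs, hmabs]; exact hsf
  have hss : t * (t.den : ℚ) ^ 2 = (c : ℚ) ^ 2 * m := by
    have h1 : ((c ^ 2 * s0 : ℕ) : ℤ) = ((t.num.natAbs * t.den : ℕ) : ℤ) := by rw [hc]
    have h2 : (c : ℤ) ^ 2 * m = t.num * t.den := by
      rw [hm]
      push_cast at h1
      have h3 : t.num = t.num.sign * |t.num| := (Int.sign_mul_abs t.num).symm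
      have h4 : (c : ℤ) ^ 2 * (t.num.sign * s0) = t.num.sign * ((c : ℤ) ^ 2 * s0) := by ring
      rw [h4, h1, ← mul_assoc, ← h3]
    have h5 : ((c : ℚ) ^ 2 * m) = (t.num : ℚ) * t.den := by exact_mod_cast h2
    rw [h5]
    have h6 : t * t.den = t.num := Rat.mul_den_eq_num t
    rw [← h6]
    ring
  have hssK : (t : K) * (t.den : K) ^ 2 = (c : K) ^ 2 * m := by
    have h1 : (((t * (t.den : ℚ) ^ 2 : ℚ)) : K) = (((c : ℚ) ^ 2 * m : ℚ) : K) := by rw [hss]
    push_cast at h1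
    exact h1
  have hs' : (c : K) * s / t.den ≠ 0 := div_ne_zero (mul_ne_zero hcK hs) hdenK
  have hbm : b = (m : K) * ((c : K) * s / t.den) ^ 2 := by
    rw [hts, div_pow, mul_pow, mul_div_assoc', eq_div_iff (pow_ne_zero 2 hdenK)]
    linear_combination s ^ 2 * hssK
  have hmK : (m : K) ≠ 0 := by
    intro h0
    apply hb0
    rw [hbm, h0, zero_mul]
  have hEvm : Ev (m : K) := Ev.of_mul_sq hs' (by rw [← hbm]; exact hb)
  have hprime : ∀ l : ℕ, l.Prime → (l : ℤ) ∣ m → Ev (l : K) := by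
    intro l hl hls
    have hls' : l ∣ s0 := by
      rw [← hmabs]
      exact Int.natCast_dvd.1 hls
    obtain ⟨s1, hs1⟩ := hls'
    have hcop : Nat.Coprime l s1 := by
      rw [hl.coprime_iff_not_dvd]
      rintro ⟨t, ht⟩
      have h1 : l * l ∣ s0 := ⟨t, by rw [hs1, ht]; ring⟩
      have h2 := hsf l h1
      exact hl.one_lt.ne' (Nat.isUnit_iff.1 h2)
    intro v
    by_cases hlv : (l : 𝓞 K) ∈ v.asIdeal
    · have hs1v : (s1 : 𝓞 K) ∉ v.asIdeal := by
        intro hs1v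
        apply v.isPrime.ne_top
        rw [Ideal.eq_top_iff_one]
        have h3 : ((l : ℤ) * Nat.gcdA l s1 + (s1 : ℤ) * Nat.gcdB l s1 : ℤ) = 1 := by
          rw [← Nat.gcd_eq_gcd_ab, hcop]
          rfl
        have h4 : ((((l : ℤ) * Nat.gcdA l s1 + (s1 : ℤ) * Nat.gcdB l s1 : ℤ)) : 𝓞 K) = 1 := by
          rw [h3]
          simp
        rw [← h4]
        push_cast
        exact v.asIdeal.add_mem (v.asIdeal.mul_mem_right _ hlv) (v.asIdeal.mul_mem_right _ hs1v)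
      obtain ⟨k, hk⟩ := hEvm v
      refine ⟨k, ?_⟩
      have hmv : v.valuation K (m : K) = v.valuation K (s0 : K) := by
        rcases Int.natAbs_eq m with h | h
        · rw [h, hmabs]; simp
        · rw [h, hmabs, Int.cast_neg, Valuation.map_neg]; simp
      rw [hmv, hs1] at hk
      push_cast at hk
      rw [map_mul, val_nat v s1 hs1v, mul_one] at hk
      exact hk
    · exact ⟨0, by rw [val_nat v l hlv]; simp⟩
  refine ⟨m, _, hmsf, hs', hbm, ?_, fun l hl hlm => (q.prime_even l hl (hprime l hl hlm)).1, ?_⟩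
  · intro hD
    obtain ⟨φ⟩ : Nonempty (K →+* ℂ) := inferInstance
    obtain ⟨x, hx, hxb⟩ := hpos hD φ
    obtain ⟨y, hy⟩ := q.real hD φ ((c : K) * s / t.den)
    have h1 : (x : ℂ) = (((m : ℝ) * y ^ 2 : ℝ) : ℂ) := by
      rw [← hxb, hbm, map_mul, map_intCast, map_pow, hy]
      push_cast
      rfl
    have h2 : x = (m : ℝ) * y ^ 2 := by exact_mod_cast h1
    by_contra hcon
    push Not at hcon
    have h3 : (m : ℝ) ≤ 0 := by exact_mod_cast hcon
    have h4 := mul_nonpos_of_nonpos_of_nonneg h3 (sq_nonneg y)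
    linarith
  · intro hD4 h2m
    exact (q.prime_even 2 Nat.prime_two (hprime 2 Nat.prime_two (by exact_mod_cast h2m))).2 hD4 rfl

end

end Pool.Agent.Zk43.FQ
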