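import Pool.Agent.Zk43.FQ.Core

/-!
# Quadratic fields in which two is inert: local computations at two
-/

set_option autoImplicit false

namespace Pool.Agent.Zk43.FQ

open NumberField IsDedekindDomain Polynomial Finset

section

variable {K : Type} [Field K] [NumberField K] {D : ℤ} {r : K} (P : HeightOneSpectrum (𝓞 K))

/-- the number `(1 + r) / 2` -/
theorem QF.omega (q : QF K D r) (h2 : (2 : 𝓞 K) ∈ P.asIdeal) (hD : D % 8 = 5) :
    ∃ (ω : K) (k : ℤ), Odd k ∧ 2 * ω = 1 + r ∧ ω ^ 2 = ω + k ∧ D = 4 * k + 1 ∧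
      P.valuation K ω ≤ 1 ∧
      ∀ A B : ℤ, ¬ (Even A ∧ Even B) → P.valuation K (A + B * ω) = 1 := by
  obtain ⟨k, hk⟩ : ∃ k : ℤ, D = 4 * k + 1 := ⟨D / 4, by omega⟩
  have hko : Odd k := by
    rw [Int.odd_iff]
    omega
  obtain ⟨ω, hω⟩ : ∃ ω : K, ω = (1 + r) / 2 := ⟨_, rfl⟩
  have h2ω : 2 * ω = 1 + r := by rw [hω]; ring
  have hω2 : ω ^ 2 = ω + k := by
    have h1 := q.sq
    rw [hk] at h1
    push_cast at h1
    rw [hω]
    linear_combination (1 / 4 : K) * h1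
  have hval : ∀ x : K, x ^ 2 = x + k → P.valuation K x ≤ 1 := by
    intro x hx
    by_contra hcon
    push Not at hcon
    have h1 : P.valuation K (x ^ 2) ≤ P.valuation K x := by
      rw [hx]
      exact (Valuation.map_add _ _ _).trans (max_le le_rfl ((w_int_le P k).trans hcon.le))
    rw [map_pow, pow_two] at h1
    have h3 : P.valuation K x * P.valuation K x ≤ P.valuation K x * 1 := by rwa [mul_one]
    have h4 := (mul_le_mul_iff_right₀ (zero_lt_one.trans hcon)).1 h3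
    exact absurd h4 (not_le.2 hcon)
  have hw1 := hval ω hω2
  have hw2 : P.valuation K (1 - ω) ≤ 1 := hval (1 - ω) (by linear_combination hω2)
  refine ⟨ω, k, hko, h2ω, hω2, hk, hw1, fun A B hAB => ?_⟩
  have hle : ∀ x : K, P.valuation K x ≤ 1 → ∀ A B : ℤ, P.valuation K (A + B * x) ≤ 1 := by
    intro x hx A B
    refine (Valuation.map_add _ _ _).trans (max_le (w_int_le P A) ?_)
    rw [map_mul]
    exact mul_le_one' (w_int_le P B) hx
  have hprod : ((A : K) + B * ω) * ((A : K) + B * (1 - ω)) = ((A ^ 2 + A * B - k * B ^ 2 : ℤ) : K) := by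
    push_cast
    linear_combination (-(B : K) ^ 2) * hω2
  have hodd : Odd (A ^ 2 + A * B - k * B ^ 2) := by
    rcases Int.even_or_odd A with hA | hA
    · rcases Int.even_or_odd B with hB | hB
      · exact absurd ⟨hA, hB⟩ hAB
      · have h1 : Even (A ^ 2 + A * B) := (hA.pow_of_ne_zero two_ne_zero).add (hA.mul_right B)
        exact h1.sub_odd (hko.mul hB.pow)
    · rcases Int.even_or_odd B with hB | hB
      · have h1 : Odd (A ^ 2 + A * B) := hA.pow.add_even (hB.mul_left A)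
        exact h1.sub_even ((hB.pow_of_ne_zero two_ne_zero).mul_left k)
      · have h1 : Even (A ^ 2 + A * B) := hA.pow.add_odd (hA.mul hB)
        exact h1.sub_odd (hko.mul hB.pow)
  have h1 : P.valuation K ((A : K) + B * ω) * P.valuation K ((A : K) + B * (1 - ω)) = 1 := by
    rw [← map_mul, hprod]
    exact w_odd P h2 _ hodd
  apply le_antisymm (hle ω hw1 A B)
  by_contra hcon
  push Not at hcon
  have h3 := mul_lt_one_of_nonneg_of_lt_one_left zero_le' hcon (hle (1 - ω) hw2 A B)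
  rw [h1] at h3
  exact lt_irrefl _ h3

/-- the ring of integers modulo powers of two -/
theorem om_dvd (h2 : (2 : 𝓞 K) ∈ P.asIdeal) (ω : K)
    (hω : ∀ A B : ℤ, ¬ (Even A ∧ Even B) → P.valuation K (A + B * ω) = 1) (j : ℕ) :
    ∀ A B : ℤ, P.valuation K (A + B * ω) ≤ P.valuation K (2 : K) ^ j →
      (2 ^ j : ℤ) ∣ A ∧ (2 ^ j : ℤ) ∣ B := by
  induction j with
  | zero => intro A B _; simp
  | succ j ih =>
    intro A B h
    have hlt : P.valuation K (A + B * ω) < 1 :=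
      h.trans_lt (pow_lt_one₀ zero_le' (w_two_lt P h2) (Nat.succ_ne_zero j))
    have hev : Even A ∧ Even B := by
      by_contra hcon
      rw [hω A B hcon] at hlt
      exact lt_irrefl _ hlt
    obtain ⟨⟨a, ha⟩, ⟨b, hb⟩⟩ := hev
    have e : (A : K) + B * ω = 2 * (a + b * ω) := by rw [ha, hb]; push_cast; ring
    rw [e, map_mul, pow_succ, mul_comm] at h
    have h3 := (mul_le_mul_iff_left₀ (w_two_pos P)).1 h
    obtain ⟨h4, h5⟩ := ih a b h3
    constructor
    · rw [ha, ← two_mul, pow_succ, mul_comm]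
      exact mul_dvd_mul_left 2 h4
    · rw [hb, ← two_mul, pow_succ, mul_comm]
      exact mul_dvd_mul_left 2 h5

theorem om_lt (h2 : (2 : 𝓞 K) ∈ P.asIdeal) (ω : K)
    (hω : ∀ A B : ℤ, ¬ (Even A ∧ Even B) → P.valuation K (A + B * ω) = 1)
    (hw : P.valuation K ω ≤ 1) (j : ℕ) :
    ∀ A B : ℤ, P.valuation K (A + B * ω) < P.valuation K (2 : K) ^ j →
      P.valuation K (A + B * ω) ≤ P.valuation K (2 : K) ^ (j + 1) := by
  have hle : ∀ A B : ℤ, P.valuation K (A + B * ω) ≤ 1 := by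
    intro A B
    refine (Valuation.map_add _ _ _).trans (max_le (w_int_le P A) ?_)
    rw [map_mul]
    exact mul_le_one' (w_int_le P B) hw
  have hev : ∀ A B : ℤ, P.valuation K (A + B * ω) < 1 → ∃ a b : ℤ, (A : K) + B * ω = 2 * (a + b * ω) := by
    intro A B hlt
    have hev : Even A ∧ Even B := by
      by_contra hcon
      rw [hω A B hcon] at hlt
      exact lt_irrefl _ hlt
    obtain ⟨⟨a, ha⟩, ⟨b, hb⟩⟩ := hev
    exact ⟨a, b, by rw [ha, hb]; push_cast; ring⟩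
  induction j with
  | zero =>
    intro A B h
    rw [pow_zero] at h
    obtain ⟨a, b, hab⟩ := hev A B h
    rw [hab, map_mul, zero_add, pow_one]
    exact mul_le_of_le_one_right' (hle a b)
  | succ j ih =>
    intro A B h
    have hlt : P.valuation K (A + B * ω) < 1 :=
      h.trans_le (pow_le_one' (w_two_lt P h2).le _)
    obtain ⟨a, b, hab⟩ := hev A B hlt
    rw [hab, map_mul, pow_succ, mul_comm] at h
    have h3 := (mul_lt_mul_iff_left₀ (w_two_pos P)).1 h
    have h4 := ih a b h3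
    rw [hab, map_mul, pow_succ _ (j + 1), mul_comm]
    exact mul_le_mul_left h4 _

theorem QF.frac_om (q : QF K D r) (ω : K) (h2ω : 2 * ω = 1 + r) (s : K) :
    ∃ A B c : ℤ, c ≠ 0 ∧ s * c = A + B * ω := by
  obtain ⟨A, B, c, hc, -, h⟩ := q.frac s
  refine ⟨A - B, 2 * B, c, hc, ?_⟩
  push_cast
  linear_combination h + (-(B : K)) * h2ω

/-- two is a uniformizer -/
theorem QF.lt_two (q : QF K D r) (h2 : (2 : 𝓞 K) ∈ P.asIdeal) (hD : D % 8 = 5) (s : K)
    (hs : P.valuation K s < 1) : P.valuation K s ≤ P.valuation K (2 : K) := by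
  obtain ⟨ω, k, -, h2ω, -, -, hw, hω⟩ := q.omega P h2 hD
  obtain ⟨A, B, c, hc, h⟩ := q.frac_om ω h2ω s
  obtain ⟨j, -, -, -, hj⟩ := w_int P h2 c hc
  have hj0 : 0 < P.valuation K (2 : K) ^ j := pow_pos (w_two_pos P) j
  have h1 : P.valuation K (A + B * ω) = P.valuation K s * P.valuation K (2 : K) ^ j := by
    rw [← h, map_mul, hj]
  have h3 : P.valuation K (A + B * ω) < P.valuation K (2 : K) ^ j := by
    rw [h1]
    calc P.valuation K s * P.valuation K (2 : K) ^ j < 1 * P.valuation K (2 : K) ^ j :=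
          (mul_lt_mul_iff_left₀ hj0).2 hs
      _ = _ := one_mul _
  have h4 := om_lt P h2 ω hω hw j A B h3
  rw [h1, pow_succ, mul_comm (P.valuation K (2 : K) ^ j)] at h4
  exact (mul_le_mul_iff_left₀ hj0).1 h4

/-- the cube of a unit is one modulo two -/
theorem QF.cube (q : QF K D r) (h2 : (2 : 𝓞 K) ∈ P.asIdeal) (hD : D % 8 = 5) (s : K)
    (hs : P.valuation K s = 1) : P.valuation K (s ^ 3 - 1) < 1 := by
  obtain ⟨ω, k, hko, h2ω, hω2, -, hw, hω⟩ := q.omega P h2 hD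
  obtain ⟨A, B, c, hc, h⟩ := q.frac_om ω h2ω s
  obtain ⟨j, c', hc'o, hc', hj⟩ := w_int P h2 c hc
  have h20 : (2 : K) ≠ 0 := two_ne_zero
  have hlt2 := w_two_lt P h2
  have hAB : P.valuation K (A + B * ω) = P.valuation K (2 : K) ^ j := by
    rw [← h, map_mul, hs, one_mul, hj]
  obtain ⟨⟨a, ha⟩, ⟨b, hb⟩⟩ := om_dvd P h2 ω hω j A B hAB.le
  have hsc : s * c' = a + b * ω := by
    rw [hc', ha, hb] at h
    push_cast at h
    apply mul_left_cancel₀ (pow_ne_zero j h20)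
    linear_combination h
  have hle : ∀ A B : ℤ, P.valuation K (A + B * ω) ≤ 1 := by
    intro A B
    refine (Valuation.map_add _ _ _).trans (max_le (w_int_le P A) ?_)
    rw [map_mul]
    exact mul_le_one' (w_int_le P B) hw
  have hc1 : P.valuation K (c' : K) = 1 := w_odd P h2 c' hc'o
  have hu : P.valuation K (a + b * ω) = 1 := by rw [← hsc, map_mul, hs, hc1, one_mul]
  -- the cube of `a + b ω`
  have hcube : ∃ A' B' : ℤ, (a + b * ω) ^ 3 - 1 = 2 * (A' + B' * ω) := by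
    have hω3 : ω ^ 3 = (1 + k) * ω + k := by
      have : ω ^ 3 = ω * ω ^ 2 := by ring
      rw [this, hω2]
      linear_combination hω2
    obtain ⟨k', hk'⟩ := hko
    have hnev : ¬ (Even a ∧ Even b) := by
      rintro ⟨⟨a', ha'⟩, ⟨b', hb'⟩⟩
      have e : (a : K) + b * ω = 2 * (a' + b' * ω) := by rw [ha', hb']; push_cast; ring
      rw [e, map_mul] at hu
      have h1 := mul_lt_one_of_nonneg_of_lt_one_left (b := P.valuation K ((a' : K) + b' * ω))
        zero_le' hlt2 (hle a' b')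
      rw [hu] at h1
      exact lt_irrefl _ h1
    -- the coefficients
    have hexp : ((a : K) + b * ω) ^ 3 - 1 =
        ((a ^ 3 + 3 * a * b ^ 2 * k + b ^ 3 * k - 1 : ℤ) : K) +
        ((3 * a ^ 2 * b + 3 * a * b ^ 2 + b ^ 3 * (1 + k) : ℤ) : K) * ω := by
      push_cast
      linear_combination (3 * a * b ^ 2 : K) * hω2 + (b : K) ^ 3 * hω3
    have hpar : Even (a ^ 3 + 3 * a * b ^ 2 * k + b ^ 3 * k - 1) ∧
        Even (3 * a ^ 2 * b + 3 * a * b ^ 2 + b ^ 3 * (1 + k)) := by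
      rw [hk']
      rcases Int.even_or_odd a with ⟨a', ha'⟩ | ⟨a', ha'⟩ <;>
      rcases Int.even_or_odd b with ⟨b', hb'⟩ | ⟨b', hb'⟩
      · exact absurd ⟨⟨a', ha'⟩, ⟨b', hb'⟩⟩ hnev
      · rw [ha', hb']
        constructor
        · refine ⟨4 * a' ^ 3 + 3 * a' * (2 * b' + 1) ^ 2 * (2 * k' + 1) + (2 * b' + 1) ^ 3 * k' +
            4 * b' ^ 3 + 6 * b' ^ 2 + 3 * b', by ring⟩
        · refine ⟨6 * a' ^ 2 * (2 * b' + 1) + 3 * a' * (2 * b' + 1) ^ 2 +
            (2 * b' + 1) ^ 3 * (k' + 1), by ring⟩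
      · rw [ha', hb']
        constructor
        · refine ⟨4 * a' ^ 3 + 6 * a' ^ 2 + 3 * a' + 6 * (2 * a' + 1) * b' ^ 2 * (2 * k' + 1) +
            4 * b' ^ 3 * (2 * k' + 1), by ring⟩
        · refine ⟨3 * (2 * a' + 1) ^ 2 * b' + 6 * (2 * a' + 1) * b' ^ 2 +
            8 * b' ^ 3 * (k' + 1), by ring⟩
      · rw [ha', hb']
        constructor
        · refine ⟨4 * a' ^ 3 + 6 * a' ^ 2 + 3 * a' +
            (3 * (2 * a' + 1) * (2 * b' + 1) ^ 2 + (2 * b' + 1) ^ 3) * k' +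
            (4 * b' ^ 3 + 12 * b' ^ 2 + 9 * b' + 2 + 3 * a' * (2 * b' + 1) ^ 2), by ring⟩
        · refine ⟨3 * (2 * a' + 1) ^ 2 * b' + 3 * (2 * a' ^ 2 + 2 * a') +
            3 * (2 * a' + 1) * (2 * b' ^ 2 + 2 * b') + 3 * a' + 3 +
            (2 * b' + 1) ^ 3 * (k' + 1), by ring⟩
    obtain ⟨⟨A', hA'⟩, ⟨B', hB'⟩⟩ := hpar
    refine ⟨A', B', ?_⟩
    rw [hexp, hA', hB']
    push_cast
    ring
  obtain ⟨A', B', hA'⟩ := hcube
  have h1 : P.valuation K ((a + b * ω) ^ 3 - 1) < 1 := by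
    rw [hA', map_mul]
    exact mul_lt_one_of_nonneg_of_lt_one_left zero_le' hlt2 (hle A' B')
  have h3 : P.valuation K (((c' ^ 3 - 1 : ℤ)) : K) < 1 :=
    w_even P h2 _ (hc'o.pow.sub_odd odd_one)
  have e : (c' : K) ^ 3 * (s ^ 3 - 1) = ((a + b * ω) ^ 3 - 1) - ((c' ^ 3 - 1 : ℤ) : K) := by
    rw [← hsc]
    push_cast
    ring
  have h4 : P.valuation K ((c' : K) ^ 3 * (s ^ 3 - 1)) < 1 := by
    rw [e]
    exact Valuation.map_sub_lt _ h1 h3
  rwa [map_mul, map_pow, hc1, one_pow, one_mul] at h4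

/-- the congruences modulo four if two is inert -/
theorem QF.final4 (q : QF K D r) (h2 : (2 : 𝓞 K) ∈ P.asIdeal) (hD : D % 8 = 5) (m : ℤ)
    (hmo : Odd m) (p : ℤ) (hp : Odd p) (s : K)
    (h : P.valuation K ((m : K) * s ^ 2 - p) ≤ P.valuation K (2 : K) ^ 3) :
    m ≡ p [ZMOD 4] := by
  obtain ⟨ω, k, hko, h2ω, hω2, hk, hw, hω⟩ := q.omega P h2 hD
  obtain ⟨A, B, c, -, hABc, hs⟩ := q.frac s
  obtain ⟨E, hE⟩ : ∃ E : ℤ, E = m * (A ^ 2 + D * B ^ 2) - p * c ^ 2 := ⟨_, rfl⟩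
  obtain ⟨F, hF⟩ : ∃ F : ℤ, F = 2 * m * A * B := ⟨_, rfl⟩
  have e : ((E - F : ℤ) : K) + ((2 * F : ℤ) : K) * ω = (m * s ^ 2 - p) * c ^ 2 := by
    have h3 : (m * s ^ 2 - p) * (c : K) ^ 2 = m * (s * c) ^ 2 - p * c ^ 2 := by ring
    rw [h3, hs, hE, hF]
    push_cast
    linear_combination (-(m : K) * B ^ 2) * q.sq + (2 * m * A * B : K) * h2ω
  have h3 : P.valuation K (((E - F : ℤ) : K) + ((2 * F : ℤ) : K) * ω) ≤ P.valuation K (2 : K) ^ 3 := by
    rw [e, map_mul, map_pow]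
    exact (mul_le_of_le_one_right' (pow_le_one' (w_int_le P c) 2)).trans h
  obtain ⟨h4, h5⟩ := om_dvd P h2 ω hω 3 _ _ h3
  have h6 : (4 : ℤ) ∣ F := by
    obtain ⟨j, hj⟩ := h5
    exact ⟨j, by linarith⟩
  have h7 : (4 : ℤ) ∣ E := by
    obtain ⟨i, hi⟩ := h4
    obtain ⟨j, hj⟩ := h6
    exact ⟨2 * i + j, by linarith⟩
  rw [hF] at h6
  rw [hE] at h7
  obtain ⟨m', hm'⟩ := hmo
  obtain ⟨p', hp'⟩ := hp
  obtain ⟨j, hj⟩ := h7
  have hAB : Even (A * B) := by
    by_contra hcon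
    rw [Int.not_even_iff_odd] at hcon
    obtain ⟨i, hi⟩ := hcon
    obtain ⟨l, hl⟩ := h6
    have h8 : 2 * m * (A * B) = 4 * l := by rw [← hl]; ring
    rw [hi, hm'] at h8
    ring_nf at h8
    omega
  have key : ∀ a b : ℤ, Odd a → Even b → ∀ e f : ℤ, (e = 1 ∨ e = D) →
      m * (e * a ^ 2 + f * b ^ 2) - p * c ^ 2 = 4 * j → m ≡ p [ZMOD 4] := by
    intro a b ha hb e f he h
    obtain ⟨i, hi⟩ := odd_sq a ha
    obtain ⟨b', hb'⟩ := hb
    obtain ⟨e', he'⟩ : ∃ e', e = 4 * e' + 1 := by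
      rcases he with he | he
      · exact ⟨0, by rw [he]; ring⟩
      · exact ⟨k, by rw [he, hk]⟩
    have hco : Odd c := by
      by_contra hcon
      rw [Int.not_odd_iff_even] at hcon
      obtain ⟨c', hc'⟩ := hcon
      rw [hi, hb', he', hm', hc'] at h
      ring_nf at h
      omega
    obtain ⟨l, hl⟩ := odd_sq c hco
    rw [hi, hb', he', hl] at h
    rw [Int.modEq_iff_dvd]
    exact ⟨2 * m * i + 8 * m * e' * i + m * e' + m * f * b' ^ 2 - 2 * p * l - j, by linear_combination -h⟩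
  rcases Int.even_or_odd A with hA | hA
  · rcases Int.even_or_odd B with hB | hB
    · exfalso
      apply hABc
      refine ⟨hA, hB, ?_⟩
      by_contra hcon
      rw [Int.not_even_iff_odd] at hcon
      obtain ⟨l, hl⟩ := odd_sq c hcon
      obtain ⟨a, ha⟩ := hA
      obtain ⟨b, hb⟩ := hB
      rw [ha, hb, hl, hp'] at hj
      ring_nf at hj
      omega
    · exact key B A hB hA D 1 (Or.inr rfl) (by linear_combination hj)
  · rcases Int.even_or_odd B with hB | hB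
    · exact key A B hA hB 1 D (Or.inl rfl) (by linear_combination hj)
    · exact absurd hAB (Int.not_even_iff_odd.2 (hA.mul hB))

end

end Pool.Agent.Zk43.FQ
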