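import Pool.Agent.Zk43.FQ.Gen

/-!
# Quadratic fields: local computations at a prime above two
-/

set_option autoImplicit false

namespace Pool.Agent.Zk43.FQ

open NumberField IsDedekindDomain Polynomial

section

variable {K : Type} [Field K] [NumberField K] (P : HeightOneSpectrum (𝓞 K))

theorem w_int_le (n : ℤ) : P.valuation K (n : K) ≤ 1 := by
  have := P.valuation_le_one (K := K) (n : 𝓞 K)
  simpa using this

theorem w_two_lt (h2 : (2 : 𝓞 K) ∈ P.asIdeal) : P.valuation K (2 : K) < 1 := by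
  have h := (P.valuation_lt_one_iff_mem (K := K) (2 : 𝓞 K)).2 h2
  have e : algebraMap (𝓞 K) K (2 : 𝓞 K) = 2 := map_ofNat _ 2
  change P.valuation K (algebraMap (𝓞 K) K (2 : 𝓞 K)) < 1 at h
  rw [e] at h
  exact h

theorem w_two_pos : 0 < P.valuation K (2 : K) :=
  zero_lt_iff.2 ((Valuation.ne_zero_iff _).2 two_ne_zero)

theorem w_odd (h2 : (2 : 𝓞 K) ∈ P.asIdeal) (n : ℤ) (hn : Odd n) : P.valuation K (n : K) = 1 := by
  apply le_antisymm (w_int_le P n)
  by_contra hcon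
  push Not at hcon
  obtain ⟨k, hk⟩ := hn
  have h1 : (1 : K) = n + 2 * ((-k : ℤ) : K) := by rw [hk]; push_cast; ring
  have h3 : P.valuation K (2 * ((-k : ℤ) : K)) < 1 := by
    rw [map_mul]
    exact mul_lt_one_of_nonneg_of_lt_one_left zero_le' (w_two_lt P h2) (w_int_le P _)
  have h4 := Valuation.map_add_lt (P.valuation K) hcon h3
  rw [← h1, map_one] at h4
  exact lt_irrefl _ h4

theorem w_even (h2 : (2 : 𝓞 K) ∈ P.asIdeal) (n : ℤ) (hn : Even n) :
    P.valuation K (n : K) < 1 := by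
  obtain ⟨k, hk⟩ := hn
  have h1 : (n : K) = 2 * (k : K) := by rw [hk]; push_cast; ring
  rw [h1, map_mul]
  exact mul_lt_one_of_nonneg_of_lt_one_left zero_le' (w_two_lt P h2) (w_int_le P _)

theorem w_int (h2 : (2 : 𝓞 K) ∈ P.asIdeal) (n : ℤ) (hn : n ≠ 0) :
    ∃ (k : ℕ) (m : ℤ), Odd m ∧ n = 2 ^ k * m ∧
      P.valuation K (n : K) = P.valuation K (2 : K) ^ k := by
  obtain ⟨k, m, hm, hk⟩ := Nat.exists_eq_two_pow_mul_odd (n := n.natAbs) (Int.natAbs_ne_zero.2 hn)
  have key : ∀ m' : ℤ, Odd m' → n = 2 ^ k * m' → ∃ (k : ℕ) (m : ℤ), Odd m ∧ n = 2 ^ k * m ∧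
      P.valuation K (n : K) = P.valuation K (2 : K) ^ k := by
    intro m' hm' h
    refine ⟨k, m', hm', h, ?_⟩
    have h1 : (n : K) = 2 ^ k * (m' : K) := by rw [h]; push_cast; ring
    rw [h1, map_mul, map_pow, w_odd P h2 m' hm', mul_one]
  rcases Int.natAbs_eq n with h | h
  · exact key m (by exact_mod_cast hm) (by rw [h, hk]; push_cast; ring)
  · exact key (-m) (by
      have : Odd (m : ℤ) := by exact_mod_cast hm
      exact this.neg) (by rw [h, hk]; push_cast; ring)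

theorem dvd_of_w_le (h2 : (2 : 𝓞 K) ∈ P.asIdeal) (n : ℤ) (j : ℕ)
    (h : P.valuation K (n : K) ≤ P.valuation K (2 : K) ^ j) : (2 ^ j : ℤ) ∣ n := by
  by_cases hn : n = 0
  · rw [hn]; exact dvd_zero _
  · obtain ⟨k, m, -, hkm, hw⟩ := w_int P h2 n hn
    rw [hw, pow_le_pow_iff_right_of_lt_one₀ (w_two_pos P) (w_two_lt P h2)] at h
    rw [hkm]
    exact (pow_dvd_pow 2 h).mul_right _

theorem w_rat (h2 : (2 : 𝓞 K) ∈ P.asIdeal) (x : ℚ) (hx : x ≠ 0) :
    ∃ k : ℤ, P.valuation K (x : K) = P.valuation K (2 : K) ^ k := by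
  obtain ⟨a, -, -, -, ha⟩ := w_int P h2 x.num (Rat.num_ne_zero.2 hx)
  obtain ⟨b, -, -, -, hb⟩ := w_int P h2 (x.den : ℤ) (by exact_mod_cast x.den_nz)
  refine ⟨(a : ℤ) - b, ?_⟩
  have h1 : (x : K) = ((x.num : ℤ) : K) / (((x.den : ℤ) : ℤ) : K) := by
    rw [Rat.cast_def]
    simp
  rw [h1, map_div₀, ha, hb, zpow_sub₀ (w_two_pos P).ne', zpow_natCast, zpow_natCast]

theorem w_rat_one (h2 : (2 : 𝓞 K) ∈ P.asIdeal) (x : ℚ) (hx : P.valuation K (x : K) = 1) :
    P.valuation K ((x : K) - 1) < 1 := by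
  have hdK : ((x.den : ℤ) : K) ≠ 0 := by exact_mod_cast x.den_nz
  have h1 : (x : K) = ((x.num : ℤ) : K) / (((x.den : ℤ) : ℤ) : K) := by
    rw [Rat.cast_def]
    simp
  have h3 : P.valuation K ((x.num : ℤ) : K) = P.valuation K ((x.den : ℤ) : K) := by
    rw [h1, map_div₀, div_eq_one_iff_eq ((Valuation.ne_zero_iff _).2 hdK)] at hx
    exact hx
  have hodd : Odd (x.den : ℤ) := by
    by_contra hcon
    rw [Int.not_odd_iff_even] at hcon
    have h4 := w_even P h2 _ hcon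
    rw [← h3] at h4
    have h5 : Even x.num := by
      by_contra hcon'
      rw [Int.not_even_iff_odd] at hcon'
      rw [w_odd P h2 _ hcon'] at h4
      exact lt_irrefl _ h4
    have h6 := x.reduced
    have h7 : 2 ∣ x.num.natAbs := Int.natAbs_dvd_natAbs.2 h5.two_dvd
    have h8 : 2 ∣ x.den := by exact_mod_cast hcon.two_dvd
    have h9 := Nat.dvd_gcd h7 h8
    rw [h6.gcd_eq_one] at h9
    norm_num at h9
  have hnum : Odd x.num := by
    by_contra hcon
    rw [Int.not_odd_iff_even] at hcon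
    have h4 := w_even P h2 _ hcon
    rw [h3, w_odd P h2 _ hodd] at h4
    exact lt_irrefl _ h4
  have h4 : (x : K) - 1 = ((x.num - x.den : ℤ) : K) / ((x.den : ℤ) : K) := by
    rw [eq_div_iff hdK, h1]
    push_cast
    field_simp
  rw [h4, map_div₀, w_odd P h2 _ hodd, div_one]
  exact w_even P h2 _ (hnum.sub_odd hodd)

/-- two is not divisible by the cube of a prime -/
theorem w_two_ge (hK : Module.finrank ℚ K = 2) :
    WithZero.exp (-2 : ℤ) ≤ P.valuation K (2 : K) := by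
  by_contra hcon
  push Not at hcon
  obtain ⟨k, hk⟩ := val_exists P (2 : K) two_ne_zero
  rw [hk, WithZero.exp_lt_exp] at hcon
  have h1 : P.intValuation (2 : 𝓞 K) ≤ WithZero.exp (-((3 : ℕ) : ℤ)) := by
    have e : algebraMap (𝓞 K) K (2 : 𝓞 K) = 2 := map_ofNat _ 2
    rw [← P.valuation_of_algebraMap (K := K)]
    change P.valuation K (algebraMap (𝓞 K) K (2 : 𝓞 K)) ≤ _
    rw [e, hk, WithZero.exp_le_exp]
    push_cast
    omega
  rw [P.intValuation_le_pow_iff_mem] at h1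
  have h2 : P.asIdeal ^ 3 ∣ Ideal.span {(2 : 𝓞 K)} := by
    rw [Ideal.dvd_span_singleton]
    exact h1
  have h3 := Ideal.absNorm_dvd_absNorm_of_le (Ideal.dvd_iff_le.1 h2)
  have h4 : Ideal.absNorm (Ideal.span {(2 : 𝓞 K)}) = 4 := by
    have h5 : Ideal.absNorm (Ideal.span {((2 : ℕ) : 𝓞 K)}) = 2 ^ 2 := by
      rw [Ideal.absNorm_span_natCast, RingOfIntegers.rank, hK]
    simpa using h5
  rw [h4, map_pow] at h3
  have h6 : Ideal.absNorm P.asIdeal ≠ 1 := fun h =>
    P.isPrime.ne_top (Ideal.absNorm_eq_one_iff.1 h)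
  have h7 : Ideal.absNorm P.asIdeal ≠ 0 := by
    intro h
    exact P.ne_bot (Ideal.absNorm_eq_zero_iff.1 h)
  have h8 : 2 ≤ Ideal.absNorm P.asIdeal := by omega
  have h9 := Nat.le_of_dvd (by norm_num) h3
  have h10 : 2 ^ 3 ≤ Ideal.absNorm P.asIdeal ^ 3 := Nat.pow_le_pow_left h8 3
  omega

end

section

variable {K : Type} [Field K] [NumberField K] {D : ℤ} {r : K} (P : HeightOneSpectrum (𝓞 K))

/-- square roots modulo powers of two -/
theorem sqrt_mod (D : ℤ) (hD : D % 8 = 1) (N : ℕ) : ∃ ρ : ℤ, Odd ρ ∧ (2 ^ (N + 3) : ℤ) ∣ ρ ^ 2 - D := by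
  induction N with
  | zero =>
    refine ⟨1, odd_one, ?_⟩
    norm_num
    omega
  | succ N ih =>
    obtain ⟨ρ, hρ, t, ht⟩ := ih
    rcases Int.even_or_odd t with he | ho
    · obtain ⟨u, hu⟩ := he
      refine ⟨ρ, hρ, u, ?_⟩
      rw [ht, hu]
      ring
    · obtain ⟨u, hu⟩ := ho
      obtain ⟨v, hv⟩ := hρ
      refine ⟨ρ + 2 ^ (N + 2), ?_, u + v + 1 + 2 ^ N, ?_⟩
      · refine Odd.add_even ⟨v, hv⟩ ?_
        rw [pow_succ]
        exact even_two.mul_left _
      · have h1 : (ρ + 2 ^ (N + 2)) ^ 2 - D = (ρ ^ 2 - D) + 2 ^ (N + 3) * ρ + 2 ^ (N + 2 + (N + 2)) := by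
          rw [pow_add (2 : ℤ) (N + 2) (N + 2)]
          ring
        rw [h1, ht, hu, hv]
        ring

theorem QF.approx (q : QF K D r) (h2 : (2 : 𝓞 K) ∈ P.asIdeal) (hD : D % 8 = 1) (N : ℕ) :
    ∃ ρ : ℤ, P.valuation K (r - ρ) ≤ P.valuation K (2 : K) ^ N := by
  obtain ⟨ρ, hρ, t, ht⟩ := sqrt_mod D hD N
  have h1 : (r - ρ) * (r + ρ) = 2 ^ (N + 3) * ((-t : ℤ) : K) := by
    have h3 : ((ρ ^ 2 - D : ℤ) : K) = ((2 ^ (N + 3) * t : ℤ) : K) := by rw [ht]
    push_cast at h3 ⊢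
    linear_combination q.sq - h3
  have h3 : P.valuation K (r - ρ) * P.valuation K (r + ρ) ≤ P.valuation K (2 : K) ^ (N + 3) := by
    rw [← map_mul, h1, map_mul, map_pow]
    exact mul_le_of_le_one_right' (w_int_le P _)
  have h20 := w_two_pos P
  have h21 := w_two_lt P h2
  by_contra hcon
  push Not at hcon
  have h4 := hcon ρ
  have h5 := hcon (-ρ)
  have e1 : r - ((-ρ : ℤ) : K) = r + ρ := by push_cast; ring
  rw [e1] at h5
  -- the difference has the valuation of two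
  have h6 : P.valuation K (2 : K) ≤ max (P.valuation K (r - ρ)) (P.valuation K (r + ρ)) := by
    have e2 : (2 : K) * (ρ : K) = (r + ρ) - (r - ρ) := by ring
    have e3 : P.valuation K (2 : K) = P.valuation K ((r + ρ) - (r - ρ)) := by
      rw [← e2, map_mul, w_odd P h2 ρ hρ, mul_one]
    rw [e3, max_comm]
    exact Valuation.map_sub _ _ _
  have hlt : P.valuation K (2 : K) ^ (N + 3) < P.valuation K (2 : K) ^ N * P.valuation K (2 : K) := by
    rw [← pow_succ]
    exact pow_lt_pow_right_of_lt_one₀ h20 h21 (by omega)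
  have hpow0 : 0 < P.valuation K (2 : K) ^ N := pow_pos h20 N
  rcases le_max_iff.1 h6 with h | h
  · have h7 : P.valuation K (2 : K) ^ N * P.valuation K (2 : K) ≤
        P.valuation K (r - ρ) * P.valuation K (r + ρ) := by
      rw [mul_comm]
      exact mul_le_mul' h h5.le
    exact absurd (h7.trans h3) (not_le.2 hlt)
  · have h7 : P.valuation K (2 : K) ^ N * P.valuation K (2 : K) ≤
        P.valuation K (r - ρ) * P.valuation K (r + ρ) := mul_le_mul' h4.le h
    exact absurd (h7.trans h3) (not_le.2 hlt)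

theorem QF.w_r_le (q : QF K D r) : P.valuation K r ≤ 1 := by
  have h1 : P.valuation K r ^ 2 ≤ 1 := by
    rw [← map_pow, q.sq]
    exact w_int_le P D
  exact (pow_le_one_iff_of_nonneg zero_le' two_ne_zero).1 h1

/-- a square root of two, up to units -/
theorem QF.unif (q : QF K D r) (h2 : (2 : 𝓞 K) ∈ P.asIdeal) (hD : D % 4 ≠ 1) :
    (D % 4 = 2 ∧ P.valuation K r ^ 2 = P.valuation K (2 : K)) ∨
      (D % 4 = 3 ∧ P.valuation K (1 + r) ^ 2 = P.valuation K (2 : K)) := by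
  have h0 : D % 4 ≠ 0 := by
    intro h
    have h1 : (2 : ℤ) * 2 ∣ D := by
      rw [show (2 : ℤ) * 2 = 4 by norm_num]
      exact Int.dvd_of_emod_eq_zero h
    have h3 := Int.isUnit_iff.1 (q.sf 2 h1)
    omega
  have h1 : D % 4 = 2 ∨ D % 4 = 3 := by omega
  rcases h1 with h1 | h1
  · left
    refine ⟨h1, ?_⟩
    obtain ⟨k, hk⟩ : ∃ k : ℤ, D = 2 * (2 * k + 1) := ⟨D / 4, by omega⟩
    have h3 : ((D : ℤ) : K) = 2 * ((2 * k + 1 : ℤ) : K) := by rw [hk]; push_cast; ring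
    rw [← map_pow, q.sq, h3, map_mul, w_odd P h2 (2 * k + 1) ⟨k, rfl⟩, mul_one]
  · right
    refine ⟨h1, ?_⟩
    obtain ⟨k, hk⟩ : ∃ k : ℤ, D = 4 * k + 3 := ⟨D / 4, by omega⟩
    have hr := q.sq
    rw [hk] at hr
    push_cast at hr
    have e1 : (1 + r) ^ 2 = 2 * ((2 * (k + 1) : ℤ) + r) := by
      push_cast
      linear_combination hr
    have e2 : (((2 * (k + 1) : ℤ) : K) + r) * (((2 * (k + 1) : ℤ) : K) - r) =
        ((4 * (k + 1) ^ 2 - (4 * k + 3) : ℤ) : K) := by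
      push_cast
      linear_combination -hr
    have h3 : P.valuation K ((((2 * (k + 1) : ℤ) : K) + r)) ≤ 1 :=
      (Valuation.map_add _ _ _).trans (max_le (w_int_le P _) (q.w_r_le P))
    have h4 : P.valuation K ((((2 * (k + 1) : ℤ) : K) - r)) ≤ 1 :=
      (Valuation.map_sub _ _ _).trans (max_le (w_int_le P _) (q.w_r_le P))
    have h5 : P.valuation K ((((2 * (k + 1) : ℤ) : K) + r)) *
        P.valuation K ((((2 * (k + 1) : ℤ) : K) - r)) = 1 := by
      rw [← map_mul, e2]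
      exact w_odd P h2 _ ⟨2 * (k + 1) ^ 2 - 2 * k - 2, by ring⟩
    have h6 : P.valuation K ((((2 * (k + 1) : ℤ) : K) + r)) = 1 := by
      apply le_antisymm h3
      by_contra hcon
      push Not at hcon
      have h7 := mul_lt_one_of_nonneg_of_lt_one_left zero_le' hcon h4
      rw [h5] at h7
      exact lt_irrefl _ h7
    rw [← map_pow, e1, map_mul, h6, mul_one]

theorem odd_zpow_ne (h2 : (2 : 𝓞 K) ∈ P.asIdeal) (a b : ℤ) (h : P.valuation K (2 : K) ^ a = P.valuation K (2 : K) ^ b) :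
    a = b :=
  zpow_right_injective₀ (w_two_pos P) (w_two_lt P h2).ne h

/-- sums with a square root of two -/
theorem w_add_unif (h2 : (2 : 𝓞 K) ∈ P.asIdeal) (π : K)
    (hπ : P.valuation K π ^ 2 = P.valuation K (2 : K)) (x y : ℚ) :
    P.valuation K ((x : K) + y * π) = max (P.valuation K (x : K)) (P.valuation K ((y : K) * π)) := by
  by_cases hx : x = 0
  · rw [hx]
    simp
  by_cases hy : y = 0
  · rw [hy]
    simp
  apply Valuation.map_add_of_distinct_val
  intro heq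
  obtain ⟨k, hk⟩ := w_rat P h2 x hx
  obtain ⟨l, hl⟩ := w_rat P h2 y hy
  have h1 := congrArg (· ^ 2) heq
  simp only [map_mul, mul_pow] at h1
  rw [hπ, hk, hl] at h1
  have h3 : P.valuation K (2 : K) ^ (2 * k) = P.valuation K (2 : K) ^ (2 * l + 1) := by
    rw [zpow_add₀ (w_two_pos P).ne', zpow_one, mul_comm 2 k, mul_comm 2 l, zpow_mul, zpow_mul]
    exact_mod_cast h1
  have h4 := odd_zpow_ne P h2 _ _ h3
  omega

theorem w_unif_lt (h2 : (2 : 𝓞 K) ∈ P.asIdeal) (π : K)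
    (hπ : P.valuation K π ^ 2 = P.valuation K (2 : K)) : P.valuation K π < 1 := by
  have h1 : P.valuation K π ^ 2 < 1 := by rw [hπ]; exact w_two_lt P h2
  exact (pow_lt_one_iff_of_nonneg zero_le' two_ne_zero).1 h1

theorem dvd_pair_unif (h2 : (2 : 𝓞 K) ∈ P.asIdeal) (π : K)
    (hπ : P.valuation K π ^ 2 = P.valuation K (2 : K)) (A B : ℤ)
    (h : P.valuation K ((A : K) + B * π) ≤ P.valuation K (2 : K) ^ 3) : (8 : ℤ) ∣ A ∧ (8 : ℤ) ∣ B := by
  have h1 := w_add_unif P h2 π hπ A B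
  simp only [Rat.cast_intCast] at h1
  rw [h1, max_le_iff] at h
  obtain ⟨hA, hB⟩ := h
  refine ⟨by simpa using dvd_of_w_le P h2 A 3 hA, ?_⟩
  by_cases hB0 : B = 0
  · rw [hB0]; exact dvd_zero _
  obtain ⟨k, m, -, hkm, hw⟩ := w_int P h2 B hB0
  have h3 : P.valuation K (2 : K) ^ (2 * k + 1) ≤ P.valuation K (2 : K) ^ 6 := by
    have h4 := pow_le_pow_left' hB 2
    rw [map_mul, mul_pow, hπ, hw, ← pow_mul, ← pow_succ, ← pow_mul] at h4
    rw [mul_comm 2 k]
    exact h4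
  rw [pow_le_pow_iff_right_of_lt_one₀ (w_two_pos P) (w_two_lt P h2)] at h3
  have h5 : 3 ≤ k := by omega
  rw [hkm]
  have h6 : (2 ^ 3 : ℤ) ∣ 2 ^ k := pow_dvd_pow 2 h5
  exact (by simpa using h6 : (8 : ℤ) ∣ 2 ^ k).mul_right _

/-- the ring of integers of a ramified field modulo eight -/
theorem QF.dvd_pair (q : QF K D r) (h2 : (2 : 𝓞 K) ∈ P.asIdeal) (hD : D % 4 ≠ 1) (A B : ℤ)
    (h : P.valuation K ((A : K) + B * r) ≤ P.valuation K (2 : K) ^ 3) : (8 : ℤ) ∣ A ∧ (8 : ℤ) ∣ B := by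
  rcases q.unif P h2 hD with ⟨-, h1⟩ | ⟨-, h1⟩
  · exact dvd_pair_unif P h2 r h1 A B h
  · have e : (A : K) + B * r = ((A - B : ℤ) : K) + B * (1 + r) := by push_cast; ring
    rw [e] at h
    obtain ⟨h3, h4⟩ := dvd_pair_unif P h2 (1 + r) h1 (A - B) B h
    refine ⟨?_, h4⟩
    have := dvd_add h3 h4
    rwa [sub_add_cancel] at this

/-- the residue field has two elements -/
theorem QF.res (q : QF K D r) (h2 : (2 : 𝓞 K) ∈ P.asIdeal) (hD : D % 8 ≠ 5) (s : K)
    (hs : P.valuation K s = 1) : P.valuation K (s - 1) < 1 := by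
  have key : ∃ x : ℚ, P.valuation K (s - x) < 1 := by
    by_cases hD4 : D % 4 = 1
    · have hD8 : D % 8 = 1 := by omega
      obtain ⟨hco, -, -⟩ := q.coords
      obtain ⟨x, y, rfl⟩ := hco s
      by_cases hy : y = 0
      · refine ⟨x, ?_⟩
        rw [hy]
        simp
      obtain ⟨k, hk⟩ := w_rat P h2 y hy
      obtain ⟨ρ, hρ⟩ := q.approx P h2 hD8 (k.natAbs + 1)
      refine ⟨x + y * ρ, ?_⟩
      have e : (x : K) + y * r - ((x + y * ρ : ℚ) : K) = y * (r - ρ) := by push_cast; ring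
      rw [e, map_mul, hk]
      refine lt_of_le_of_lt (mul_le_mul_right hρ _) ?_
      rw [← zpow_natCast, ← zpow_add₀ (w_two_pos P).ne']
      have h3 : P.valuation K (2 : K) ^ (k + ((k.natAbs + 1 : ℕ) : ℤ)) < P.valuation K (2 : K) ^ (0 : ℤ) := by
        apply zpow_lt_zpow_right_of_lt_one₀ (w_two_pos P) (w_two_lt P h2)
        omega
      rwa [zpow_zero] at h3
    · obtain ⟨hco, -, -⟩ := q.coords
      obtain ⟨x, y, hxy⟩ := hco s
      have hgen : ∀ π : K, P.valuation K π ^ 2 = P.valuation K (2 : K) → ∀ x y : ℚ,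
          s = (x : K) + y * π → ∃ x : ℚ, P.valuation K (s - x) < 1 := by
        intro π hπ x y hxy
        refine ⟨x, ?_⟩
        rw [hxy, add_sub_cancel_left]
        by_cases hy : y = 0
        · rw [hy]
          simp
        have h1 := w_add_unif P h2 π hπ x y
        rw [← hxy, hs] at h1
        refine lt_of_le_of_ne (h1 ▸ le_max_right _ _) fun heq => ?_
        obtain ⟨l, hl⟩ := w_rat P h2 y hy
        have h3 := congrArg (· ^ 2) heq
        simp only [map_mul, mul_pow, one_pow] at h3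
        rw [hπ, hl] at h3
        have h4 : P.valuation K (2 : K) ^ (2 * l + 1) = P.valuation K (2 : K) ^ (0 : ℤ) := by
          rw [zpow_add₀ (w_two_pos P).ne', zpow_one, mul_comm 2 l, zpow_mul, zpow_zero]
          exact_mod_cast h3
        have h5 := odd_zpow_ne P h2 _ _ h4
        omega
      rcases q.unif P h2 hD4 with ⟨-, h1⟩ | ⟨-, h1⟩
      · exact hgen r h1 x y hxy
      · exact hgen (1 + r) h1 (x - y) y (by rw [hxy]; push_cast; ring)
  obtain ⟨x, hx⟩ := key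
  have h1 : P.valuation K (x : K) = 1 := by
    have e : (x : K) = s - (s - x) := by ring
    rw [e, Valuation.map_sub_eq_of_lt_left _ (by rw [hs]; exact hx), hs]
  have h3 := w_rat_one P h2 x h1
  have e : s - 1 = (s - x) + (x - 1) := by ring
  rw [e]
  exact Valuation.map_add_lt _ hx h3

end

end Pool.Agent.Zk43.FQ
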