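import Pool.Agent.Zk43.FQ.Inert

/-!
# Terjanian's theorem over quadratic fields: the main statement for exponents `2 p`
-/

set_option autoImplicit false

namespace Pool.Agent.Zk43.FQ

open NumberField IsDedekindDomain Polynomial Finset

section

variable {K : Type} [Field K] [NumberField K] {D : ℤ} {r : K}

/-- the condition on `p` -/
def Cond (D : ℤ) (p : ℕ) : Prop :=
  ∀ m : ℤ, m ∣ D → (0 < D → 0 < m) → ¬ m ≡ p [ZMOD (if D % 8 = 5 then 4 else 8)]

theorem one_of_pow (P : HeightOneSpectrum (𝓞 K)) (p : ℕ) (hp : p.Prime) (h5 : 5 ≤ p) (s : K)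
    (hs : P.valuation K s = 1) (h3 : P.valuation K (s ^ 3 - 1) < 1)
    (hpow : P.valuation K (s ^ p - 1) < 1) : P.valuation K (s - 1) < 1 := by
  have hpm : p % 3 = 1 ∨ p % 3 = 2 := by
    have : p % 3 ≠ 0 := by
      intro h
      have := (Nat.prime_dvd_prime_iff_eq Nat.prime_three hp).1 (Nat.dvd_of_mod_eq_zero h)
      omega
    omega
  have hcube : ∀ j : ℕ, P.valuation K (s ^ (3 * j) - 1) < 1 := by
    intro j
    have e : s ^ (3 * j) - 1 = (∑ i ∈ range j, (s ^ 3) ^ i) * (s ^ 3 - 1) := by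
      rw [geom_sum_mul, pow_mul]
    rw [e, map_mul]
    refine mul_lt_one_of_nonneg_of_lt_one_right (Valuation.map_sum_le _ fun i _ => ?_) zero_le' h3
    rw [map_pow, map_pow, hs, one_pow, one_pow]
  rcases hpm with h | h
  · have e : s - 1 = (s ^ p - 1) - s * (s ^ (3 * (p / 3)) - 1) := by
      have e1 : s ^ p = s * s ^ (3 * (p / 3)) := by
        rw [← pow_succ']
        congr 1
        omega
      rw [e1]
      ring
    rw [e]
    refine Valuation.map_sub_lt _ hpow ?_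
    rw [map_mul, hs, one_mul]
    exact hcube _
  · have e : s - 1 = (s ^ (3 * (p / 3 + 1)) - 1) - s * (s ^ p - 1) := by
      have e1 : s * s ^ p = s ^ (3 * (p / 3 + 1)) := by
        rw [← pow_succ']
        congr 1
        omega
      linear_combination e1
    rw [e]
    refine Valuation.map_sub_lt _ (hcube _) ?_
    rw [map_mul, hs, one_mul]
    exact hpow

/-- the main argument for a variable which is divisible by the prime above two -/
theorem QF.core' (q : QF K D r) (p : ℕ) (hp : p.Prime) (h5 : 5 ≤ p) (hd : Cond D p)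
    (P : HeightOneSpectrum (𝓞 K)) (h2 : (2 : 𝓞 K) ∈ P.asIdeal)
    (ρ γ : K) (hγ0 : γ ≠ 0) (h : ρ ^ p = 1 + γ ^ p) (hρ : Ev ρ) (hγ : Ev γ)
    (hP : P.valuation K γ < 1) :
    ∃ v : HeightOneSpectrum (𝓞 K), ((p : ℕ) : 𝓞 K) ∈ v.asIdeal ∧ v.valuation K γ < 1 := by
  have hp2 : p ≠ 2 := by omega
  by_cases hD : D % 8 = 5
  · by_contra hcon
    push Not at hcon
    have hodd := hp.odd_of_ne_two hp2
    obtain ⟨hG0, hGE⟩ := even_G p hp hp2 ρ γ hγ0 h hρ hγ hcon
    have hposr : 0 < D → ∀ φ : K →+* ℂ, ∃ x : ℝ, 0 < x ∧ φ (∑ i ∈ range p, ρ ^ i) = x := by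
      intro hDpos φ
      obtain ⟨x, hx⟩ := q.real hDpos φ ρ
      refine ⟨∑ i ∈ range p, x ^ i, hodd.geom_sum_pos, ?_⟩
      rw [map_sum]
      push_cast
      refine sum_congr rfl fun i _ => ?_
      rw [map_pow, hx]
    obtain ⟨m, s, hmsf, hs0, hms, hmpos, hml, hm2⟩ := q.gen _ hG0 hGE hposr
    have hw2 := w_two_pos P
    have hγp : P.valuation K (ρ ^ p - 1) < 1 := by
      rw [h, add_sub_cancel_left, map_pow]
      exact pow_lt_one₀ zero_le' hP hp.ne_zero
    have hρ1 : P.valuation K ρ = 1 := by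
      have h3 : P.valuation K (ρ ^ p) = 1 := by
        have e : ρ ^ p = 1 + (ρ ^ p - 1) := by ring
        rw [e, Valuation.map_add_eq_of_lt_left, map_one]
        rw [map_one]
        exact hγp
      rw [map_pow] at h3
      exact (pow_eq_one_iff_of_nonneg zero_le' hp.ne_zero).1 h3
    have hρ2 := one_of_pow P p hp h5 ρ hρ1 (q.cube P h2 hD ρ hρ1) hγp
    have hp1 : P.valuation K (p : K) = 1 := by
      have := w_odd P h2 (p : ℤ) (by exact_mod_cast hodd)
      simpa using this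
    have hGsub := geom_sub_le P p ρ hρ1.le
    have hG1 : P.valuation K (∑ i ∈ range p, ρ ^ i) = 1 := by
      have e : (∑ i ∈ range p, ρ ^ i) = p + ((∑ i ∈ range p, ρ ^ i) - p) := by ring
      rw [e, Valuation.map_add_eq_of_lt_left, hp1]
      rw [hp1]
      exact hGsub.trans_lt hρ2
    have hρ3 : P.valuation K (ρ - 1) = P.valuation K γ ^ p := by
      have hG : (∑ i ∈ range p, ρ ^ i) * (ρ - 1) = γ ^ p := by
        rw [geom_sum_mul, h]
        ring
      rw [← map_pow, ← hG, map_mul, hG1, one_mul]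
    have hγ6 : P.valuation K γ ^ p ≤ P.valuation K (2 : K) ^ 3 := by
      have h3 := q.lt_two P h2 hD γ hP
      refine (pow_le_pow_of_le_one zero_le' (h3.trans (w_two_lt P h2).le) (by omega : 3 ≤ p)).trans ?_
      exact pow_le_pow_left' h3 3
    have hfin : P.valuation K ((m : K) * s ^ 2 - ((p : ℤ) : K)) ≤ P.valuation K (2 : K) ^ 3 := by
      rw [← hms, Int.cast_natCast]
      exact hGsub.trans (hρ3.le.trans hγ6)
    have hm2' := hm2 (by omega)
    have hmo : Odd m := by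
      rw [← Int.not_even_iff_odd, even_iff_two_dvd]
      exact hm2'
    have h4 := q.final4 P h2 hD m hmo (p : ℤ) (by exact_mod_cast hodd) s hfin
    have hmD : m ∣ D := by
      refine dvd_of_sf m D hmsf fun l hl hlm => ?_
      rcases hml l hl hlm with h | h
      · exact h
      · exfalso
        rw [h] at hlm
        exact hm2' (by exact_mod_cast hlm)
    have h6 := hd m hmD hmpos
    rw [if_pos hD] at h6
    exact h6 h4
  · refine q.core hD p hp hp2 (fun m hm hpos h8 => ?_) P h2 ρ γ hγ0 h hρ hγ hP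
    have h6 := hd m hm hpos
    rw [if_neg hD] at h6
    exact h6 h8

/-- two is inert: the equation `z ^ 2 - m d ^ 2 = ε` -/
theorem QF.no_conic (q : QF K D r) (hD : D % 8 = 5) (P : HeightOneSpectrum (𝓞 K))
    (h2 : (2 : 𝓞 K) ∈ P.asIdeal) (ε : ℤ) (hε : ε = 1 ∨ ε = -1) (k : ℤ) (z d : K)
    (hz : P.valuation K z = 1) (hd : P.valuation K d = 1)
    (h : z ^ 2 - ((4 * k + 1 : ℤ) : K) * d ^ 2 = ε) : False := by
  obtain ⟨i, hi⟩ : ∃ i : ℤ, ε = 1 - 2 * i ∧ (i = 0 ∨ i = 1) := by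
    rcases hε with h | h
    · exact ⟨0, by rw [h]; norm_num, Or.inl rfl⟩
    · exact ⟨1, by rw [h]; norm_num, Or.inr rfl⟩
  obtain ⟨hi, hi01⟩ := hi
  have hlt2 := w_two_lt P h2
  have h20 : (2 : K) ≠ 0 := two_ne_zero
  obtain ⟨f, hf⟩ : ∃ f : K, f = z - d - 1 := ⟨_, rfl⟩
  have hzf : z = 1 + f + d := by rw [hf]; ring
  have hle : P.valuation K (z - d) ≤ 1 :=
    (Valuation.map_sub _ _ _).trans (max_le hz.le hd.le)
  -- `f ^ 2` is small
  have e1 : f ^ 2 = 2 * ((2 * k : ℤ) * d ^ 2 - d * (z - d) - (i : K) + 1 - (z - d)) := by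
    rw [hi] at h
    push_cast at h
    rw [hf]
    push_cast
    linear_combination h
  have hf2 : P.valuation K (f ^ 2) < 1 := by
    rw [e1, map_mul]
    refine mul_lt_one_of_nonneg_of_lt_one_left zero_le' hlt2 ?_
    have t1 : P.valuation K ((2 * k : ℤ) * d ^ 2) ≤ 1 := by
      rw [map_mul, map_pow, hd, one_pow, mul_one]
      exact w_int_le P _
    have t2 : P.valuation K (d * (z - d)) ≤ 1 := by
      rw [map_mul, hd, one_mul]
      exact hle
    have t3 : P.valuation K (i : K) ≤ 1 := w_int_le P i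
    refine (Valuation.map_sub _ _ _).trans (max_le ?_ hle)
    refine (Valuation.map_add _ _ _).trans (max_le ?_ (by rw [map_one]))
    refine (Valuation.map_sub _ _ _).trans (max_le ?_ t3)
    exact (Valuation.map_sub _ _ _).trans (max_le t1 t2)
  have hf1 : P.valuation K f < 1 := by
    rw [map_pow] at hf2
    exact (pow_lt_one_iff_of_nonneg zero_le' two_ne_zero).1 hf2
  have hf3 := q.lt_two P h2 hD f hf1
  -- the half of `f ^ 2`
  obtain ⟨g, hg⟩ : ∃ g : K, f = 2 * g := ⟨f / 2, by field_simp⟩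
  have hg1 : P.valuation K g ≤ 1 := by
    rw [hg, map_mul] at hf3
    have h3 : P.valuation K (2 : K) * P.valuation K g ≤ P.valuation K (2 : K) * 1 := by rwa [mul_one]
    exact (mul_le_mul_iff_right₀ (w_two_pos P)).1 h3
  -- the congruence for `d`
  have e2 : (i : K) + d = 2 * (k * d ^ 2 - g - g ^ 2 - g * d) := by
    rw [hi] at h
    push_cast at h
    rw [hzf, hg] at h
    apply mul_left_cancel₀ h20
    linear_combination h
  have h4 : P.valuation K ((i : K) + d) < 1 := by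
    rw [e2, map_mul]
    refine mul_lt_one_of_nonneg_of_lt_one_left zero_le' hlt2 ?_
    have t1 : P.valuation K (k * d ^ 2) ≤ 1 := by
      rw [map_mul, map_pow, hd, one_pow, mul_one]
      exact w_int_le P _
    have t2 : P.valuation K (g ^ 2) ≤ 1 := by
      rw [map_pow]
      exact pow_le_one' hg1 2
    have t3 : P.valuation K (g * d) ≤ 1 := by
      rw [map_mul, hd, mul_one]
      exact hg1
    refine (Valuation.map_sub _ _ _).trans (max_le ?_ t3)
    refine (Valuation.map_sub _ _ _).trans (max_le ?_ t2)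
    exact (Valuation.map_sub _ _ _).trans (max_le t1 hg1)
  rcases hi01 with h0 | h0
  · rw [h0, Int.cast_zero, zero_add, hd] at h4
    exact lt_irrefl _ h4
  · rw [h0, Int.cast_one] at h4
    have h6 : P.valuation K (f + (1 + d)) < 1 := Valuation.map_add_lt _ hf1 h4
    have e3 : f + (1 + d) = z := by rw [hzf]; ring
    rw [e3, hz] at h6
    exact lt_irrefl _ h6

/-- two is inert and no variable is divisible by two -/
theorem QF.core2 (q : QF K D r) (hD : D % 8 = 5) (p : ℕ) (hp : p.Prime) (h5 : 5 ≤ p)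
    (hd : Cond D p) (P : HeightOneSpectrum (𝓞 K)) (h2 : (2 : 𝓞 K) ∈ P.asIdeal) (ε : ℤ)
    (hε : ε = 1 ∨ ε = -1) (z x : K) (hz0 : z ≠ 0) (hx0 : x ≠ 0)
    (h : (ε * z ^ 2) ^ p = 1 + (ε * x ^ 2) ^ p)
    (hz : P.valuation K z = 1) (hx : P.valuation K x = 1) :
    ∃ v : HeightOneSpectrum (𝓞 K), ((p : ℕ) : 𝓞 K) ∈ v.asIdeal ∧ v.valuation K x < 1 := by
  have hp2 : p ≠ 2 := by omega
  have hodd := hp.odd_of_ne_two hp2
  by_contra hcon
  push Not at hcon
  have hεv : ∀ v : HeightOneSpectrum (𝓞 K), v.valuation K (ε : K) = 1 := by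
    intro v
    rcases hε with h | h <;> simp [h]
  have hεE : Ev (ε : K) := fun v => ⟨0, by rw [hεv]; simp⟩
  have hεK : (ε : K) ≠ 0 := by
    rcases hε with h | h <;> simp [h]
  have hεε : (ε : K) * ε = 1 := by
    rcases hε with h | h <;> simp [h]
  obtain ⟨ρ, hρ⟩ : ∃ ρ : K, ρ = ε * z ^ 2 := ⟨_, rfl⟩
  obtain ⟨γ, hγ⟩ : ∃ γ : K, γ = ε * x ^ 2 := ⟨_, rfl⟩
  rw [← hρ, ← hγ] at h
  have hγ0 : γ ≠ 0 := by rw [hγ]; exact mul_ne_zero hεK (pow_ne_zero 2 hx0)
  have hγv : ∀ v : HeightOneSpectrum (𝓞 K), v.valuation K γ = v.valuation K x ^ 2 := by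
    intro v
    rw [hγ, map_mul, hεv, one_mul, map_pow]
  obtain ⟨hG0, hGE⟩ := even_G p hp hp2 ρ γ hγ0 h (by rw [hρ]; exact hεE.mul (Ev.sq hz0))
    (by rw [hγ]; exact hεE.mul (Ev.sq hx0)) (fun v hv => by
      rw [hγv]
      exact one_le_pow_of_one_le' (hcon v hv) 2)
  have hposr : 0 < D → ∀ φ : K →+* ℂ, ∃ x : ℝ, 0 < x ∧ φ (∑ i ∈ range p, ρ ^ i) = x := by
    intro hDpos φ
    obtain ⟨x, hx⟩ := q.real hDpos φ ρ
    refine ⟨∑ i ∈ range p, x ^ i, hodd.geom_sum_pos, ?_⟩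
    rw [map_sum]
    push_cast
    refine sum_congr rfl fun i _ => ?_
    rw [map_pow, hx]
  obtain ⟨m, s, hmsf, hs0, hms, hmpos, hml, hm2⟩ := q.gen _ hG0 hGE hposr
  have hm2' := hm2 (by omega)
  have hmo : Odd m := by
    rw [← Int.not_even_iff_odd, even_iff_two_dvd]
    exact hm2'
  have hmD : m ∣ D := by
    refine dvd_of_sf m D hmsf fun l hl hlm => ?_
    rcases hml l hl hlm with h | h
    · exact h
    · exfalso
      rw [h] at hlm
      exact hm2' (by exact_mod_cast hlm)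
  -- `m` is one modulo four
  obtain ⟨k, hk⟩ : ∃ k : ℤ, m = 4 * k + 1 := by
    have h6 := hd m hmD hmpos
    have h7 := hd 1 (one_dvd D) (fun _ => one_pos)
    rw [if_pos hD, Int.ModEq] at h6 h7
    obtain ⟨a, ha⟩ := hmo
    obtain ⟨b, hb⟩ := hodd
    have hb' : (p : ℤ) = 2 * b + 1 := by exact_mod_cast hb
    refine ⟨m / 4, ?_⟩
    omega
  have hmv : P.valuation K (m : K) = 1 := w_odd P h2 m hmo
  have hmK : (m : K) ≠ 0 := by
    intro h0
    rw [h0, map_zero] at hmv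
    exact zero_ne_one hmv
  have hG : (∑ i ∈ range p, ρ ^ i) * (ρ - 1) = γ ^ p := by
    rw [geom_sum_mul, h]
    ring
  have hρ1 : P.valuation K ρ = 1 := by rw [hρ, map_mul, hεv, one_mul, map_pow, hz, one_pow]
  have hγ1 : P.valuation K γ = 1 := by rw [hγv, hx, one_pow]
  have hG1 : P.valuation K (∑ i ∈ range p, ρ ^ i) ≤ 1 := by
    refine Valuation.map_sum_le _ fun j _ => ?_
    rw [map_pow, hρ1, one_pow]
  have hρ2 : P.valuation K (ρ - 1) = 1 := by
    have h3 : P.valuation K (ρ - 1) ≤ 1 := by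
      refine (Valuation.map_sub _ _ _).trans (max_le hρ1.le ?_)
      rw [map_one]
    apply le_antisymm h3
    by_contra hlt
    push Not at hlt
    have h4 : P.valuation K (γ ^ p) < 1 := by
      rw [← hG, map_mul]
      exact mul_lt_one_of_nonneg_of_lt_one_right hG1 zero_le' hlt
    rw [map_pow, hγ1, one_pow] at h4
    exact lt_irrefl _ h4
  obtain ⟨d, hd'⟩ : ∃ d : K, d = x ^ p / (m * s) := ⟨_, rfl⟩
  have hεp : (ε : K) ^ p = ε := by
    rcases hε with h | h
    · simp [h]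
    · rw [h]
      push_cast
      exact hodd.neg_one_pow
  have heq : z ^ 2 - (m : K) * d ^ 2 = ε := by
    have h3 : (m : K) * s ^ 2 * (ε * z ^ 2 - 1) = ε * (x ^ 2) ^ p := by
      rw [← hms, ← hρ, hG, hγ, mul_pow, hεp]
    have h4 : (m : K) * s ^ 2 * (z ^ 2 - ε) = (x ^ 2) ^ p := by
      have e : (m : K) * s ^ 2 * (z ^ 2 - ε) = ε * ((m : K) * s ^ 2 * (ε * z ^ 2 - 1)) := by
        linear_combination (-(m : K) * s ^ 2 * z ^ 2) * hεε
      rw [e, h3, ← mul_assoc, hεε, one_mul]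
    have h6 : (m : K) * d ^ 2 = z ^ 2 - ε := by
      rw [hd', div_pow, mul_pow]
      have h7 : (x ^ p) ^ 2 = (x ^ 2) ^ p := by rw [← pow_mul, ← pow_mul, mul_comm]
      rw [h7, ← h4]
      field_simp
    rw [h6]
    ring
  have hdv : P.valuation K d = 1 := by
    have h3 : (m : K) * d ^ 2 = ε * (ρ - 1) := by
      rw [hρ]
      linear_combination -heq - z ^ 2 * hεε
    have h4 : P.valuation K d ^ 2 = 1 := by
      have h6 := congrArg (P.valuation K) h3
      rw [map_mul, map_pow, hmv, one_mul, map_mul, hεv, one_mul, hρ2] at h6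
      exact h6
    exact (pow_eq_one_iff_of_nonneg zero_le' two_ne_zero).1 h4
  rw [hk] at heq
  exact q.no_conic hD P h2 ε hε k z d hz hdv heq

/-- at most two primes above `p` -/
theorem QF.two_primes (q : QF K D r) (p : ℕ) (hp : p.Prime) (v1 v2 v3 : HeightOneSpectrum (𝓞 K))
    (h1 : ((p : ℕ) : 𝓞 K) ∈ v1.asIdeal) (h2 : ((p : ℕ) : 𝓞 K) ∈ v2.asIdeal)
    (h3 : ((p : ℕ) : 𝓞 K) ∈ v3.asIdeal) : v1 = v2 ∨ v1 = v3 ∨ v2 = v3 := by
  by_contra hcon
  push Not at hcon
  obtain ⟨h12, h13, h23⟩ := hcon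
  have hco : ∀ v w : HeightOneSpectrum (𝓞 K), v ≠ w → IsCoprime v.asIdeal w.asIdeal := by
    intro v w h
    rw [Ideal.isCoprime_iff_sup_eq]
    by_contra hne
    have hm : v.asIdeal.IsMaximal := v.isMaximal
    have h4 : v.asIdeal = v.asIdeal ⊔ w.asIdeal := hm.eq_of_le hne le_sup_left
    have h5 : w.asIdeal ≤ v.asIdeal := le_sup_right.trans h4.symm.le
    have h6 : w.asIdeal = v.asIdeal := w.isMaximal.eq_of_le v.isPrime.ne_top h5
    exact h (HeightOneSpectrum.ext h6.symm)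
  have hd : v1.asIdeal * v2.asIdeal * v3.asIdeal ∣ Ideal.span {((p : ℕ) : 𝓞 K)} := by
    refine IsCoprime.mul_dvd ((hco v1 v3 h13).mul_left (hco v2 v3 h23)) ?_ ?_
    · exact (hco v1 v2 h12).mul_dvd (by rwa [Ideal.dvd_span_singleton])
        (by rwa [Ideal.dvd_span_singleton])
    · rwa [Ideal.dvd_span_singleton]
  have hN := Ideal.absNorm_dvd_absNorm_of_le (Ideal.dvd_iff_le.1 hd)
  rw [Ideal.absNorm_span_natCast, RingOfIntegers.rank, q.rank, map_mul, map_mul] at hN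
  have hge : ∀ v : HeightOneSpectrum (𝓞 K), Ideal.absNorm v.asIdeal ∣ p ^ 2 →
      p ≤ Ideal.absNorm v.asIdeal := by
    intro v hv
    obtain ⟨i, -, hi⟩ := (Nat.dvd_prime_pow hp).1 hv
    have : i ≠ 0 := by
      rintro rfl
      exact v.isPrime.ne_top (Ideal.absNorm_eq_one_iff.1 hi)
    rw [hi]
    exact Nat.le_self_pow this p
  have g1 := hge v1 ((Dvd.intro _ rfl : Ideal.absNorm v1.asIdeal ∣
    Ideal.absNorm v1.asIdeal * Ideal.absNorm v2.asIdeal).mul_right _ |>.trans hN)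
  have g2 := hge v2 ((Dvd.intro_left _ rfl : Ideal.absNorm v2.asIdeal ∣
    Ideal.absNorm v1.asIdeal * Ideal.absNorm v2.asIdeal).mul_right _ |>.trans hN)
  have g3 := hge v3 ((Dvd.intro_left _ rfl : Ideal.absNorm v3.asIdeal ∣
    Ideal.absNorm v1.asIdeal * Ideal.absNorm v2.asIdeal * Ideal.absNorm v3.asIdeal).trans hN)
  have h6 := Nat.le_of_dvd (pow_pos hp.pos 2) hN
  have h7 : p * p * p ≤ Ideal.absNorm v1.asIdeal * Ideal.absNorm v2.asIdeal *
      Ideal.absNorm v3.asIdeal := Nat.mul_le_mul (Nat.mul_le_mul g1 g2) g3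
  have h8 : p * p * p ≤ p ^ 2 := h7.trans h6
  have h9 : p ^ 2 * p ≤ p ^ 2 * 1 := by
    calc p ^ 2 * p = p * p * p := by ring
      _ ≤ p ^ 2 * 1 := by rw [mul_one]; exact h8
  have h10 := Nat.le_of_mul_le_mul_left h9 (pow_pos hp.pos 2)
  exact absurd hp.one_lt (not_lt.2 h10)

end

end Pool.Agent.Zk43.FQ
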