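import Pool.Agent.Zk43.FQ.Sol

/-!
# Quadratic fields: powers with an odd prime exponent `q`, local computations at a prime above `q`
-/

set_option autoImplicit false

namespace Pool.Agent.Zk43.FQ

open NumberField IsDedekindDomain Polynomial Finset

section

variable {K : Type} [Field K] [NumberField K] (P : HeightOneSpectrum (𝓞 K)) (q : ℕ)

theorem wq_lt (hqP : ((q : ℕ) : 𝓞 K) ∈ P.asIdeal) : P.valuation K (q : K) < 1 := by
  have := (P.valuation_lt_one_iff_mem (K := K) ((q : ℕ) : 𝓞 K)).2 hqP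
  simpa using this

theorem wq_pos (hq : q.Prime) : 0 < P.valuation K (q : K) :=
  zero_lt_iff.2 ((Valuation.ne_zero_iff _).2 (by exact_mod_cast hq.ne_zero))

/-- the prime number `q` is not divisible by the cube of a prime -/
theorem wq_ge (hK : Module.finrank ℚ K = 2) (hq : q.Prime) :
    WithZero.exp (-2 : ℤ) ≤ P.valuation K (q : K) := by
  by_contra hcon
  push Not at hcon
  have hq0 : (q : K) ≠ 0 := by exact_mod_cast hq.ne_zero
  obtain ⟨k, hk⟩ := val_exists P (q : K) hq0
  rw [hk, WithZero.exp_lt_exp] at hcon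
  have h1 : P.intValuation ((q : ℕ) : 𝓞 K) ≤ WithZero.exp (-((3 : ℕ) : ℤ)) := by
    rw [← P.valuation_of_algebraMap (K := K)]
    have e : algebraMap (𝓞 K) K ((q : ℕ) : 𝓞 K) = (q : K) := map_natCast _ q
    change P.valuation K (algebraMap (𝓞 K) K ((q : ℕ) : 𝓞 K)) ≤ _
    rw [e, hk, WithZero.exp_le_exp]
    push_cast
    omega
  rw [P.intValuation_le_pow_iff_mem] at h1
  have h2 : P.asIdeal ^ 3 ∣ Ideal.span {((q : ℕ) : 𝓞 K)} := by
    rw [Ideal.dvd_span_singleton]
    exact h1
  have h3 := Ideal.absNorm_dvd_absNorm_of_le (Ideal.dvd_iff_le.1 h2)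
  rw [Ideal.absNorm_span_natCast, RingOfIntegers.rank, hK, map_pow] at h3
  have h4 : Ideal.absNorm P.asIdeal ∣ q ^ 2 := (dvd_pow_self _ (by norm_num)).trans h3
  obtain ⟨i, -, hi⟩ := (Nat.dvd_prime_pow hq).1 h4
  have hi0 : i ≠ 0 := by
    rintro rfl
    exact P.isPrime.ne_top (Ideal.absNorm_eq_one_iff.1 hi)
  rw [hi, ← pow_mul] at h3
  have h5 := (Nat.pow_dvd_pow_iff_le_right hq.one_lt).1 h3
  omega

theorem wq_int (hq : q.Prime) (hqP : ((q : ℕ) : 𝓞 K) ∈ P.asIdeal) (n : ℤ) (hn : ¬ (q : ℤ) ∣ n) :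
    P.valuation K (n : K) = 1 := by
  apply le_antisymm (w_int_le P n)
  by_contra hcon
  push Not at hcon
  have hco : IsCoprime (q : ℤ) n := (Prime.coprime_iff_not_dvd (Nat.prime_iff_prime_int.1 hq)).2 hn
  obtain ⟨a, b, hab⟩ := hco
  have h1 : (1 : K) = a * q + b * n := by
    have : ((a * q + b * n : ℤ) : K) = 1 := by rw [hab]; simp
    rw [← this]
    push_cast
    rfl
  have h2 : P.valuation K ((a : K) * q) < 1 := by
    rw [map_mul]
    exact mul_lt_one_of_nonneg_of_lt_one_right (w_int_le P a) zero_le' (wq_lt P q hqP)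
  have h3 : P.valuation K ((b : K) * n) < 1 := by
    rw [map_mul]
    exact mul_lt_one_of_nonneg_of_lt_one_right (w_int_le P b) zero_le' hcon
  have h4 := Valuation.map_add_lt (P.valuation K) h2 h3
  rw [← h1, map_one] at h4
  exact lt_irrefl _ h4

theorem wq_dvd (hq : q.Prime) (hqP : ((q : ℕ) : 𝓞 K) ∈ P.asIdeal) (n : ℤ)
    (hn : P.valuation K (n : K) < P.valuation K (q : K)) : (q : ℤ) ^ 2 ∣ n := by
  have h1 : (q : ℤ) ∣ n := by
    by_contra hcon
    rw [wq_int P q hq hqP n hcon] at hn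
    exact absurd (wq_lt P q hqP) (not_lt.2 hn.le)
  obtain ⟨m, hm⟩ := h1
  have h2 : (q : ℤ) ∣ m := by
    by_contra hcon
    have h3 := wq_int P q hq hqP m hcon
    rw [hm] at hn
    push_cast at hn
    rw [map_mul, h3, mul_one] at hn
    exact lt_irrefl _ hn
  obtain ⟨l, hl⟩ := h2
  exact ⟨l, by rw [hm, hl]; ring⟩

/-- the binomial theorem modulo `q` -/
theorem pow_expand (hq : q.Prime) (a f : K) (ha : P.valuation K a ≤ 1) (hf : P.valuation K f ≤ 1) :
    ∃ R : K, P.valuation K R ≤ 1 ∧ (a + f) ^ q = a ^ q + f ^ q + q * a * f * R := by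
  refine ⟨_, ?_, add_pow_prime_eq hq a f⟩
  refine Valuation.map_sum_le _ fun k _ => ?_
  rw [map_mul, map_mul, map_pow, map_pow]
  have h1 : P.valuation K (((q.choose k / q : ℕ)) : K) ≤ 1 := by
    have := w_int_le P ((q.choose k / q : ℕ) : ℤ)
    rw [Int.cast_natCast] at this
    exact this
  exact mul_le_one' (mul_le_one' (pow_le_one' ha _) (pow_le_one' hf _)) h1

/-- small powers -/
theorem small_pow (hK : Module.finrank ℚ K = 2) (hq : q.Prime) (hq2 : q ≠ 2) (f : K)
    (hf : P.valuation K f < 1) : P.valuation K f ^ q < P.valuation K (q : K) := by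
  by_cases hf0 : f = 0
  · rw [hf0, map_zero, zero_pow hq.ne_zero]
    exact wq_pos P q hq
  obtain ⟨k, hk⟩ := val_exists P f hf0
  rw [hk] at hf ⊢
  have hk1 : k ≤ -1 := by
    have h3 : WithZero.exp k < WithZero.exp (0 : ℤ) := by simpa using hf
    rw [WithZero.exp_lt_exp] at h3
    omega
  have hq3 : 3 ≤ q := by
    have := hq.two_le
    omega
  refine lt_of_lt_of_le ?_ (wq_ge P q hK hq)
  rw [← WithZero.exp_nsmul, WithZero.exp_lt_exp]
  simp only [nsmul_eq_mul]
  have hq3' : (3 : ℤ) ≤ q := by exact_mod_cast hq3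
  nlinarith

/-- `q`-th powers of close elements -/
theorem pow_close (hK : Module.finrank ℚ K = 2) (hq : q.Prime) (hq2 : q ≠ 2)
    (a f : K) (ha : P.valuation K a ≤ 1)
    (hf : P.valuation K f < 1) :
    P.valuation K ((a + f) ^ q - a ^ q) < P.valuation K (q : K) := by
  obtain ⟨R, hR, hR'⟩ := pow_expand P q hq a f ha hf.le
  have e : (a + f) ^ q - a ^ q = f ^ q + q * a * f * R := by rw [hR']; ring
  rw [e]
  refine Valuation.map_add_lt _ ?_ ?_
  · rw [map_pow]
    exact small_pow P q hK hq hq2 f hf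
  · rw [map_mul, map_mul, map_mul]
    have h1 : P.valuation K a * P.valuation K f * P.valuation K R < 1 := by
      refine mul_lt_one_of_nonneg_of_lt_one_left zero_le' ?_ hR
      exact mul_lt_one_of_nonneg_of_lt_one_right ha zero_le' hf
    calc P.valuation K (q : K) * P.valuation K a * P.valuation K f * P.valuation K R
        = P.valuation K (q : K) * (P.valuation K a * P.valuation K f * P.valuation K R) := by
          simp only [mul_assoc]
      _ < P.valuation K (q : K) * 1 := (mul_lt_mul_iff_right₀ (wq_pos P q hq)).2 h1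
      _ = _ := mul_one _

/-- if the `q`-th powers are congruent then so are the elements -/
theorem close_of_pow (hq : q.Prime) (hqP : ((q : ℕ) : 𝓞 K) ∈ P.asIdeal)
    (a b : K) (ha : P.valuation K a ≤ 1) (hb : P.valuation K b ≤ 1)
    (h : P.valuation K (b ^ q - a ^ q) < 1) : P.valuation K (b - a) < 1 := by
  obtain ⟨R, hR, hR'⟩ := pow_expand P q hq a (b - a) ha
    ((Valuation.map_sub _ _ _).trans (max_le hb ha))
  rw [add_sub_cancel] at hR'
  have h1 : P.valuation K ((b - a) ^ q) < 1 := by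
    have e : (b - a) ^ q = (b ^ q - a ^ q) - q * a * (b - a) * R := by rw [hR']; ring
    rw [e]
    refine Valuation.map_sub_lt _ h ?_
    rw [map_mul, map_mul, map_mul]
    have h3 : P.valuation K a * P.valuation K (b - a) * P.valuation K R ≤ 1 :=
      mul_le_one' (mul_le_one' ha ((Valuation.map_sub _ _ _).trans (max_le hb ha))) hR
    calc P.valuation K (q : K) * P.valuation K a * P.valuation K (b - a) * P.valuation K R
        = P.valuation K (q : K) * (P.valuation K a * P.valuation K (b - a) * P.valuation K R) := by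
          simp only [mul_assoc]
      _ < 1 := mul_lt_one_of_nonneg_of_lt_one_left zero_le' (wq_lt P q hqP) h3
  rw [map_pow] at h1
  exact (pow_lt_one_iff_of_nonneg zero_le' hq.ne_zero).1 h1

/-- there is no solution of the equation with exponent `q` prime to `P` -/
def NoSol : Prop := ∀ v : K, P.valuation K v = 1 → P.valuation K (1 + v) = 1 →
  P.valuation K (q : K) ≤ P.valuation K ((1 + v) ^ q - 1 - v ^ q)

theorem NoSol.elim (hK : Module.finrank ℚ K = 2) (hq : q.Prime) (hq2 : q ≠ 2)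
    (hqP : ((q : ℕ) : 𝓞 K) ∈ P.asIdeal) (hN : NoSol P q) (u v : K)
    (hu : P.valuation K u = 1) (hv : P.valuation K v = 1) (h : u ^ q = 1 + v ^ q) : False := by
  have h1v : P.valuation K (1 + v) ≤ 1 := by
    refine (Valuation.map_add _ _ _).trans (max_le ?_ hv.le)
    rw [map_one]
  have hclose : P.valuation K (u - (1 + v)) < 1 := by
    apply close_of_pow P q hq hqP _ _ h1v hu.le
    obtain ⟨R, hR, hR'⟩ := pow_expand P q hq 1 v (by rw [map_one]) hv.le
    have e : u ^ q - (1 + v) ^ q = -(q * (v * R)) := by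
      rw [h, hR', one_pow]
      ring
    rw [e, Valuation.map_neg, map_mul, map_mul, hv, one_mul]
    exact mul_lt_one_of_nonneg_of_lt_one_left zero_le' (wq_lt P q hqP) hR
  have h1 : P.valuation K (1 + v) = 1 := by
    have e : 1 + v = u - (u - (1 + v)) := by ring
    rw [e, Valuation.map_sub_eq_of_lt_left, hu]
    rw [hu]
    exact hclose
  have h2 := pow_close P q hK hq hq2 (1 + v) (u - (1 + v)) h1v hclose
  rw [add_sub_cancel, h] at h2
  have h3 := hN v hv h1
  have e : (1 + v) ^ q - 1 - v ^ q = -(1 + v ^ q - (1 + v) ^ q) := by ring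
  rw [e, Valuation.map_neg] at h3
  exact absurd h2 (not_lt.2 h3)

/-- for the exponent three there is no solution -/
theorem noSol_three : NoSol P 3 := by
  intro v hv h1v
  have e : (1 + v) ^ 3 - 1 - v ^ 3 = ((3 : ℕ) : K) * (v * (1 + v)) := by push_cast; ring
  rw [e, map_mul, map_mul, hv, h1v, mul_one, mul_one]

/-- the final congruence -/
theorem final_pow (hK : Module.finrank ℚ K = 2) (hq : q.Prime) (hq2 : q ≠ 2)
    (hqP : ((q : ℕ) : 𝓞 K) ∈ P.asIdeal) (s : K) (c : ℤ)
    (h : P.valuation K (s ^ q - c) < P.valuation K (q : K)) : (q : ℤ) ^ 2 ∣ c ^ q - c := by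
  have hlt := wq_lt P q hqP
  have hs : P.valuation K s ≤ 1 := by
    have h1 : P.valuation K (s ^ q) ≤ 1 := by
      have e : s ^ q = (s ^ q - c) + c := by ring
      rw [e]
      exact (Valuation.map_add _ _ _).trans (max_le (h.le.trans hlt.le) (w_int_le P c))
    rw [map_pow] at h1
    exact (pow_le_one_iff_of_nonneg zero_le' hq.ne_zero).1 h1
  -- Fermat's little theorem
  have hfl : (q : ℤ) ∣ c ^ q - c := by
    have : Fact q.Prime := ⟨hq⟩
    rw [← ZMod.intCast_zmod_eq_zero_iff_dvd _ q]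
    push_cast
    rw [ZMod.pow_card, sub_self]
  have hflv : P.valuation K ((c ^ q - c : ℤ) : K) < 1 := by
    obtain ⟨m, hm⟩ := hfl
    rw [hm]
    push_cast
    rw [map_mul]
    exact mul_lt_one_of_nonneg_of_lt_one_left zero_le' hlt (w_int_le P m)
  have hclose : P.valuation K (s - c) < 1 := by
    apply close_of_pow P q hq hqP _ _ (w_int_le P c) hs
    have e : s ^ q - (c : K) ^ q = (s ^ q - c) - ((c ^ q - c : ℤ) : K) := by push_cast; ring
    rw [e]
    exact Valuation.map_sub_lt _ (h.trans hlt) hflv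
  have h2 := pow_close P q hK hq hq2 (c : K) (s - c) (w_int_le P c) hclose
  rw [add_sub_cancel] at h2
  apply wq_dvd P q hq hqP
  have e : ((c ^ q - c : ℤ) : K) = (s ^ q - c) - (s ^ q - (c : K) ^ q) := by push_cast; ring
  rw [e]
  exact Valuation.map_sub_lt _ h h2

/-- orders of units -/
theorem one_of_coprime (s : K) (hs : P.valuation K s = 1) (a b : ℕ) (hab : Nat.Coprime a b)
    (ha : P.valuation K (s ^ a - 1) < 1) (hb : P.valuation K (s ^ b - 1) < 1) :
    P.valuation K (s - 1) < 1 := by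
  have hs0 : s ≠ 0 := by
    rintro rfl
    rw [map_zero] at hs
    exact zero_ne_one hs
  have hz : ∀ n : ℤ, P.valuation K (s ^ n) = 1 := by
    intro n
    rw [map_zpow₀, hs, one_zpow]
  let H : AddSubgroup ℤ :=
    { carrier := {n | P.valuation K (s ^ n - 1) < 1}
      add_mem' := by
        intro m n hm hn
        simp only [Set.mem_setOf_eq] at hm hn ⊢
        have e : s ^ (m + n) - 1 = s ^ m * (s ^ n - 1) + (s ^ m - 1) := by
          rw [zpow_add₀ hs0]
          ring
        rw [e]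
        refine Valuation.map_add_lt _ ?_ hm
        rw [map_mul, hz, one_mul]
        exact hn
      zero_mem' := by simp
      neg_mem' := by
        intro m hm
        simp only [Set.mem_setOf_eq] at hm ⊢
        have e : s ^ (-m) - 1 = -(s ^ (-m) * (s ^ m - 1)) := by
          rw [mul_sub, ← zpow_add₀ hs0, neg_add_cancel, zpow_zero]
          ring
        rw [e, Valuation.map_neg, map_mul, hz, one_mul]
        exact hm }
  have h1 : (a : ℤ) ∈ H := by
    change P.valuation K (s ^ (a : ℤ) - 1) < 1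
    rw [zpow_natCast]
    exact ha
  have h2 : (b : ℤ) ∈ H := by
    change P.valuation K (s ^ (b : ℤ) - 1) < 1
    rw [zpow_natCast]
    exact hb
  have h3 : (1 : ℤ) ∈ H := by
    have h4 : (1 : ℤ) = Nat.gcdA a b • (a : ℤ) + Nat.gcdB a b • (b : ℤ) := by
      have := Nat.gcd_eq_gcd_ab a b
      rw [hab] at this
      rw [smul_eq_mul, smul_eq_mul, mul_comm, mul_comm (Nat.gcdB a b)]
      exact_mod_cast this
    rw [h4]
    exact H.add_mem (H.zsmul_mem h1 _) (H.zsmul_mem h2 _)
  have h4 : P.valuation K (s ^ (1 : ℤ) - 1) < 1 := h3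
  rwa [zpow_one] at h4

/-- the multiplicative group of the residue field -/
theorem unit_pow_card (s : K) (hs : P.valuation K s = 1) (c : ℕ)
    (hc : Nat.card (𝓞 K ⧸ P.asIdeal) = c) (hc0 : c ≠ 0) :
    P.valuation K (s ^ (c - 1) - 1) < 1 := by
  obtain ⟨a, ha⟩ := P.exists_valuation_sub_lt_of_integer (K := K) (x := s) hs.le 1
  rw [Units.val_one] at ha
  have hav : P.valuation K (algebraMap (𝓞 K) K a) = 1 := by
    have e : algebraMap (𝓞 K) K a = s + (algebraMap (𝓞 K) K a - s) := by ring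
    rw [e, Valuation.map_add_eq_of_lt_left, hs]
    rw [hs]
    exact ha
  have haP : a ∉ P.asIdeal := by
    intro h
    have := (P.valuation_lt_one_iff_mem (K := K) a).2 h
    rw [hav] at this
    exact lt_irrefl _ this
  have hM : P.asIdeal.IsMaximal := P.isMaximal
  let _ := Ideal.Quotient.field P.asIdeal
  have hfin : Finite (𝓞 K ⧸ P.asIdeal) := Nat.finite_of_card_ne_zero (by rw [hc]; exact hc0)
  let _ := Fintype.ofFinite (𝓞 K ⧸ P.asIdeal)
  have hne : Ideal.Quotient.mk P.asIdeal a ≠ 0 := fun h => haP (Ideal.Quotient.eq_zero_iff_mem.1 h)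
  have h1 := FiniteField.pow_card_sub_one_eq_one (Ideal.Quotient.mk P.asIdeal a) hne
  rw [← Nat.card_eq_fintype_card, hc, ← map_pow, ← map_one (Ideal.Quotient.mk P.asIdeal),
    Ideal.Quotient.eq] at h1
  have h2 := (P.valuation_lt_one_iff_mem (K := K) _).2 h1
  have h3 : P.valuation K ((algebraMap (𝓞 K) K a) ^ (c - 1) - 1) < 1 := by
    have e : algebraMap (𝓞 K) K (a ^ (c - 1) - 1) = (algebraMap (𝓞 K) K a) ^ (c - 1) - 1 := by
      rw [map_sub, map_pow, map_one]
    rw [← e]
    exact h2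
  have h4 : P.valuation K ((algebraMap (𝓞 K) K a) ^ (c - 1) - s ^ (c - 1)) < 1 := by
    have e : (algebraMap (𝓞 K) K a) ^ (c - 1) - s ^ (c - 1) =
        (∑ i ∈ range (c - 1), (algebraMap (𝓞 K) K a) ^ i * s ^ (c - 1 - 1 - i)) *
          (algebraMap (𝓞 K) K a - s) :=
      ((Commute.all (algebraMap (𝓞 K) K a) s).geom_sum₂_mul (c - 1)).symm
    rw [e, map_mul]
    refine mul_lt_one_of_nonneg_of_lt_one_right (Valuation.map_sum_le _ fun i _ => ?_) zero_le' ha
    rw [map_mul, map_pow, map_pow, hav, hs, one_pow, one_pow, one_mul]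
  have e : s ^ (c - 1) - 1 = ((algebraMap (𝓞 K) K a) ^ (c - 1) - 1) -
      ((algebraMap (𝓞 K) K a) ^ (c - 1) - s ^ (c - 1)) := by ring
  rw [e]
  exact Valuation.map_sub_lt _ h3 h4

/-- the residue field above three -/
theorem pow_eight (hK : Module.finrank ℚ K = 2) (h3P : ((3 : ℕ) : 𝓞 K) ∈ P.asIdeal) (s : K)
    (hs : P.valuation K s = 1) : P.valuation K (s ^ 8 - 1) < 1 := by
  have h1 : P.asIdeal ∣ Ideal.span {((3 : ℕ) : 𝓞 K)} := by rwa [Ideal.dvd_span_singleton]
  have h2 := Ideal.absNorm_dvd_absNorm_of_le (Ideal.dvd_iff_le.1 h1)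
  rw [Ideal.absNorm_span_natCast, RingOfIntegers.rank, hK] at h2
  obtain ⟨i, hi2, hi⟩ := (Nat.dvd_prime_pow Nat.prime_three).1 h2
  have hi0 : i ≠ 0 := by
    rintro rfl
    exact P.isPrime.ne_top (Ideal.absNorm_eq_one_iff.1 hi)
  rw [Ideal.absNorm_apply, Submodule.cardQuot_apply] at hi
  have h3 : i = 1 ∨ i = 2 := by omega
  rcases h3 with h | h
  · rw [h] at hi
    have h4 := unit_pow_card P s hs _ hi (by norm_num)
    norm_num at h4
    have e : s ^ 8 - 1 = (s ^ 2 - 1) * (s ^ 6 + s ^ 4 + s ^ 2 + 1) := by ring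
    rw [e, map_mul]
    refine mul_lt_one_of_nonneg_of_lt_one_left zero_le' h4 ?_
    have hp : ∀ k : ℕ, P.valuation K (s ^ k) ≤ 1 := fun k => by rw [map_pow, hs, one_pow]
    refine (Valuation.map_add _ _ _).trans (max_le ?_ (by rw [map_one]))
    refine (Valuation.map_add _ _ _).trans (max_le ?_ (hp 2))
    exact (Valuation.map_add _ _ _).trans (max_le (hp 6) (hp 4))
  · rw [h] at hi
    have h4 := unit_pow_card P s hs _ hi (by norm_num)
    norm_num at h4
    exact h4

end

end Pool.Agent.Zk43.FQ
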