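import Pool.Agent.Zk43.FQ.OddLoc

/-!
# Fermat's equation over quadratic fields for exponents `p q`
-/

set_option autoImplicit false

namespace Pool.Agent.Zk43.FQ

open NumberField IsDedekindDomain Polynomial Finset

section

variable {K : Type} [Field K] [NumberField K]

/-- all valuations are divisible by `q` -/
def EvQ (q : ℕ) (b : K) : Prop :=
  ∀ v : HeightOneSpectrum (𝓞 K), ∃ m : ℤ, v.valuation K b = WithZero.exp (q * m)

theorem EvQ.pow (q : ℕ) {b : K} (hb : b ≠ 0) : EvQ q (b ^ q) := fun v => by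
  obtain ⟨k, hk⟩ := val_exists v b hb
  refine ⟨k, ?_⟩
  rw [map_pow, hk, ← WithZero.exp_nsmul]
  congr 1

theorem pow_ideal (q : ℕ) (hq : q ≠ 0) (x : 𝓞 K) (hx : x ≠ 0) (h : EvQ q (x : K)) :
    ∃ J : Ideal (𝓞 K), Ideal.span {x} = J ^ q := by
  classical
  have hI0 : (Ideal.span {x} : Ideal (𝓞 K)) ≠ 0 := by
    rw [Ne, Ideal.zero_eq_bot, Ideal.span_singleton_eq_bot]
    exact hx
  obtain ⟨e, he⟩ : ∃ e : HeightOneSpectrum (𝓞 K) → ℕ, e = fun v =>
    (Associates.mk v.asIdeal).count (Associates.mk (Ideal.span {x})).factors := ⟨_, rfl⟩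
  have hev : ∀ v, e v / q * q = e v := by
    intro v
    obtain ⟨m, hm⟩ := h v
    have h1 : v.valuation K (algebraMap (𝓞 K) K x) = WithZero.exp (-(e v : ℤ)) := by
      rw [HeightOneSpectrum.valuation_of_algebraMap, HeightOneSpectrum.intValuation_if_neg _ hx, he]
    have h2 : WithZero.exp (q * m) = WithZero.exp (-(e v : ℤ)) := by
      rw [← hm, ← h1]
    have h3 : (q : ℤ) * m = -(e v : ℤ) := WithZero.exp_injective h2
    have h4 : (q : ℤ) ∣ (e v : ℤ) := ⟨-m, by linarith⟩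
    exact Nat.div_mul_cancel (Int.natCast_dvd_natCast.1 h4)
  have hfac := Ideal.finprod_heightOneSpectrum_factorization hI0
  have hmp : ∀ v : HeightOneSpectrum (𝓞 K),
      v.maxPowDividing (Ideal.span {x}) = (v.asIdeal ^ (e v / q)) ^ q := by
    intro v
    rw [← pow_mul, hev, he]
    rfl
  have hfin : Function.HasFiniteMulSupport fun v : HeightOneSpectrum (𝓞 K) =>
      v.asIdeal ^ (e v / q) := by
    refine Set.Finite.subset (Ideal.hasFiniteMulSupport hI0) fun v hv => ?_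
    rw [Function.mem_mulSupport] at hv ⊢
    rw [hmp]
    intro h1
    apply hv
    rw [Ideal.one_eq_top] at h1 ⊢
    exact (Ideal.pow_eq_top_iff.1 h1).resolve_right hq
  refine ⟨∏ᶠ v : HeightOneSpectrum (𝓞 K), v.asIdeal ^ (e v / q), ?_⟩
  rw [finprod_pow hfin, ← hfac]
  exact finprod_congr fun v => hmp v

/-- the norm of an element whose valuations are divisible by `q` is a `q`-th power -/
theorem norm_pow_q (q : ℕ) (hq : Odd q) (b : K) (hb0 : b ≠ 0) (hb : EvQ q b) :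
    ∃ n : ℚ, Algebra.norm ℚ b = n ^ q := by
  obtain ⟨d, hd, hint⟩ :=
    ((IsFractionRing.isAlgebraic_iff ℤ ℚ K).2
      (Algebra.IsAlgebraic.isAlgebraic (R := ℚ) b)).exists_integral_multiple
  obtain ⟨α0, hα0⟩ : ∃ α0 : 𝓞 K, (α0 : K) = (d : K) * b := ⟨⟨_, hint⟩, by
    simp [zsmul_eq_mul]⟩
  have hq0 : q ≠ 0 := by rintro rfl; exact (Nat.not_odd_iff_even.2 (by decide)) hq
  have hdK : (d : K) ≠ 0 := by exact_mod_cast hd
  have hdQ : (d : ℚ) ≠ 0 := by exact_mod_cast hd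
  have hα : (((d : 𝓞 K) ^ (q - 1) * α0 : 𝓞 K) : K) = b * (d : K) ^ q := by
    have h8 : (((d : 𝓞 K) ^ (q - 1) * α0 : 𝓞 K) : K) = (d : K) ^ (q - 1) * (α0 : K) := by simp
    rw [h8, hα0, ← mul_assoc, ← pow_succ, Nat.sub_add_cancel (Nat.one_le_iff_ne_zero.2 hq0)]
    ring
  have hne : (d : 𝓞 K) ^ (q - 1) * α0 ≠ 0 := by
    intro h0
    rw [h0] at hα
    have h9 : ((0 : 𝓞 K) : K) = 0 := by simp
    rw [h9] at hα
    exact mul_ne_zero hb0 (pow_ne_zero q hdK) hα.symm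
  obtain ⟨J, hJ⟩ := pow_ideal q hq0 _ hne (by
    rw [hα]
    intro v
    obtain ⟨m, hm⟩ := hb v
    obtain ⟨l, hl⟩ := EvQ.pow q hdK v
    refine ⟨m + l, ?_⟩
    rw [map_mul, hm, hl, ← WithZero.exp_add]
    congr 1
    ring)
  have h1 : (Algebra.norm ℤ ((d : 𝓞 K) ^ (q - 1) * α0)).natAbs = (Ideal.absNorm J) ^ q := by
    rw [← Ideal.absNorm_span_singleton, hJ, map_pow]
  have h2 : (Algebra.norm ℤ ((d : 𝓞 K) ^ (q - 1) * α0) : ℚ) =
      Algebra.norm ℚ b * ((d : ℚ) ^ (Module.finrank ℚ K)) ^ q := by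
    rw [Algebra.coe_norm_int, hα, map_mul, map_pow]
    congr 2
    have : (d : K) = algebraMap ℚ K (d : ℚ) := by simp
    rw [this, Algebra.norm_algebraMap]
  have hd2 : ((d : ℚ) ^ (Module.finrank ℚ K)) ≠ 0 := pow_ne_zero _ hdQ
  rcases Int.natAbs_eq (Algebra.norm ℤ ((d : 𝓞 K) ^ (q - 1) * α0)) with h3 | h3
  · refine ⟨(Ideal.absNorm J : ℚ) / (d : ℚ) ^ (Module.finrank ℚ K), ?_⟩
    rw [h1] at h3
    rw [div_pow, eq_div_iff (pow_ne_zero q hd2), ← h2, h3]
    push_cast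
    rfl
  · refine ⟨-(Ideal.absNorm J : ℚ) / (d : ℚ) ^ (Module.finrank ℚ K), ?_⟩
    rw [h1] at h3
    rw [div_pow, eq_div_iff (pow_ne_zero q hd2), ← h2, h3, hq.neg_pow]
    push_cast
    rfl

/-- the conjugation of a quadratic field -/
theorem exists_conj (hK : Module.finrank ℚ K = 2) :
    ∃ σ : K ≃ₐ[ℚ] K, ∀ x : K, ((Algebra.norm ℚ x : ℚ) : K) = x * σ x := by
  classical
  have : Algebra.IsQuadraticExtension ℚ K := ⟨hK⟩
  have hcard : Fintype.card (K ≃ₐ[ℚ] K) = 2 := by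
    rw [← Nat.card_eq_fintype_card, IsGalois.card_aut_eq_finrank, hK]
  obtain ⟨σ, hσ⟩ : ∃ σ : K ≃ₐ[ℚ] K, σ ≠ 1 := by
    obtain ⟨a, b, hab⟩ := Fintype.one_lt_card_iff.1 (by rw [hcard]; norm_num : 1 < Fintype.card (K ≃ₐ[ℚ] K))
    by_cases ha : a = 1
    · exact ⟨b, fun hb => hab (ha.trans hb.symm)⟩
    · exact ⟨a, ha⟩
  have huniv : (Finset.univ : Finset (K ≃ₐ[ℚ] K)) = {1, σ} := by
    symm
    apply Finset.eq_univ_of_card
    rw [hcard, Finset.card_pair hσ.symm]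
  refine ⟨σ, fun x => ?_⟩
  have h1 := Algebra.norm_eq_prod_automorphisms ℚ x
  rw [eq_ratCast] at h1
  rw [h1, huniv, Finset.prod_pair hσ.symm]
  rfl

/-- the quotient has valuations divisible by `q` -/
theorem even_Gq (p q : ℕ) (hp : p.Prime) (ρ γ : K) (hγ0 : γ ≠ 0)
    (h : ρ ^ p = 1 + γ ^ p) (hρ : EvQ q ρ) (hγ : EvQ q γ)
    (hpv : ∀ v : HeightOneSpectrum (𝓞 K), ((p : ℕ) : 𝓞 K) ∈ v.asIdeal → 1 ≤ v.valuation K γ) :
    (∑ i ∈ range p, ρ ^ i) ≠ 0 ∧ EvQ q (∑ i ∈ range p, ρ ^ i) := by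
  have hG : (∑ i ∈ range p, ρ ^ i) * (ρ - 1) = γ ^ p := by
    rw [geom_sum_mul, h]
    ring
  have hne : (∑ i ∈ range p, ρ ^ i) ≠ 0 := by
    intro h0
    rw [h0, zero_mul] at hG
    exact pow_ne_zero p hγ0 hG.symm
  refine ⟨hne, fun v => ?_⟩
  have hGv : v.valuation K (∑ i ∈ range p, ρ ^ i) * v.valuation K (ρ - 1) =
      v.valuation K γ ^ p := by rw [← map_mul, hG, map_pow]
  obtain ⟨a, ha⟩ := hρ v
  obtain ⟨c, hc⟩ := hγ v
  obtain ⟨g, hg⟩ := val_exists v _ hne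
  have hpow : v.valuation K (ρ ^ p - 1) = v.valuation K γ ^ p := by
    rw [h, add_sub_cancel_left, map_pow]
  rcases lt_trichotomy (v.valuation K ρ) 1 with h1 | h1 | h1
  · have h2 : v.valuation K (ρ - 1) = 1 := by
      rw [Valuation.map_sub_eq_of_lt_right, map_one]
      rwa [map_one]
    have h3 : v.valuation K (ρ ^ p - 1) = 1 := by
      rw [Valuation.map_sub_eq_of_lt_right, map_one]
      rw [map_one, map_pow]
      exact pow_lt_one₀ zero_le' h1 hp.ne_zero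
    refine ⟨0, ?_⟩
    rw [h2, mul_one, ← hpow, h3] at hGv
    rw [hGv]
    simp
  · by_cases h2 : v.valuation K (ρ - 1) = 1
    · rw [h2, mul_one, hc, ← WithZero.exp_nsmul] at hGv
      refine ⟨p * c, ?_⟩
      rw [hGv]
      congr 1
      simp only [nsmul_eq_mul]
      ring
    · have h3 : v.valuation K (ρ - 1) < 1 := by
        refine lt_of_le_of_ne ?_ h2
        refine (Valuation.map_sub _ _ _).trans (max_le h1.le ?_)
        rw [map_one]
      have h4 : v.valuation K (∑ i ∈ range p, ρ ^ i) ≤ 1 := by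
        refine Valuation.map_sum_le _ fun j _ => ?_
        rw [map_pow]
        exact pow_le_one' h1.le j
      have h5 : v.valuation K γ ^ p < 1 := by
        rw [← hGv]
        exact mul_lt_one_of_nonneg_of_lt_one_right h4 zero_le' h3
      have h6 : v.valuation K γ < 1 := (pow_lt_one_iff_of_nonneg zero_le' hp.ne_zero).1 h5
      have h7 : ((p : ℕ) : 𝓞 K) ∉ v.asIdeal := fun h8 => not_le.2 h6 (hpv v h8)
      have h8 := val_nat v p h7
      have h9 := geom_sub_le v p ρ h1.le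
      refine ⟨0, ?_⟩
      have e : (∑ i ∈ range p, ρ ^ i) = p - (p - ∑ i ∈ range p, ρ ^ i) := by ring
      have h10 : v.valuation K (p - ∑ i ∈ range p, ρ ^ i) < v.valuation K (p : K) := by
        rw [h8, Valuation.map_sub_swap]
        exact h9.trans_lt h3
      rw [e, Valuation.map_sub_eq_of_lt_left _ h10, h8]
      simp
  · have h2 : v.valuation K (ρ - 1) = v.valuation K ρ := by
      apply Valuation.map_sub_eq_of_lt_left
      rwa [map_one]
    have h3 : v.valuation K (ρ ^ p - 1) = v.valuation K ρ ^ p := by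
      rw [Valuation.map_sub_eq_of_lt_left, map_pow]
      rw [map_one, map_pow]
      exact one_lt_pow₀ h1 hp.ne_zero
    rw [h2, ← hpow, h3, hg, ha, ← WithZero.exp_add, ← WithZero.exp_nsmul] at hGv
    have h4 := WithZero.exp_injective hGv
    refine ⟨(p - 1) * a, ?_⟩
    rw [hg]
    congr 1
    simp only [nsmul_eq_mul] at h4
    linear_combination h4

/-- the quotient at a prime which divides the variable -/
theorem loc_exc (P : HeightOneSpectrum (𝓞 K)) (hK : Module.finrank ℚ K = 2) (p q : ℕ) (hp : p.Prime)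
    (hq : q.Prime) (hq2 : q ≠ 2) (hpq : p ≠ q) (hqP : ((q : ℕ) : 𝓞 K) ∈ P.asIdeal)
    (hres : ∀ s : K, P.valuation K s = 1 → P.valuation K (s ^ p - 1) < 1 → P.valuation K (s - 1) < 1)
    (z x : K) (h : z ^ (q * p) = 1 + x ^ (q * p)) (hx : P.valuation K x < 1) :
    P.valuation K (∑ i ∈ range p, (z ^ q) ^ i) = 1 ∧
      P.valuation K ((∑ i ∈ range p, (z ^ q) ^ i) - p) < P.valuation K (q : K) := by
  have hxp : P.valuation K (x ^ (q * p)) < 1 := by
    rw [map_pow]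
    exact pow_lt_one₀ zero_le' hx (mul_ne_zero hq.ne_zero hp.ne_zero)
  have hz : P.valuation K (z ^ q) = 1 := by
    have h3 : P.valuation K ((z ^ q) ^ p) = 1 := by
      rw [← pow_mul, h, Valuation.map_add_eq_of_lt_left, map_one]
      rw [map_one]
      exact hxp
    rw [map_pow] at h3
    exact (pow_eq_one_iff_of_nonneg zero_le' hp.ne_zero).1 h3
  have hz1 : P.valuation K (z ^ q - 1) < 1 := by
    apply hres _ hz
    rw [← pow_mul, h, add_sub_cancel_left]
    exact hxp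
  have hp1 : P.valuation K (p : K) = 1 := by
    have := wq_int P q hq hqP (p : ℤ) (by
      rw [Int.natCast_dvd_natCast, Nat.prime_dvd_prime_iff_eq hq hp]
      exact hpq.symm)
    simpa using this
  have hGsub := geom_sub_le P p (z ^ q) hz.le
  have hG1 : P.valuation K (∑ i ∈ range p, (z ^ q) ^ i) = 1 := by
    have e : (∑ i ∈ range p, (z ^ q) ^ i) = p + ((∑ i ∈ range p, (z ^ q) ^ i) - p) := by ring
    rw [e, Valuation.map_add_eq_of_lt_left, hp1]
    rw [hp1]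
    exact hGsub.trans_lt hz1
  refine ⟨hG1, hGsub.trans_lt ?_⟩
  have h3 : P.valuation K (z ^ q - 1) = P.valuation K (x ^ p) ^ q := by
    have hG : (∑ i ∈ range p, (z ^ q) ^ i) * (z ^ q - 1) = x ^ (q * p) := by
      rw [geom_sum_mul, ← pow_mul, h]
      ring
    rw [← map_pow, ← pow_mul, mul_comm p q, ← hG, map_mul, hG1, one_mul]
  rw [h3]
  apply small_pow P q hK hq hq2
  rw [map_pow]
  exact pow_lt_one₀ zero_le' hx hp.ne_zero

/-- geometric sums of small elements -/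
theorem geom_small (P : HeightOneSpectrum (𝓞 K)) (p : ℕ) (hp : p ≠ 0) (ρ : K)
    (h : P.valuation K ρ ≤ 1) :
    P.valuation K ((∑ i ∈ range p, ρ ^ i) - 1) ≤ P.valuation K ρ := by
  obtain ⟨k, rfl⟩ := Nat.exists_eq_succ_of_ne_zero hp
  rw [sum_range_succ', pow_zero, add_sub_cancel_right]
  refine Valuation.map_sum_le _ fun i _ => ?_
  rw [pow_succ, map_mul, map_pow]
  exact mul_le_of_le_one_left' (pow_le_one' h i)

/-- arithmetic modulo the square of `q` -/
theorem dvd_wief (p q : ℕ) (hp : p.Prime) (hq : q.Prime) (hq2 : q ≠ 2) (hpq : p ≠ q)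
    (h : (q : ℤ) ^ 2 ∣ (p : ℤ) ^ q - p ∨ (q : ℤ) ^ 2 ∣ ((p : ℤ) ^ 2) ^ q - (p : ℤ) ^ 2) :
    q ^ 2 ∣ p ^ (q - 1) - 1 := by
  have hcop : IsCoprime (q : ℤ) (p : ℤ) := by
    rw [Nat.isCoprime_iff_coprime, Nat.coprime_primes hq hp]
    exact hpq.symm
  have hcop2 : IsCoprime ((q : ℤ) ^ 2) (p : ℤ) := hcop.pow_left
  obtain ⟨k, hk⟩ : ∃ k, q = k + 1 := ⟨q - 1, by have := hq.pos; omega⟩
  have hcast : ((p ^ (q - 1) - 1 : ℕ) : ℤ) = (p : ℤ) ^ (q - 1) - 1 := by
    rw [Nat.cast_sub (Nat.one_le_pow _ _ hp.pos)]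
    push_cast
    rfl
  suffices hgoal : (q : ℤ) ^ 2 ∣ (p : ℤ) ^ (q - 1) - 1 by
    have h1 : ((q ^ 2 : ℕ) : ℤ) ∣ ((p ^ (q - 1) - 1 : ℕ) : ℤ) := by
      rw [hcast]
      exact_mod_cast hgoal
    exact Int.natCast_dvd_natCast.1 h1
  have hkq : q - 1 = k := by omega
  rw [hkq]
  rcases h with h | h
  · have e : (p : ℤ) ^ q - p = p * ((p : ℤ) ^ k - 1) := by
      nth_rewrite 1 [hk]
      ring
    rw [e] at h
    exact hcop2.dvd_of_dvd_mul_left h
  · have e : ((p : ℤ) ^ 2) ^ q - (p : ℤ) ^ 2 = p ^ 2 * (((p : ℤ) ^ k + 1) * ((p : ℤ) ^ k - 1)) := by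
      nth_rewrite 1 [hk]
      ring
    rw [e] at h
    have h1 := (hcop2.pow_right (n := 2)).dvd_of_dvd_mul_left h
    -- `p ^ k + 1` is prime to `q`
    have h2 : ¬ (q : ℤ) ∣ (p : ℤ) ^ k + 1 := by
      intro h3
      have h4 : (q : ℤ) ∣ (p : ℤ) ^ k - 1 := by
        have : Fact q.Prime := ⟨hq⟩
        rw [← ZMod.intCast_zmod_eq_zero_iff_dvd _ q]
        push_cast
        rw [← hkq, ZMod.pow_card_sub_one_eq_one, sub_self]
        intro h0
        rw [ZMod.natCast_eq_zero_iff, Nat.prime_dvd_prime_iff_eq hq hp] at h0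
        exact hpq h0.symm
      have h5 : (q : ℤ) ∣ 2 := by
        have := dvd_sub h3 h4
        have e2 : (p : ℤ) ^ k + 1 - ((p : ℤ) ^ k - 1) = 2 := by ring
        rwa [e2] at this
      have h6 : q ∣ 2 := by exact_mod_cast h5
      exact hq2 ((Nat.prime_dvd_prime_iff_eq hq Nat.prime_two).1 h6)
    have h3 : IsCoprime ((q : ℤ) ^ 2) ((p : ℤ) ^ k + 1) :=
      ((Prime.coprime_iff_not_dvd (Nat.prime_iff_prime_int.1 hq)).2 h2).pow_left
    exact h3.dvd_of_dvd_mul_left h1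

/-- the main argument -/
theorem core_odd (P : HeightOneSpectrum (𝓞 K)) (hK : Module.finrank ℚ K = 2) (p q : ℕ)
    (hp : p.Prime) (hq : q.Prime) (hq2 : q ≠ 2) (hpq : p ≠ q)
    (hqP : ((q : ℕ) : 𝓞 K) ∈ P.asIdeal) (hN : NoSol P q)
    (hres : ∀ s : K, P.valuation K s = 1 → P.valuation K (s ^ p - 1) < 1 → P.valuation K (s - 1) < 1)
    (hW : ¬ q ^ 2 ∣ p ^ (q - 1) - 1)
    (z x : K) (hz0 : z ≠ 0) (hx0 : x ≠ 0) (h : z ^ (q * p) = 1 + x ^ (q * p))
    (hx : P.valuation K x < 1) :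
    ∃ v : HeightOneSpectrum (𝓞 K), ((p : ℕ) : 𝓞 K) ∈ v.asIdeal ∧ v.valuation K x < 1 := by
  by_contra hcon
  push Not at hcon
  apply hW
  apply dvd_wief p q hp hq hq2 hpq
  have hqo := hq.odd_of_ne_two hq2
  obtain ⟨hG0, hGE⟩ := even_Gq p q hp (z ^ q) (x ^ q) (pow_ne_zero q hx0)
    (by rw [← pow_mul, ← pow_mul, h]) (EvQ.pow q hz0) (EvQ.pow q hx0) (fun v hv => by
      rw [map_pow]
      exact one_le_pow_of_one_le' (hcon v hv) q)
  obtain ⟨c, hc⟩ := norm_pow_q q hqo _ hG0 hGE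
  obtain ⟨σ, hσ⟩ := exists_conj hK
  have hcc : (c : K) ^ q = (∑ i ∈ range p, (z ^ q) ^ i) * (∑ i ∈ range p, ((σ z) ^ q) ^ i) := by
    have h1 := hσ (∑ i ∈ range p, (z ^ q) ^ i)
    rw [hc] at h1
    push_cast at h1
    rw [h1, map_sum]
    congr 1
    exact sum_congr rfl fun i _ => by rw [map_pow, map_pow]
  obtain ⟨hg1, hg2⟩ := loc_exc P hK p q hp hq hq2 hpq hqP hres z x h hx
  have h' : (σ z) ^ (q * p) = 1 + (σ x) ^ (q * p) := by
    rw [← map_pow, h, map_add, map_one, map_pow]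
  have hsx0 : σ x ≠ 0 := (map_ne_zero σ).2 hx0
  have hsz0 : σ z ≠ 0 := (map_ne_zero σ).2 hz0
  have hpv : P.valuation K (p : K) ≤ 1 := by
    have := w_int_le P (p : ℤ)
    simpa using this
  generalize σ z = z' at hcc h' hsz0
  generalize σ x = x' at h' hsx0
  obtain ⟨g, hgdef⟩ : ∃ g : K, g = ∑ i ∈ range p, (z ^ q) ^ i := ⟨_, rfl⟩
  obtain ⟨g', hgdef'⟩ : ∃ g' : K, g' = ∑ i ∈ range p, (z' ^ q) ^ i := ⟨_, rfl⟩
  rw [← hgdef] at hcc hg1 hg2
  rcases lt_trichotomy (P.valuation K x') 1 with hlt | heq | hgt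
  · -- the prime divides the conjugate of the variable
    right
    obtain ⟨hg1', hg2'⟩ := loc_exc P hK p q hp hq hq2 hpq hqP hres z' x' h' hlt
    rw [← hgdef'] at hcc hg1' hg2'
    have h1 : P.valuation K ((c : K) ^ q - (((p : ℤ) ^ 2 : ℤ) : K)) < P.valuation K (q : K) := by
      have e : (c : K) ^ q - (((p : ℤ) ^ 2 : ℤ) : K) = g * (g' - p) + p * (g - p) := by
        rw [hcc]
        push_cast
        ring
      rw [e]
      refine Valuation.map_add_lt _ ?_ ?_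
      · rw [map_mul, hg1, one_mul]
        exact hg2'
      · rw [map_mul]
        exact (mul_le_of_le_one_left' hpv).trans_lt hg2
    exact final_pow P q hK hq hq2 hqP (c : K) _ h1
  · left
    -- the conjugate of the quotient is one
    have hz1 : P.valuation K z' < 1 := by
      have hz2 : P.valuation K z' ≤ 1 := by
        have h1 : P.valuation K (z' ^ (q * p)) ≤ 1 := by
          rw [h']
          refine (Valuation.map_add _ _ _).trans (max_le (by rw [map_one]) ?_)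
          rw [map_pow, heq, one_pow]
        rw [map_pow] at h1
        exact (pow_le_one_iff_of_nonneg zero_le' (mul_ne_zero hq.ne_zero hp.ne_zero)).1 h1
      refine lt_of_le_of_ne hz2 fun hz3 => ?_
      refine NoSol.elim P q hK hq hq2 hqP hN (z' ^ p) (x' ^ p) ?_ ?_ ?_
      · rw [map_pow, hz3, one_pow]
      · rw [map_pow, heq, one_pow]
      · rw [← pow_mul, ← pow_mul, mul_comm p q, h']
    have h2 : P.valuation K (g' - 1) < P.valuation K (q : K) := by
      rw [hgdef']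
      refine (geom_small P p hp.ne_zero (z' ^ q) ?_).trans_lt ?_
      · rw [map_pow]
        exact pow_le_one' hz1.le q
      · rw [map_pow]
        exact small_pow P q hK hq hq2 z' hz1
    rw [← hgdef'] at hcc
    have h1 : P.valuation K ((c : K) ^ q - ((p : ℤ) : K)) < P.valuation K (q : K) := by
      have e : (c : K) ^ q - ((p : ℤ) : K) = g * (g' - 1) + (g - p) := by
        rw [hcc]
        push_cast
        ring
      rw [e]
      refine Valuation.map_add_lt _ ?_ hg2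
      rw [map_mul, hg1, one_mul]
      exact h2
    exact final_pow P q hK hq hq2 hqP (c : K) _ h1
  · left
    -- the conjugate of the quotient is a power
    have hz1 : P.valuation K z'⁻¹ < 1 := by
      rw [map_inv₀]
      apply inv_lt_one_of_one_lt₀
      have h1 : 1 < P.valuation K (z' ^ (q * p)) := by
        have hxx : 1 < P.valuation K (x' ^ (q * p)) := by
          rw [map_pow]
          exact one_lt_pow₀ hgt (mul_ne_zero hq.ne_zero hp.ne_zero)
        rw [h', Valuation.map_add_eq_of_lt_right]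
        · exact hxx
        · rw [map_one]
          exact hxx
      rw [map_pow] at h1
      by_contra hcon'
      push Not at hcon'
      exact absurd h1 (not_lt.2 (pow_le_one' hcon' _))
    obtain ⟨g2, hg2def⟩ : ∃ g2 : K, g2 = ∑ i ∈ range p, ((z'⁻¹) ^ q) ^ i := ⟨_, rfl⟩
    have h2 : P.valuation K (g2 - 1) < P.valuation K (q : K) := by
      rw [hg2def]
      refine (geom_small P p hp.ne_zero (z'⁻¹ ^ q) ?_).trans_lt ?_
      · rw [map_pow]
        exact pow_le_one' hz1.le q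
      · rw [map_pow]
        exact small_pow P q hK hq hq2 z'⁻¹ hz1
    -- the reversed sum
    have hrev : (∑ i ∈ range p, (z' ^ q) ^ i) = (z' ^ (p - 1)) ^ q * g2 := by
      rw [hg2def, ← sum_range_reflect, mul_sum]
      refine sum_congr rfl fun i hi => ?_
      rw [mem_range] at hi
      have e1 : (z' ^ (p - 1)) ^ q = (z' ^ q) ^ (p - 1 - i) * (z' ^ q) ^ i := by
        rw [← pow_add, ← pow_mul, ← pow_mul, mul_comm (p - 1) q]
        congr 2
        omega
      rw [e1, inv_pow, inv_pow, mul_assoc, mul_inv_cancel₀ (pow_ne_zero _ (pow_ne_zero _ hsz0)),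
        mul_one]
    have hh0 : (z' ^ (p - 1)) ^ q ≠ 0 := pow_ne_zero _ (pow_ne_zero _ hsz0)
    have hs : ((c : K) / z' ^ (p - 1)) ^ q = g * g2 := by
      rw [div_pow, hcc, hrev]
      field_simp
    have h1 : P.valuation K (((c : K) / z' ^ (p - 1)) ^ q - ((p : ℤ) : K)) <
        P.valuation K (q : K) := by
      have e : ((c : K) / z' ^ (p - 1)) ^ q - ((p : ℤ) : K) = g * (g2 - 1) + (g - p) := by
        rw [hs]
        push_cast
        ring
      rw [e]
      refine Valuation.map_add_lt _ ?_ hg2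
      rw [map_mul, hg1, one_mul]
      exact h2
    exact final_pow P q hK hq hq2 hqP _ _ h1

/-- the main statement for the exponent `q p` -/
theorem main_qp (P : HeightOneSpectrum (𝓞 K)) (hK : Module.finrank ℚ K = 2) (p q : ℕ)
    (hp : p.Prime) (hp2 : p ≠ 2) (hq : q.Prime) (hq2 : q ≠ 2) (hpq : p ≠ q)
    (hqP : ((q : ℕ) : 𝓞 K) ∈ P.asIdeal) (hN : NoSol P q)
    (hres : ∀ s : K, P.valuation K s = 1 → P.valuation K (s ^ p - 1) < 1 → P.valuation K (s - 1) < 1)
    (hW : ¬ q ^ 2 ∣ p ^ (q - 1) - 1)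
    (X Y Z : K) (hX : X ≠ 0) (hY : Y ≠ 0) (hZ : Z ≠ 0)
    (h : X ^ (q * p) + Y ^ (q * p) = Z ^ (q * p)) :
    ∃ v : HeightOneSpectrum (𝓞 K), ((p : ℕ) : 𝓞 K) ∈ v.asIdeal ∧
      ((Exc P X Y Z ∧ Exc v X Y Z) ∨ (Exc P Y X Z ∧ Exc v Y X Z) ∨
        (Exc P Z X Y ∧ Exc v Z X Y)) := by
  have hn : q * p ≠ 0 := mul_ne_zero hq.ne_zero hp.ne_zero
  have hodd : Odd (q * p) := (hq.odd_of_ne_two hq2).mul (hp.odd_of_ne_two hp2)
  have h' : Y ^ (q * p) + X ^ (q * p) = Z ^ (q * p) := by rw [add_comm]; exact h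
  have fZ : ∀ v : HeightOneSpectrum (𝓞 K), v.valuation K Z < v.valuation K Y → Exc v Z X Y := by
    intro v hv
    have h1 : v.valuation K (X ^ (q * p)) = v.valuation K (Y ^ (q * p)) := by
      have e : X ^ (q * p) = Z ^ (q * p) - Y ^ (q * p) := by rw [← h]; ring
      rw [e, Valuation.map_sub_eq_of_lt_right]
      rw [map_pow, map_pow]
      exact pow_lt_pow_left₀ hv zero_le' hn
    rw [map_pow, map_pow] at h1
    have h3 := (pow_left_inj₀ zero_le' zero_le' hn).1 h1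
    exact ⟨by rw [h3]; exact hv, h3⟩
  have hdiv : ∀ a b : K, b ≠ 0 → ∀ v : HeightOneSpectrum (𝓞 K), v.valuation K (a / b) < 1 →
      v.valuation K a < v.valuation K b := by
    intro a b hb v hv
    have hb' : 0 < v.valuation K b := zero_lt_iff.2 ((Valuation.ne_zero_iff _).2 hb)
    rw [map_div₀, div_lt_one₀ hb'] at hv
    exact hv
  have hdiv' : ∀ a b : K, b ≠ 0 → ∀ v : HeightOneSpectrum (𝓞 K), v.valuation K a < v.valuation K b →
      v.valuation K (a / b) < 1 := by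
    intro a b hb v hv
    have hb' : 0 < v.valuation K b := zero_lt_iff.2 ((Valuation.ne_zero_iff _).2 hb)
    rw [map_div₀, div_lt_one₀ hb']
    exact hv
  have eq1 : ∀ X Y : K, Y ≠ 0 → X ^ (q * p) + Y ^ (q * p) = Z ^ (q * p) →
      (Z / Y) ^ (q * p) = 1 + (X / Y) ^ (q * p) := by
    intro X Y hY h
    have hY' : Y ^ (q * p) ≠ 0 := pow_ne_zero _ hY
    rw [div_pow, div_pow, ← h]
    field_simp
    ring
  have eq2 : (-X / Y) ^ (q * p) = 1 + (-Z / Y) ^ (q * p) := by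
    have hY' : Y ^ (q * p) ≠ 0 := pow_ne_zero _ hY
    rw [div_pow, div_pow, hodd.neg_pow, hodd.neg_pow, ← h]
    field_simp
    ring
  have main : ∀ A B C : K, A ≠ 0 → B ≠ 0 → C ≠ 0 →
      (C / B) ^ (q * p) = 1 + (A / B) ^ (q * p) → P.valuation K A < P.valuation K B →
      ∃ v : HeightOneSpectrum (𝓞 K), ((p : ℕ) : 𝓞 K) ∈ v.asIdeal ∧
        v.valuation K A < v.valuation K B := by
    intro A B C hA hB hC heq hlt
    obtain ⟨v, hv, hv1⟩ := core_odd P hK p q hp hq hq2 hpq hqP hN hres hW (C / B) (A / B)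
      (div_ne_zero hC hB) (div_ne_zero hA hB) heq (hdiv' A B hB P hlt)
    exact ⟨v, hv, hdiv A B hB v hv1⟩
  rcases lt_trichotomy (P.valuation K X) (P.valuation K Y) with hlt | heq | hgt
  · obtain ⟨v, hv, hv1⟩ := main X Y Z hX hY hZ (eq1 X Y hY h) hlt
    exact ⟨v, hv, Or.inl ⟨exc_of_lt P _ hn X Y Z h hlt, exc_of_lt v _ hn X Y Z h hv1⟩⟩
  · have hZle : P.valuation K Z ≤ P.valuation K Y := by
      have h1 : P.valuation K (Z ^ (q * p)) ≤ P.valuation K Y ^ (q * p) := by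
        rw [← h]
        refine (Valuation.map_add _ _ _).trans (max_le ?_ ?_)
        · rw [map_pow, heq]
        · rw [map_pow]
      rw [map_pow] at h1
      exact (pow_le_pow_iff_left₀ zero_le' zero_le' hn).1 h1
    rcases hZle.lt_or_eq with hZlt | hZeq
    · obtain ⟨v, hv, hv1⟩ := main (-Z) Y (-X) (neg_ne_zero.2 hZ) hY (neg_ne_zero.2 hX) eq2
        (by rw [Valuation.map_neg]; exact hZlt)
      rw [Valuation.map_neg] at hv1
      exact ⟨v, hv, Or.inr (Or.inr ⟨fZ P hZlt, fZ v hv1⟩)⟩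
    · exfalso
      have hone : ∀ a b : K, b ≠ 0 → P.valuation K a = P.valuation K b →
          P.valuation K ((a / b) ^ p) = 1 := by
        intro a b hb hab
        rw [map_pow, map_div₀, hab, div_self ((Valuation.ne_zero_iff _).2 hb), one_pow]
      refine NoSol.elim P q hK hq hq2 hqP hN ((Z / Y) ^ p) ((X / Y) ^ p) (hone Z Y hY hZeq)
        (hone X Y hY heq) ?_
      rw [← pow_mul, ← pow_mul, mul_comm p q, eq1 X Y hY h]
  · obtain ⟨v, hv, hv1⟩ := main Y X Z hY hX hZ (eq1 Y X hX h') hgt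
    exact ⟨v, hv, Or.inr (Or.inl ⟨exc_of_lt P _ hn Y X Z h' hgt, exc_of_lt v _ hn Y X Z h' hv1⟩)⟩

/-- exponents divisible by `3 p` -/
theorem main_three (hK : Module.finrank ℚ K = 2) (p n : ℕ) (hp : p.Prime) (h5 : 5 ≤ p)
    (h9 : p % 9 ≠ 1 ∧ p % 9 ≠ 8) (hn : 3 * p ∣ n)
    (X Y Z : K) (hX : X ≠ 0) (hY : Y ≠ 0) (hZ : Z ≠ 0) (h : X ^ n + Y ^ n = Z ^ n)
    (P : HeightOneSpectrum (𝓞 K)) (h3P : (3 : 𝓞 K) ∈ P.asIdeal) :
    ∃ v : HeightOneSpectrum (𝓞 K), ((p : ℕ) : 𝓞 K) ∈ v.asIdeal ∧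
      ((Exc P X Y Z ∧ Exc v X Y Z) ∨ (Exc P Y X Z ∧ Exc v Y X Z) ∨
        (Exc P Z X Y ∧ Exc v Z X Y)) := by
  have h3P' : ((3 : ℕ) : 𝓞 K) ∈ P.asIdeal := by exact_mod_cast h3P
  obtain ⟨k, rfl⟩ := hn
  have hk : k ≠ 0 := by
    rintro rfl
    rw [mul_zero, pow_zero, pow_zero, pow_zero] at h
    have : (1 : K) = 0 := by linear_combination h
    exact one_ne_zero this
  have hF : (X ^ k) ^ (3 * p) + (Y ^ k) ^ (3 * p) = (Z ^ k) ^ (3 * p) := by
    rw [← pow_mul, ← pow_mul, ← pow_mul, mul_comm k (3 * p), h]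
  have hodd := hp.odd_of_ne_two (by omega)
  have hW : ¬ 3 ^ 2 ∣ p ^ (3 - 1) - 1 := by
    intro hd
    have h1 : 1 ≤ p ^ 2 := Nat.one_le_pow _ _ hp.pos
    have h2 : p ^ 2 % 9 = 1 := by
      norm_num at hd
      omega
    have h3 : (p % 9) ^ 2 % 9 = 1 := by rw [← Nat.pow_mod]; exact h2
    have h4 : p % 9 < 9 := Nat.mod_lt _ (by norm_num)
    obtain ⟨t, ht⟩ : ∃ t, t = p % 9 := ⟨_, rfl⟩
    rw [← ht] at h3 h4 h9
    obtain ⟨h91, h98⟩ := h9
    interval_cases t <;> omega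
  obtain ⟨v, hv, h3⟩ := main_qp P hK p 3 hp (by omega) Nat.prime_three (by norm_num) (by omega)
    h3P' (noSol_three P) (fun s hs hsp => one_of_coprime P s hs p 8 (by
      rw [show 8 = 2 ^ 3 by norm_num]
      exact Nat.Coprime.pow_right 3 hodd.coprime_two_right) hsp (pow_eight P hK h3P' s hs)) hW
    _ _ _ (pow_ne_zero k hX) (pow_ne_zero k hY) (pow_ne_zero k hZ) hF
  simp only [exc_pow _ k hk] at h3
  exact ⟨v, hv, h3⟩

end

end Pool.Agent.Zk43.FQ
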