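import Pool.Agent.Zk43.FQ.OddMain

/-!
# Fermat's equation over quadratic fields for exponents `p q`: the primes above `p` and above `q`
divide the variables in the same way
-/

set_option autoImplicit false

namespace Pool.Agent.Zk43.FQ

open NumberField IsDedekindDomain Polynomial Finset

section

variable {K : Type} [Field K] [NumberField K]

/-- the conjugate of a prime -/
theorem exists_conj_prime (σ : K ≃ₐ[ℚ] K) (P : HeightOneSpectrum (𝓞 K)) :
    ∃ P' : HeightOneSpectrum (𝓞 K), ∀ y : K, P'.valuation K y = P.valuation K (σ y) := by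
  let rs : 𝓞 K ≃+* 𝓞 K := RingOfIntegers.mapRingEquiv σ.toRingEquiv
  let P' : HeightOneSpectrum (𝓞 K) :=
    { asIdeal := P.asIdeal.comap (rs : 𝓞 K →+* 𝓞 K)
      isPrime := P.isPrime.comap _
      ne_bot := by
        intro h
        apply P.ne_bot
        rw [eq_bot_iff]
        intro x hx
        have h1 : rs.symm x ∈ P.asIdeal.comap (rs : 𝓞 K →+* 𝓞 K) := by
          rw [Ideal.mem_comap]
          simpa using hx
        rw [h, Ideal.mem_bot] at h1
        rw [Ideal.mem_bot]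
        simpa using congrArg rs h1 }
  have hpow : ∀ (n : ℕ) (y : 𝓞 K), y ∈ P'.asIdeal ^ n ↔ rs y ∈ P.asIdeal ^ n := by
    intro n y
    have h1 : P'.asIdeal = P.asIdeal.map rs.symm := by
      rw [Ideal.map_symm]
      rfl
    rw [h1, ← Ideal.map_pow, Ideal.map_symm, Ideal.mem_comap]
  have hint : ∀ y : 𝓞 K, P'.intValuation y = P.intValuation (rs y) := by
    intro y
    by_cases hy : y = 0
    · rw [hy, map_zero, map_zero, map_zero]
    have hy' : rs y ≠ 0 := fun h => hy (by simpa using h)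
    rw [HeightOneSpectrum.intValuation_if_neg _ hy, HeightOneSpectrum.intValuation_if_neg _ hy']
    have key : ∀ n : ℕ, n ≤ (Associates.mk P'.asIdeal).count (Associates.mk (Ideal.span {y})).factors ↔
        n ≤ (Associates.mk P.asIdeal).count (Associates.mk (Ideal.span {rs y})).factors := by
      intro n
      have h1 := P'.intValuation_le_pow_iff_mem y n
      have h2 := P.intValuation_le_pow_iff_mem (rs y) n
      rw [HeightOneSpectrum.intValuation_if_neg _ hy, WithZero.exp_le_exp] at h1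
      rw [HeightOneSpectrum.intValuation_if_neg _ hy', WithZero.exp_le_exp] at h2
      rw [hpow, ← h2] at h1
      constructor
      · intro h
        have := h1.1 (by omega)
        omega
      · intro h
        have := h1.2 (by omega)
        omega
    have h3 := le_antisymm ((key _).1 le_rfl) ((key _).2 le_rfl)
    rw [h3]
  refine ⟨P', fun y => ?_⟩
  obtain ⟨a, b, hb, rfl⟩ := IsFractionRing.div_surjective (A := 𝓞 K) y
  rw [map_div₀, map_div₀, map_div₀]
  have h1 : ∀ a : 𝓞 K, P'.valuation K (algebraMap (𝓞 K) K a) =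
      P.valuation K (σ (algebraMap (𝓞 K) K a)) := by
    intro a
    have h2 : σ (algebraMap (𝓞 K) K a) = algebraMap (𝓞 K) K (rs a) := rfl
    rw [h2, HeightOneSpectrum.valuation_of_algebraMap, HeightOneSpectrum.valuation_of_algebraMap,
      hint]
  rw [h1, h1]

theorem mem_of_val (P P' : HeightOneSpectrum (𝓞 K)) (σ : K ≃ₐ[ℚ] K)
    (h : ∀ y : K, P'.valuation K y = P.valuation K (σ y)) (q : ℕ) (hq : ((q : ℕ) : 𝓞 K) ∈ P.asIdeal) :
    ((q : ℕ) : 𝓞 K) ∈ P'.asIdeal := by
  have h1 := (P.valuation_lt_one_iff_mem (K := K) ((q : ℕ) : 𝓞 K)).2 hq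
  apply (P'.valuation_lt_one_iff_mem (K := K) ((q : ℕ) : 𝓞 K)).1
  have e : algebraMap (𝓞 K) K ((q : ℕ) : 𝓞 K) = (q : K) := map_natCast _ q
  change P.valuation K (algebraMap (𝓞 K) K ((q : ℕ) : 𝓞 K)) < 1 at h1
  change P'.valuation K (algebraMap (𝓞 K) K ((q : ℕ) : 𝓞 K)) < 1
  rw [e] at h1 ⊢
  rw [h, map_natCast]
  exact h1

/-- the value of the quotient at a prime above `p` which divides the variable -/
theorem val_G_p (v : HeightOneSpectrum (𝓞 K)) (hK : Module.finrank ℚ K = 2) (p : ℕ) (hp : p.Prime)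
    (h5 : 5 ≤ p) (hpv : ((p : ℕ) : 𝓞 K) ∈ v.asIdeal) (ρ γ : K) (h : ρ ^ p = 1 + γ ^ p)
    (hγ : v.valuation K γ < 1) :
    v.valuation K (∑ i ∈ range p, ρ ^ i) = v.valuation K (p : K) := by
  have hγp : v.valuation K (γ ^ p) < 1 := by
    rw [map_pow]
    exact pow_lt_one₀ zero_le' hγ hp.ne_zero
  have hρ1 : v.valuation K ρ = 1 := by
    have h3 : v.valuation K (ρ ^ p) = 1 := by
      rw [h, Valuation.map_add_eq_of_lt_left, map_one]
      rw [map_one]
      exact hγp
    rw [map_pow] at h3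
    exact (pow_eq_one_iff_of_nonneg zero_le' hp.ne_zero).1 h3
  have hρ2 : v.valuation K (ρ - 1) < 1 := by
    apply close_of_pow v p hp hpv 1 ρ (by rw [map_one]) hρ1.le
    rw [one_pow, h, add_sub_cancel_left]
    exact hγp
  obtain ⟨f, hf⟩ : ∃ f : K, f = ρ - 1 := ⟨_, rfl⟩
  rw [← hf] at hρ2
  have hρf : ρ = 1 + f := by rw [hf]; ring
  by_cases hf0 : f = 0
  · have hρ0 : ρ = 1 := by rw [hρf, hf0, add_zero]
    rw [hρ0]
    simp
  -- the binomial theorem
  obtain ⟨R, hR⟩ : ∃ R : K, R = ∑ k ∈ Ioo 0 p, (1 : K) ^ (k - 1) * f ^ (p - k - 1) *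
      ((p.choose k / p : ℕ) : K) := ⟨_, rfl⟩
  have hexp : (1 + f) ^ p = 1 + f ^ p + p * f * R := by
    have h1 := add_pow_prime_eq hp (1 : K) f
    rw [one_pow, mul_one] at h1
    rw [h1, hR]
  have hR1 : v.valuation K (R - 1) < 1 := by
    have hmem : p - 1 ∈ Ioo 0 p := by
      rw [mem_Ioo]
      omega
    rw [hR, ← add_sum_erase _ _ hmem]
    have e1 : (1 : K) ^ (p - 1 - 1) * f ^ (p - (p - 1) - 1) * ((p.choose (p - 1) / p : ℕ) : K) = 1 := by
      have e2 : p - (p - 1) - 1 = 0 := by omega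
      have e3 : p.choose (p - 1) = p := by
        have : p - 1 = p.pred := rfl
        rw [← Nat.choose_symm (by omega : p - 1 ≤ p)]
        have : p - (p - 1) = 1 := by omega
        rw [this, Nat.choose_one_right]
      rw [e2, e3, Nat.div_self hp.pos]
      simp
    rw [e1, add_sub_cancel_left]
    have hlt : v.valuation K (∑ k ∈ (Ioo 0 p).erase (p - 1), (1 : K) ^ (k - 1) * f ^ (p - k - 1) *
        ((p.choose k / p : ℕ) : K)) ≤ v.valuation K f := by
      refine Valuation.map_sum_le _ fun k hk => ?_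
      rw [mem_erase, mem_Ioo] at hk
      obtain ⟨hk1, hk2, hk3⟩ := hk
      obtain ⟨j, hj⟩ : ∃ j, p - k - 1 = j + 1 := ⟨p - k - 2, by omega⟩
      rw [one_pow, one_mul, hj, map_mul, pow_succ, map_mul, map_pow]
      have h1 : v.valuation K (((p.choose k / p : ℕ)) : K) ≤ 1 := by
        have := w_int_le v ((p.choose k / p : ℕ) : ℤ)
        rw [Int.cast_natCast] at this
        exact this
      calc v.valuation K f ^ j * v.valuation K f * v.valuation K (((p.choose k / p : ℕ)) : K)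
          ≤ v.valuation K f ^ j * v.valuation K f * 1 := by
            exact mul_le_mul_right h1 _
        _ = v.valuation K f ^ j * v.valuation K f := mul_one _
        _ ≤ v.valuation K f := mul_le_of_le_one_left' (pow_le_one' hρ2.le j)
    exact hlt.trans_lt hρ2
  have hR2 : v.valuation K R = 1 := by
    have e : R = 1 + (R - 1) := by ring
    rw [e, Valuation.map_add_eq_of_lt_left, map_one]
    rw [map_one]
    exact hR1
  -- the quotient
  have hG : (∑ i ∈ range p, ρ ^ i) = f ^ (p - 1) + p * R := by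
    apply mul_right_cancel₀ hf0
    have h1 : (∑ i ∈ range p, ρ ^ i) * f = ρ ^ p - 1 := by rw [hf]; exact geom_sum_mul ρ p
    rw [h1, hρf, hexp]
    have h2 : f ^ (p - 1) * f = f ^ p := by
      rw [← pow_succ, Nat.sub_add_cancel hp.one_lt.le]
    linear_combination -h2
  have hsmall : v.valuation K (f ^ (p - 1)) < v.valuation K (p : K) := by
    obtain ⟨k, hk⟩ := val_exists v f hf0
    have hk1 : k ≤ -1 := by
      rw [hk] at hρ2
      have h3 : WithZero.exp k < WithZero.exp (0 : ℤ) := by simpa using hρ2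
      rw [WithZero.exp_lt_exp] at h3
      omega
    refine lt_of_lt_of_le ?_ (wq_ge v p hK hp)
    rw [map_pow, hk, ← WithZero.exp_nsmul, WithZero.exp_lt_exp]
    simp only [nsmul_eq_mul]
    have hp4 : (4 : ℤ) ≤ ((p - 1 : ℕ) : ℤ) := by
      have : 4 ≤ p - 1 := by omega
      exact_mod_cast this
    nlinarith
  have hpR : v.valuation K (p * R) = v.valuation K (p : K) := by rw [map_mul, hR2, mul_one]
  rw [hG, Valuation.map_add_eq_of_lt_right]
  · exact hpR
  · rw [hpR]
    exact hsmall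

/-- the value of the quotient at a prime which is not above `p` or does not divide the variable -/
theorem even_at (p q : ℕ) (hp : p.Prime) (v : HeightOneSpectrum (𝓞 K)) (ρ γ : K) (hγ0 : γ ≠ 0)
    (h : ρ ^ p = 1 + γ ^ p) (hρ : EvQ q ρ) (hγ : EvQ q γ)
    (hpv : ((p : ℕ) : 𝓞 K) ∈ v.asIdeal → 1 ≤ v.valuation K γ) :
    ∃ m : ℤ, v.valuation K (∑ i ∈ range p, ρ ^ i) = WithZero.exp (q * m) := by
  have hG : (∑ i ∈ range p, ρ ^ i) * (ρ - 1) = γ ^ p := by
    rw [geom_sum_mul, h]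
    ring
  have hne : (∑ i ∈ range p, ρ ^ i) ≠ 0 := by
    intro h0
    rw [h0, zero_mul] at hG
    exact pow_ne_zero p hγ0 hG.symm
  have hGv : v.valuation K (∑ i ∈ range p, ρ ^ i) * v.valuation K (ρ - 1) =
      v.valuation K γ ^ p := by rw [← map_mul, hG, map_pow]
  obtain ⟨a, ha⟩ := hρ v
  obtain ⟨c, hc⟩ := hγ v
  obtain ⟨g, hg⟩ := val_exists v _ hne
  have hpow : v.valuation K (ρ ^ p - 1) = v.valuation K γ ^ p := by
    rw [h, add_sub_cancel_left, map_pow]
  rcases lt_trichotomy (v.valuation K ρ) 1 with h1 | h1 | h1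
  · have h2 : v.valuation K (ρ - 1) = 1 := by
      rw [Valuation.map_sub_eq_of_lt_right, map_one]
      rwa [map_one]
    have h3 : v.valuation K (ρ ^ p - 1) = 1 := by
      rw [Valuation.map_sub_eq_of_lt_right, map_one]
      rw [map_one, map_pow]
      exact pow_lt_one₀ zero_le' h1 hp.ne_zero
    refine ⟨0, ?_⟩
    rw [h2, mul_one, ← hpow, h3] at hGv
    rw [hGv]
    simp
  · by_cases h2 : v.valuation K (ρ - 1) = 1
    · rw [h2, mul_one, hc, ← WithZero.exp_nsmul] at hGv
      refine ⟨p * c, ?_⟩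
      rw [hGv]
      congr 1
      simp only [nsmul_eq_mul]
      ring
    · have h3 : v.valuation K (ρ - 1) < 1 := by
        refine lt_of_le_of_ne ?_ h2
        refine (Valuation.map_sub _ _ _).trans (max_le h1.le ?_)
        rw [map_one]
      have h4 : v.valuation K (∑ i ∈ range p, ρ ^ i) ≤ 1 := by
        refine Valuation.map_sum_le _ fun j _ => ?_
        rw [map_pow]
        exact pow_le_one' h1.le j
      have h5 : v.valuation K γ ^ p < 1 := by
        rw [← hGv]
        exact mul_lt_one_of_nonneg_of_lt_one_right h4 zero_le' h3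
      have h6 : v.valuation K γ < 1 := (pow_lt_one_iff_of_nonneg zero_le' hp.ne_zero).1 h5
      have h7 : ((p : ℕ) : 𝓞 K) ∉ v.asIdeal := fun h8 => not_le.2 h6 (hpv h8)
      have h8 := val_nat v p h7
      have h9 := geom_sub_le v p ρ h1.le
      refine ⟨0, ?_⟩
      have e : (∑ i ∈ range p, ρ ^ i) = p - (p - ∑ i ∈ range p, ρ ^ i) := by ring
      have h10 : v.valuation K (p - ∑ i ∈ range p, ρ ^ i) < v.valuation K (p : K) := by
        rw [h8, Valuation.map_sub_swap]
        exact h9.trans_lt h3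
      rw [e, Valuation.map_sub_eq_of_lt_left _ h10, h8]
      simp
  · have h2 : v.valuation K (ρ - 1) = v.valuation K ρ := by
      apply Valuation.map_sub_eq_of_lt_left
      rwa [map_one]
    have h3 : v.valuation K (ρ ^ p - 1) = v.valuation K ρ ^ p := by
      rw [Valuation.map_sub_eq_of_lt_left, map_pow]
      rw [map_one, map_pow]
      exact one_lt_pow₀ h1 hp.ne_zero
    rw [h2, ← hpow, h3, hg, ha, ← WithZero.exp_add, ← WithZero.exp_nsmul] at hGv
    have h4 := WithZero.exp_injective hGv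
    refine ⟨(p - 1) * a, ?_⟩
    rw [hg]
    congr 1
    simp only [nsmul_eq_mul] at h4
    linear_combination h4

/-- rational numbers whose valuations are divisible by `q` -/
theorem rat_pow (hK : Module.finrank ℚ K = 2) (q : ℕ) (hq : Odd q) (s : ℚ) (hs : s ≠ 0)
    (h : EvQ q (s : K)) : ∃ c : ℚ, c ≠ 0 ∧ s = c ^ q := by
  obtain ⟨n, hn⟩ := norm_pow_q q hq (s : K) (by exact_mod_cast hs) h
  have h1 : Algebra.norm ℚ (s : K) = s ^ 2 := by
    have : (s : K) = algebraMap ℚ K s := by simp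
    rw [this, Algebra.norm_algebraMap, hK]
  rw [h1] at hn
  obtain ⟨m, hm⟩ := hq
  have hn0 : n ≠ 0 := by
    rintro rfl
    rw [zero_pow (by omega)] at hn
    exact pow_ne_zero 2 hs hn
  refine ⟨s / n ^ m, div_ne_zero hs (pow_ne_zero m hn0), ?_⟩
  have h2 : s ^ q = s * (s ^ 2) ^ m := by
    rw [hm]
    ring
  rw [div_pow, eq_div_iff (pow_ne_zero q (pow_ne_zero m hn0)), h2, hn, ← pow_mul, ← pow_mul,
    mul_comm m q]

/-- rational numbers at primes above `p` -/
theorem rat_val (p : ℕ) (hp : p.Prime) (s : ℚ) (hs : s ≠ 0) :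
    ∃ a : ℤ, ∀ v : HeightOneSpectrum (𝓞 K), ((p : ℕ) : 𝓞 K) ∈ v.asIdeal →
      v.valuation K (s : K) = v.valuation K (p : K) ^ a := by
  have hint : ∀ n : ℤ, n ≠ 0 → ∃ a : ℕ, ∀ v : HeightOneSpectrum (𝓞 K),
      ((p : ℕ) : 𝓞 K) ∈ v.asIdeal → v.valuation K (n : K) = v.valuation K (p : K) ^ a := by
    intro n hn
    obtain ⟨a, m, hm, ha⟩ := Nat.exists_eq_pow_mul_and_not_dvd (Int.natAbs_ne_zero.2 hn) p hp.ne_one
    refine ⟨a, fun v hv => ?_⟩
    have h1 : v.valuation K (((m : ℤ) : ℤ) : K) = 1 :=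
      wq_int v p hp hv (m : ℤ) (by rw [Int.natCast_dvd_natCast]; exact hm)
    have h2 : v.valuation K (n : K) = v.valuation K ((n.natAbs : ℤ) : K) := by
      rcases Int.natAbs_eq n with h | h
      · rw [← h]
      · rw [h, Int.cast_neg, Valuation.map_neg, Int.natAbs_neg, Int.natAbs_natCast]
    rw [h2, ha]
    push_cast at h1 ⊢
    rw [map_mul, map_pow, h1, mul_one]
  obtain ⟨a, ha⟩ := hint s.num (Rat.num_ne_zero.2 hs)
  obtain ⟨b, hb⟩ := hint (s.den : ℤ) (by exact_mod_cast s.den_nz)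
  refine ⟨(a : ℤ) - b, fun v hv => ?_⟩
  have h1 : (s : K) = ((s.num : ℤ) : K) / (((s.den : ℤ) : ℤ) : K) := by
    rw [Rat.cast_def]
    simp
  rw [h1, map_div₀, ha v hv, hb v hv, zpow_sub₀ (wq_pos v p hp).ne', zpow_natCast, zpow_natCast]

/-- divisibility of the value of a rational number does not depend on the prime above `p` -/
theorem rat_two (hK : Module.finrank ℚ K = 2) (p q : ℕ) (hp : p.Prime) (hq : q.Prime) (hq2 : q ≠ 2)
    (s : ℚ) (hs : s ≠ 0)
    (v v' : HeightOneSpectrum (𝓞 K)) (hv : ((p : ℕ) : 𝓞 K) ∈ v.asIdeal)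
    (hv' : ((p : ℕ) : 𝓞 K) ∈ v'.asIdeal) (h : ∃ m : ℤ, v.valuation K (s : K) = WithZero.exp (q * m)) :
    ∃ m : ℤ, v'.valuation K (s : K) = WithZero.exp (q * m) := by
  obtain ⟨a, ha⟩ := rat_val (K := K) p hp s hs
  obtain ⟨m, hm⟩ := h
  have hpK : (p : K) ≠ 0 := by exact_mod_cast hp.ne_zero
  obtain ⟨e, he⟩ := val_exists v (p : K) hpK
  obtain ⟨e', he'⟩ := val_exists v' (p : K) hpK
  have h1 := wq_ge v p hK hp
  have h2 := wq_lt v p hv
  rw [he, WithZero.exp_le_exp] at h1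
  have h3 : e ≤ -1 := by
    rw [he] at h2
    have h3 : WithZero.exp e < WithZero.exp (0 : ℤ) := by simpa using h2
    rw [WithZero.exp_lt_exp] at h3
    omega
  rw [ha v hv, he, ← WithZero.exp_zsmul] at hm
  have h4 := WithZero.exp_injective hm
  rw [smul_eq_mul] at h4
  have h5 : (q : ℤ) ∣ a := by
    have h6 : (q : ℤ) ∣ a * e := ⟨m, h4⟩
    rcases (Nat.prime_iff_prime_int.1 hq).dvd_or_dvd h6 with h7 | h7
    · exact h7
    · exfalso
      have h8 : (q : ℤ) ∣ 2 := by
        have h9 : e = -1 ∨ e = -2 := by omega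
        rcases h9 with h9 | h9
        · rw [h9, dvd_neg] at h7
          exact h7.trans (one_dvd 2)
        · rw [h9, dvd_neg] at h7
          exact h7
      have h9 : q ∣ 2 := by exact_mod_cast h8
      exact hq2 ((Nat.prime_dvd_prime_iff_eq hq Nat.prime_two).1 h9)
  obtain ⟨b, hb⟩ := h5
  refine ⟨b * e', ?_⟩
  rw [ha v' hv', he', ← WithZero.exp_zsmul, hb, smul_eq_mul]
  congr 1
  ring

/-- `1` if `v` divides `x`, and `0` otherwise -/
noncomputable def ind (v : HeightOneSpectrum (𝓞 K)) (x : K) : ℕ :=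
  open Classical in if v.valuation K x < 1 then 1 else 0

theorem ind_pos {v : HeightOneSpectrum (𝓞 K)} {x : K} (h : v.valuation K x < 1) : ind v x = 1 := by
  classical
  unfold ind
  exact if_pos h

theorem ind_neg {v : HeightOneSpectrum (𝓞 K)} {x : K} (h : ¬ v.valuation K x < 1) : ind v x = 0 := by
  classical
  unfold ind
  exact if_neg h

/-- the norm of the quotient -/
theorem norm_G (hK : Module.finrank ℚ K = 2) (p q : ℕ) (hp : p.Prime) (h5 : 5 ≤ p) (hq : q.Prime)
    (hq2 : q ≠ 2) (σ : K ≃ₐ[ℚ] K) (hσ : ∀ x : K, ((Algebra.norm ℚ x : ℚ) : K) = x * σ x)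
    (z x : K) (hz0 : z ≠ 0) (hx0 : x ≠ 0) (h : z ^ (q * p) = 1 + x ^ (q * p))
    (v : HeightOneSpectrum (𝓞 K)) (hv : ((p : ℕ) : 𝓞 K) ∈ v.asIdeal) :
    ∃ c : ℚ, c ≠ 0 ∧ (∑ i ∈ range p, (z ^ q) ^ i) * (∑ i ∈ range p, ((σ z) ^ q) ^ i) =
      (p : K) ^ (ind v x + ind v (σ x)) * (c : K) ^ q := by
  obtain ⟨t, ht⟩ : ∃ t : ℚ, t = Algebra.norm ℚ (∑ i ∈ range p, (z ^ q) ^ i) := ⟨_, rfl⟩
  have htK : (t : K) = (∑ i ∈ range p, (z ^ q) ^ i) * (∑ i ∈ range p, ((σ z) ^ q) ^ i) := by
    rw [ht, hσ, map_sum]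
    congr 1
    exact sum_congr rfl fun i _ => by rw [map_pow, map_pow]
  have h' : (σ z) ^ (q * p) = 1 + (σ x) ^ (q * p) := by
    rw [← map_pow, h, map_add, map_one, map_pow]
  have hsx0 : σ x ≠ 0 := (map_ne_zero σ).2 hx0
  have hsz0 : σ z ≠ 0 := (map_ne_zero σ).2 hz0
  have hpK : (p : K) ≠ 0 := by exact_mod_cast hp.ne_zero
  have hpQ : (p : ℚ) ≠ 0 := by exact_mod_cast hp.ne_zero
  have hGne : ∀ z x : K, x ≠ 0 → z ^ (q * p) = 1 + x ^ (q * p) →
      (∑ i ∈ range p, (z ^ q) ^ i) ≠ 0 := by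
    intro z x hx0 h h0
    have hG : (∑ i ∈ range p, (z ^ q) ^ i) * (z ^ q - 1) = x ^ (q * p) := by
      rw [geom_sum_mul, ← pow_mul, h]
      ring
    rw [h0, zero_mul] at hG
    exact pow_ne_zero _ hx0 hG.symm
  have ht0 : t ≠ 0 := by
    intro h0
    rw [h0, Rat.cast_zero] at htK
    exact mul_ne_zero (hGne z x hx0 h) (hGne (σ z) (σ x) hsx0 h') htK.symm
  -- the values of the two factors
  have hval : ∀ (v : HeightOneSpectrum (𝓞 K)) (z x : K), z ≠ 0 → x ≠ 0 →
      z ^ (q * p) = 1 + x ^ (q * p) →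
      ∃ m : ℤ, v.valuation K (∑ i ∈ range p, (z ^ q) ^ i) =
        v.valuation K (p : K) ^ (ind v x) * WithZero.exp (q * m) ∨
        (((p : ℕ) : 𝓞 K) ∉ v.asIdeal ∧
          v.valuation K (∑ i ∈ range p, (z ^ q) ^ i) = WithZero.exp (q * m)) := by
    intro v z x hz0 hx0 h
    by_cases hpv : ((p : ℕ) : 𝓞 K) ∈ v.asIdeal
    · by_cases hx : v.valuation K x < 1
      · refine ⟨0, Or.inl ?_⟩
        rw [ind_pos hx, pow_one]
        have h1 := val_G_p v hK p hp h5 hpv (z ^ q) (x ^ q) (by rw [← pow_mul, ← pow_mul, h]) (by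
          rw [map_pow]
          exact pow_lt_one₀ zero_le' hx hq.ne_zero)
        rw [h1]
        simp
      · obtain ⟨m, hm⟩ := even_at p q hp v (z ^ q) (x ^ q) (pow_ne_zero q hx0)
          (by rw [← pow_mul, ← pow_mul, h]) (EvQ.pow q hz0) (EvQ.pow q hx0) (fun _ => by
            rw [map_pow]
            exact one_le_pow_of_one_le' (not_lt.1 hx) q)
        refine ⟨m, Or.inl ?_⟩
        rw [ind_neg hx, pow_zero, one_mul]
        exact hm
    · obtain ⟨m, hm⟩ := even_at p q hp v (z ^ q) (x ^ q) (pow_ne_zero q hx0)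
        (by rw [← pow_mul, ← pow_mul, h]) (EvQ.pow q hz0) (EvQ.pow q hx0) (fun h => absurd h hpv)
      exact ⟨m, Or.inr ⟨hpv, hm⟩⟩
  obtain ⟨j, hj⟩ : ∃ j : ℕ, j = ind v x + ind v (σ x) := ⟨_, rfl⟩
  rw [← hj]
  -- the rational number `t / p ^ j`
  have hs0 : t / (p : ℚ) ^ j ≠ 0 := div_ne_zero ht0 (pow_ne_zero j hpQ)
  have hsv : ∃ m : ℤ, v.valuation K ((t / (p : ℚ) ^ j : ℚ) : K) = WithZero.exp (q * m) := by
    obtain ⟨m, hm | ⟨hm, -⟩⟩ := hval v z x hz0 hx0 h
    · obtain ⟨m', hm' | ⟨hm', -⟩⟩ := hval v (σ z) (σ x) hsz0 hsx0 h'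
      · refine ⟨m + m', ?_⟩
        push_cast
        rw [map_div₀, map_pow, htK, map_mul, hm, hm']
        have hne : v.valuation K (p : K) ^ j ≠ 0 := pow_ne_zero j ((Valuation.ne_zero_iff _).2 hpK)
        rw [div_eq_iff hne, hj, pow_add, mul_add, WithZero.exp_add]
        simp only [mul_assoc, mul_comm, mul_left_comm]
      · exact absurd hv hm'
    · exact absurd hv hm
  have hEv : EvQ q ((t / (p : ℚ) ^ j : ℚ) : K) := by
    intro v'
    by_cases hv' : ((p : ℕ) : 𝓞 K) ∈ v'.asIdeal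
    · exact rat_two hK p q hp hq hq2 _ hs0 v v' hv hv' hsv
    · have hp1 := val_nat v' p hv'
      have hone : ∀ k : ℕ, v'.valuation K (p : K) ^ k = 1 := fun k => by rw [hp1, one_pow]
      have hg : ∀ z x : K, z ≠ 0 → x ≠ 0 → z ^ (q * p) = 1 + x ^ (q * p) →
          ∃ m : ℤ, v'.valuation K (∑ i ∈ range p, (z ^ q) ^ i) = WithZero.exp (q * m) := by
        intro z x hz0 hx0 h
        obtain ⟨m, hm | ⟨-, hm⟩⟩ := hval v' z x hz0 hx0 h
        · exact ⟨m, by rw [hm, hone, one_mul]⟩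
        · exact ⟨m, hm⟩
      obtain ⟨m, hm⟩ := hg z x hz0 hx0 h
      obtain ⟨m', hm'⟩ := hg (σ z) (σ x) hsz0 hsx0 h'
      refine ⟨m + m', ?_⟩
      push_cast
      rw [map_div₀, map_pow, hone, div_one, htK, map_mul, hm, hm', ← WithZero.exp_add]
      congr 1
      ring
  obtain ⟨c, hc0, hc⟩ := rat_pow hK q (hq.odd_of_ne_two hq2) _ hs0 hEv
  refine ⟨c, hc0, ?_⟩
  rw [← htK]
  have h1 : ((t / (p : ℚ) ^ j : ℚ) : K) = ((c ^ q : ℚ) : K) := by rw [hc]
  push_cast at h1
  rw [div_eq_iff (pow_ne_zero j hpK)] at h1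
  rw [h1, mul_comm]

/-- the quotient at a prime above `q` -/
theorem type_q (P : HeightOneSpectrum (𝓞 K)) (hK : Module.finrank ℚ K = 2) (p q : ℕ)
    (hp : p.Prime) (hq : q.Prime) (hq2 : q ≠ 2) (hpq : p ≠ q)
    (hqP : ((q : ℕ) : 𝓞 K) ∈ P.asIdeal) (hN : NoSol P q)
    (hres : ∀ s : K, P.valuation K s = 1 → P.valuation K (s ^ p - 1) < 1 → P.valuation K (s - 1) < 1)
    (z x : K) (hz0 : z ≠ 0) (h : z ^ (q * p) = 1 + x ^ (q * p)) :
    ∃ a u : K, a ≠ 0 ∧ P.valuation K (u - 1) < P.valuation K (q : K) ∧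
      (∑ i ∈ range p, (z ^ q) ^ i) = (p : K) ^ (ind P x) * a ^ q * u := by
  have hpK : (p : K) ≠ 0 := by exact_mod_cast hp.ne_zero
  have hp1 : P.valuation K (p : K) = 1 := by
    have := wq_int P q hq hqP (p : ℤ) (by
      rw [Int.natCast_dvd_natCast, Nat.prime_dvd_prime_iff_eq hq hp]
      exact hpq.symm)
    simpa using this
  rcases lt_trichotomy (P.valuation K x) 1 with hlt | heq | hgt
  · obtain ⟨hg1, hg2⟩ := loc_exc P hK p q hp hq hq2 hpq hqP hres z x h hlt
    refine ⟨1, (∑ i ∈ range p, (z ^ q) ^ i) / p, one_ne_zero, ?_, ?_⟩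
    · have e : (∑ i ∈ range p, (z ^ q) ^ i) / (p : K) - 1 =
          ((∑ i ∈ range p, (z ^ q) ^ i) - p) / p := by field_simp
      rw [e, map_div₀, hp1, div_one]
      exact hg2
    · rw [ind_pos hlt, pow_one, one_pow, mul_one, mul_div_cancel₀ _ hpK]
  · have hz1 : P.valuation K z < 1 := by
      have hz2 : P.valuation K z ≤ 1 := by
        have h1 : P.valuation K (z ^ (q * p)) ≤ 1 := by
          rw [h]
          refine (Valuation.map_add _ _ _).trans (max_le (by rw [map_one]) ?_)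
          rw [map_pow, heq, one_pow]
        rw [map_pow] at h1
        exact (pow_le_one_iff_of_nonneg zero_le' (mul_ne_zero hq.ne_zero hp.ne_zero)).1 h1
      refine lt_of_le_of_ne hz2 fun hz3 => ?_
      refine NoSol.elim P q hK hq hq2 hqP hN (z ^ p) (x ^ p) ?_ ?_ ?_
      · rw [map_pow, hz3, one_pow]
      · rw [map_pow, heq, one_pow]
      · rw [← pow_mul, ← pow_mul, mul_comm p q, h]
    refine ⟨1, ∑ i ∈ range p, (z ^ q) ^ i, one_ne_zero, ?_, ?_⟩
    · refine (geom_small P p hp.ne_zero (z ^ q) ?_).trans_lt ?_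
      · rw [map_pow]
        exact pow_le_one' hz1.le q
      · rw [map_pow]
        exact small_pow P q hK hq hq2 z hz1
    · rw [ind_neg (by rw [heq]; exact lt_irrefl _)]
      simp
  · have hz1 : P.valuation K z⁻¹ < 1 := by
      rw [map_inv₀]
      apply inv_lt_one_of_one_lt₀
      have h1 : 1 < P.valuation K (z ^ (q * p)) := by
        have hxx : 1 < P.valuation K (x ^ (q * p)) := by
          rw [map_pow]
          exact one_lt_pow₀ hgt (mul_ne_zero hq.ne_zero hp.ne_zero)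
        rw [h, Valuation.map_add_eq_of_lt_right]
        · exact hxx
        · rw [map_one]
          exact hxx
      rw [map_pow] at h1
      by_contra hcon'
      push Not at hcon'
      exact absurd h1 (not_lt.2 (pow_le_one' hcon' _))
    refine ⟨z ^ (p - 1), ∑ i ∈ range p, ((z⁻¹) ^ q) ^ i, pow_ne_zero _ hz0, ?_, ?_⟩
    · refine (geom_small P p hp.ne_zero (z⁻¹ ^ q) ?_).trans_lt ?_
      · rw [map_pow]
        exact pow_le_one' hz1.le q
      · rw [map_pow]
        exact small_pow P q hK hq hq2 z⁻¹ hz1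
    · rw [ind_neg (not_lt.2 hgt.le), pow_zero, one_mul, ← sum_range_reflect, mul_sum]
      refine sum_congr rfl fun i hi => ?_
      rw [mem_range] at hi
      have e1 : (z ^ (p - 1)) ^ q = (z ^ q) ^ (p - 1 - i) * (z ^ q) ^ i := by
        rw [← pow_add, ← pow_mul, ← pow_mul, mul_comm (p - 1) q]
        congr 2
        omega
      rw [e1, inv_pow, inv_pow, mul_assoc, mul_inv_cancel₀ (pow_ne_zero _ (pow_ne_zero _ hz0)),
        mul_one]

/-- the numbers of primes above `p` and above `q` which divide a variable are the same -/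
theorem ind_eq (P v : HeightOneSpectrum (𝓞 K)) (hK : Module.finrank ℚ K = 2) (p q : ℕ)
    (hp : p.Prime) (h5 : 5 ≤ p) (hq : q.Prime) (hq2 : q ≠ 2) (hpq : p ≠ q)
    (hqP : ((q : ℕ) : 𝓞 K) ∈ P.asIdeal) (hv : ((p : ℕ) : 𝓞 K) ∈ v.asIdeal) (hN : NoSol P q)
    (hres : ∀ s : K, P.valuation K s = 1 → P.valuation K (s ^ p - 1) < 1 → P.valuation K (s - 1) < 1)
    (hW : ¬ q ^ 2 ∣ p ^ (q - 1) - 1)
    (σ : K ≃ₐ[ℚ] K) (hσ : ∀ x : K, ((Algebra.norm ℚ x : ℚ) : K) = x * σ x)
    (z x : K) (hz0 : z ≠ 0) (hx0 : x ≠ 0) (h : z ^ (q * p) = 1 + x ^ (q * p)) :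
    ind P x + ind P (σ x) = ind v x + ind v (σ x) := by
  have hle : ∀ (v : HeightOneSpectrum (𝓞 K)) (x : K), ind v x ≤ 1 := by
    intro v x
    by_cases hx : v.valuation K x < 1
    · rw [ind_pos hx]
    · rw [ind_neg hx]
      exact zero_le_one
  have h' : (σ z) ^ (q * p) = 1 + (σ x) ^ (q * p) := by
    rw [← map_pow, h, map_add, map_one, map_pow]
  have hsz0 : σ z ≠ 0 := (map_ne_zero σ).2 hz0
  obtain ⟨c, hc0, hc⟩ := norm_G hK p q hp h5 hq hq2 σ hσ z x hz0 hx0 h v hv
  obtain ⟨a, u, ha0, hu, hau⟩ := type_q P hK p q hp hq hq2 hpq hqP hN hres z x hz0 h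
  obtain ⟨a', u', ha0', hu', hau'⟩ := type_q P hK p q hp hq hq2 hpq hqP hN hres (σ z) (σ x) hsz0 h'
  have hpK : (p : K) ≠ 0 := by exact_mod_cast hp.ne_zero
  have hp1 : P.valuation K (p : K) = 1 := by
    have := wq_int P q hq hqP (p : ℤ) (by
      rw [Int.natCast_dvd_natCast, Nat.prime_dvd_prime_iff_eq hq hp]
      exact hpq.symm)
    simpa using this
  have hlt := wq_lt P q hqP
  have hcK : (c : K) ≠ 0 := by exact_mod_cast hc0
  obtain ⟨k, hk⟩ : ∃ k, k = ind P x + ind P (σ x) := ⟨_, rfl⟩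
  obtain ⟨j, hj⟩ : ∃ j, j = ind v x + ind v (σ x) := ⟨_, rfl⟩
  have hk2 : k ≤ 2 := by
    rw [hk]
    have := hle P x
    have := hle P (σ x)
    omega
  have hj2 : j ≤ 2 := by
    rw [hj]
    have := hle v x
    have := hle v (σ x)
    omega
  -- the unit
  obtain ⟨U, hU⟩ : ∃ U : K, U = u * u' := ⟨_, rfl⟩
  obtain ⟨A, hA⟩ : ∃ A : K, A = a * a' := ⟨_, rfl⟩
  have hA0 : A ≠ 0 := by rw [hA]; exact mul_ne_zero ha0 ha0'
  have hu1 : P.valuation K u = 1 := by
    have e : u = 1 + (u - 1) := by ring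
    rw [e, Valuation.map_add_eq_of_lt_left, map_one]
    rw [map_one]
    exact hu.trans hlt
  have hU1 : P.valuation K (U - 1) < P.valuation K (q : K) := by
    have e : U - 1 = u * (u' - 1) + (u - 1) := by rw [hU]; ring
    rw [e]
    refine Valuation.map_add_lt _ ?_ hu
    rw [map_mul, hu1, one_mul]
    exact hu'
  have hU2 : P.valuation K U = 1 := by
    have e : U = 1 + (U - 1) := by ring
    rw [e, Valuation.map_add_eq_of_lt_left, map_one]
    rw [map_one]
    exact hU1.trans hlt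
  have hU0 : U ≠ 0 := by
    rintro rfl
    rw [map_zero] at hU2
    exact zero_ne_one hU2
  have hmain : (p : K) ^ j * (c : K) ^ q = (p : K) ^ k * A ^ q * U := by
    rw [hau, hau'] at hc
    rw [hj, ← hc, hk, hU, hA, pow_add, mul_pow]
    ring
  rw [← hk, ← hj]
  by_contra hne
  apply hW
  -- a power congruent to `p` or `p ^ 2`
  have key : ∀ (t : ℕ), (t = 1 ∨ t = 2) → ∀ s : K,
      P.valuation K (s ^ q - (p : K) ^ t) < P.valuation K (q : K) → q ^ 2 ∣ p ^ (q - 1) - 1 := by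
    intro t ht s hs
    have h1 := final_pow P q hK hq hq2 hqP s ((p : ℤ) ^ t) (by push_cast; exact hs)
    apply dvd_wief p q hp hq hq2 hpq
    rcases ht with ht | ht
    · left
      rw [ht, pow_one] at h1
      exact h1
    · right
      rw [ht] at h1
      exact h1
  rcases lt_or_gt_of_ne hne with hlt' | hgt'
  · -- `k < j`
    obtain ⟨t, ht⟩ : ∃ t, j = k + t := ⟨j - k, by omega⟩
    refine key t (by omega) (A / c) ?_
    have e1 : (A / (c : K)) ^ q * U = (p : K) ^ t := by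
      have h1 : (p : K) ^ t * (c : K) ^ q = A ^ q * U := by
        apply mul_left_cancel₀ (pow_ne_zero k hpK)
        rw [ht, pow_add] at hmain
        linear_combination hmain
      rw [div_pow, div_mul_eq_mul_div, div_eq_iff (pow_ne_zero q hcK), h1]
    have e2 : (A / (c : K)) ^ q - (p : K) ^ t = -((A / (c : K)) ^ q * (U - 1)) := by
      rw [← e1]
      ring
    have hAc : P.valuation K ((A / (c : K)) ^ q) = 1 := by
      have h1 := congrArg (P.valuation K) e1
      rw [map_mul, hU2, mul_one, map_pow (P.valuation K) (p : K), hp1, one_pow] at h1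
      exact h1
    rw [e2, Valuation.map_neg, map_mul, hAc, one_mul]
    exact hU1
  · -- `j < k`
    obtain ⟨t, ht⟩ : ∃ t, k = j + t := ⟨k - j, by omega⟩
    refine key t (by omega) (c / A) ?_
    have e1 : ((c : K) / A) ^ q = (p : K) ^ t * U := by
      have h1 : (c : K) ^ q = (p : K) ^ t * U * A ^ q := by
        apply mul_left_cancel₀ (pow_ne_zero j hpK)
        rw [ht, pow_add] at hmain
        linear_combination hmain
      rw [div_pow, div_eq_iff (pow_ne_zero q hA0), h1]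
    have e2 : ((c : K) / A) ^ q - (p : K) ^ t = (p : K) ^ t * (U - 1) := by
      rw [e1]
      ring
    rw [e2, map_mul, map_pow, hp1, one_pow, one_mul]
    exact hU1

end

end Pool.Agent.Zk43.FQ
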