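import Pool.Agent.Zk43.FQ.Pat

/-!
# The variables divided by the primes above `p` and by the primes above `q`
-/

set_option autoImplicit false

namespace Pool.Agent.Zk43.FQ

open NumberField IsDedekindDomain Polynomial Finset

section

variable {K : Type} [Field K] [NumberField K]

/-- there is a prime above every prime number -/
theorem exists_above (p : ℕ) (hp : p.Prime) :
    ∃ v : HeightOneSpectrum (𝓞 K), ((p : ℕ) : 𝓞 K) ∈ v.asIdeal := by
  have : Fact p.Prime := ⟨hp⟩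
  have hmax : (Ideal.span {(p : ℤ)}).IsMaximal := Int.ideal_span_isMaximal_of_prime p
  obtain ⟨Q, hQ, hQp⟩ := Ideal.exists_ideal_over_maximal_of_isIntegral (S := 𝓞 K)
    (Ideal.span {(p : ℤ)}) (by
      rw [(RingHom.injective_iff_ker_eq_bot _).1 (FaithfulSMul.algebraMap_injective ℤ (𝓞 K))]
      exact bot_le)
  have hmem : ((p : ℕ) : 𝓞 K) ∈ Q := by
    have h1 : (p : ℤ) ∈ Q.comap (algebraMap ℤ (𝓞 K)) := by
      rw [hQp]
      exact Ideal.mem_span_singleton_self _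
    rw [Ideal.mem_comap] at h1
    simpa using h1
  refine ⟨⟨Q, hQ.isPrime, ?_⟩, hmem⟩
  rintro rfl
  rw [Ideal.mem_bot] at hmem
  exact hp.ne_zero (by exact_mod_cast hmem)

/-- the variable with index `i` is the exceptional one at `v` -/
def EV (v : HeightOneSpectrum (𝓞 K)) (a : Fin 3 → K) (i : Fin 3) : Prop :=
  v.valuation K (a i) < v.valuation K (a (i + 1))

/-- a solution in the symmetric form -/
def SolN (N : ℕ) (a : Fin 3 → K) : Prop :=
  (∀ i, a i ≠ 0) ∧ a 0 ^ N + a 1 ^ N + a 2 ^ N = 0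

theorem SolN.at {N : ℕ} {a : Fin 3 → K} (h : SolN N a) (i : Fin 3) :
    a i ^ N + a (i + 1) ^ N + a (i + 2) ^ N = 0 := by
  have h1 := h.2
  fin_cases i
  · exact h1
  · change a 1 ^ N + a 2 ^ N + a 0 ^ N = 0
    rw [← h1]
    ring
  · change a 2 ^ N + a 0 ^ N + a 1 ^ N = 0
    rw [← h1]
    ring

theorem SolN.map {N : ℕ} {a : Fin 3 → K} (h : SolN N a) (σ : K ≃ₐ[ℚ] K) :
    SolN N (fun i => σ (a i)) := by
  refine ⟨fun i => (map_ne_zero σ).2 (h.1 i), ?_⟩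
  have h1 := congrArg σ h.2
  rw [map_add, map_add, map_pow, map_pow, map_pow, map_zero] at h1
  exact h1

theorem EV.eq {N : ℕ} (hN : N ≠ 0) {a : Fin 3 → K} (h : SolN N a) {v : HeightOneSpectrum (𝓞 K)}
    {i : Fin 3} (hi : EV v a i) : v.valuation K (a (i + 1)) = v.valuation K (a (i + 2)) := by
  unfold EV at hi
  have h1 : v.valuation K (a (i + 2) ^ N) = v.valuation K (a (i + 1) ^ N) := by
    have e : a (i + 2) ^ N = -(a i ^ N + a (i + 1) ^ N) := by linear_combination h.at i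
    rw [e, Valuation.map_neg]
    apply Valuation.map_add_eq_of_lt_right
    rw [map_pow, map_pow]
    exact pow_lt_pow_left₀ hi zero_le' hN
  rw [map_pow, map_pow] at h1
  exact ((pow_left_inj₀ zero_le' zero_le' hN).1 h1).symm

theorem EV.unique {N : ℕ} (hN : N ≠ 0) {a : Fin 3 → K} (h : SolN N a)
    {v : HeightOneSpectrum (𝓞 K)} {i j : Fin 3} (hi : EV v a i) (hj : EV v a j) : i = j := by
  have key : ∀ i : Fin 3, EV v a i → ¬ EV v a (i + 1) := by
    intro i hi hj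
    have h1 := EV.eq hN h hi
    unfold EV at hj
    rw [add_assoc] at hj
    exact (lt_irrefl _) (h1 ▸ hj)
  have h1 := key i
  have h2 := key j
  fin_cases i <;> fin_cases j <;> first | rfl | exact absurd hj (h1 hi) | exact absurd hi (h2 hj)

theorem EV.exists {N q p : ℕ} (hNq : N = q * p) (hq : q.Prime) (hq2 : q ≠ 2) (hp : p ≠ 0)
    (hodd : Odd p) (hK : Module.finrank ℚ K = 2) {a : Fin 3 → K} (h : SolN N a)
    (P : HeightOneSpectrum (𝓞 K)) (hqP : ((q : ℕ) : 𝓞 K) ∈ P.asIdeal) (hS : NoSol P q) :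
    ∃ i, EV P a i := by
  by_contra hcon
  push Not at hcon
  unfold EV at hcon
  have h0 := hcon 0
  have h1 := hcon 1
  have h2 := hcon 2
  change ¬ (P.valuation K (a 0) < P.valuation K (a 1)) at h0
  change ¬ (P.valuation K (a 1) < P.valuation K (a 2)) at h1
  change ¬ (P.valuation K (a 2) < P.valuation K (a 0)) at h2
  rw [not_lt] at h0 h1 h2
  have e1 : P.valuation K (a 0) = P.valuation K (a 1) := le_antisymm (h2.trans h1) h0
  have e2 : P.valuation K (a 2) = P.valuation K (a 1) := le_antisymm h1 (h0.trans h2)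
  have hone : ∀ b : K, P.valuation K b = P.valuation K (a 1) →
      P.valuation K ((b / a 1) ^ p) = 1 := by
    intro b hb
    rw [map_pow, map_div₀, hb, div_self ((Valuation.ne_zero_iff _).2 (h.1 1)), one_pow]
  refine NoSol.elim P q hK hq hq2 hqP hS ((-a 2 / a 1) ^ p) ((a 0 / a 1) ^ p)
    (hone (-a 2) (by rw [Valuation.map_neg, e2])) (hone (a 0) e1) ?_
  rw [← pow_mul, ← pow_mul, mul_comm p q, ← hNq, div_pow, div_pow]
  have hodd' : Odd N := by rw [hNq]; exact (hq.odd_of_ne_two hq2).mul hodd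
  rw [hodd'.neg_pow]
  have h3 := h.2
  have h4 := pow_ne_zero N (h.1 1)
  field_simp
  linear_combination -h3

/-- the comparison of the two patterns -/
theorem EV.compare (P v : HeightOneSpectrum (𝓞 K)) (hK : Module.finrank ℚ K = 2) (p q : ℕ)
    (hp : p.Prime) (h5 : 5 ≤ p) (hq : q.Prime) (hq2 : q ≠ 2) (hpq : p ≠ q)
    (hqP : ((q : ℕ) : 𝓞 K) ∈ P.asIdeal) (hv : ((p : ℕ) : 𝓞 K) ∈ v.asIdeal) (hN : NoSol P q)
    (hres : ∀ s : K, P.valuation K s = 1 → P.valuation K (s ^ p - 1) < 1 → P.valuation K (s - 1) < 1)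
    (hW : ¬ q ^ 2 ∣ p ^ (q - 1) - 1)
    (σ : K ≃ₐ[ℚ] K) (hσ : ∀ x : K, ((Algebra.norm ℚ x : ℚ) : K) = x * σ x)
    (a : Fin 3 → K) (h : SolN (q * p) a) (i : Fin 3) :
    ((EV P a i ∨ EV P (fun j => σ (a j)) i) → (EV v a i ∨ EV v (fun j => σ (a j)) i)) ∧
    ((EV P a i ∧ EV P (fun j => σ (a j)) i) → (EV v a i ∧ EV v (fun j => σ (a j)) i)) := by
  have hodd : Odd (q * p) := (hq.odd_of_ne_two hq2).mul (hp.odd_of_ne_two (by omega))
  have h1 := h.at i
  have ha := h.1 i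
  have hb := h.1 (i + 1)
  have hc := h.1 (i + 2)
  obtain ⟨z, hz⟩ : ∃ z, z = -a (i + 2) / a (i + 1) := ⟨_, rfl⟩
  obtain ⟨x, hx⟩ : ∃ x, x = a i / a (i + 1) := ⟨_, rfl⟩
  have hz0 : z ≠ 0 := by rw [hz]; exact div_ne_zero (neg_ne_zero.2 hc) hb
  have hx0 : x ≠ 0 := by rw [hx]; exact div_ne_zero ha hb
  have heq : z ^ (q * p) = 1 + x ^ (q * p) := by
    rw [hz, hx, div_pow, div_pow, hodd.neg_pow]
    have h4 := pow_ne_zero (q * p) hb
    field_simp
    linear_combination -h1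
  have hind : ∀ v : HeightOneSpectrum (𝓞 K), v.valuation K x < 1 ↔ EV v a i := by
    intro v
    have hb' : 0 < v.valuation K (a (i + 1)) := zero_lt_iff.2 ((Valuation.ne_zero_iff _).2 hb)
    rw [hx, map_div₀, div_lt_one₀ hb']
    rfl
  have hind' : ∀ v : HeightOneSpectrum (𝓞 K),
      v.valuation K (σ x) < 1 ↔ EV v (fun j => σ (a j)) i := by
    intro v
    have hb' : 0 < v.valuation K (σ (a (i + 1))) :=
      zero_lt_iff.2 ((Valuation.ne_zero_iff _).2 ((map_ne_zero σ).2 hb))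
    rw [hx, map_div₀, map_div₀, div_lt_one₀ hb']
    rfl
  have key := ind_eq P v hK p q hp h5 hq hq2 hpq hqP hv hN hres hW σ hσ z x hz0 hx0 heq
  rw [← hind, ← hind', ← hind, ← hind']
  by_cases c1 : P.valuation K x < 1 <;> by_cases c2 : P.valuation K (σ x) < 1 <;>
    by_cases c3 : v.valuation K x < 1 <;> by_cases c4 : v.valuation K (σ x) < 1 <;>
    simp only [ind, c1, c2, c3, c4, if_true, if_false] at key ⊢ <;> first | omega | tauto

/-- the primes above `p` and `q` divide the same variables -/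
theorem EV.pattern (hK : Module.finrank ℚ K = 2) (p q : ℕ)
    (hp : p.Prime) (h5 : 5 ≤ p) (hq : q.Prime) (hq2 : q ≠ 2) (hpq : p ≠ q)
    (hN : ∀ P : HeightOneSpectrum (𝓞 K), ((q : ℕ) : 𝓞 K) ∈ P.asIdeal → NoSol P q)
    (hres : ∀ P : HeightOneSpectrum (𝓞 K), ((q : ℕ) : 𝓞 K) ∈ P.asIdeal → 
      ∀ s : K, P.valuation K s = 1 → P.valuation K (s ^ p - 1) < 1 → P.valuation K (s - 1) < 1)
    (hW : ¬ q ^ 2 ∣ p ^ (q - 1) - 1) (a : Fin 3 → K) (h : SolN (q * p) a) :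
    (∀ P : HeightOneSpectrum (𝓞 K), ((q : ℕ) : 𝓞 K) ∈ P.asIdeal →
      ∃ v : HeightOneSpectrum (𝓞 K), ((p : ℕ) : 𝓞 K) ∈ v.asIdeal ∧ ∃ i, EV P a i ∧ EV v a i) ∧
    (∀ v : HeightOneSpectrum (𝓞 K), ((p : ℕ) : 𝓞 K) ∈ v.asIdeal →
      ∃ P : HeightOneSpectrum (𝓞 K), ((q : ℕ) : 𝓞 K) ∈ P.asIdeal ∧ ∃ i, EV P a i ∧ EV v a i) := by
  obtain ⟨σ, hσ⟩ := exists_conj (K := K) hK
  have hodd : Odd p := hp.odd_of_ne_two (by omega)
  have hne : q * p ≠ 0 := mul_ne_zero hq.ne_zero hp.ne_zero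
  have hσ' := h.map σ
  have hconj : ∀ (v : HeightOneSpectrum (𝓞 K)) (r : ℕ), ((r : ℕ) : 𝓞 K) ∈ v.asIdeal → ∀ i,
      EV v (fun j => σ (a j)) i → ∃ v' : HeightOneSpectrum (𝓞 K),
        ((r : ℕ) : 𝓞 K) ∈ v'.asIdeal ∧ EV v' a i := by
    intro v r hr i hi
    obtain ⟨v', hv'⟩ := exists_conj_prime σ v
    refine ⟨v', mem_of_val v v' σ hv' r hr, ?_⟩
    unfold EV at hi ⊢
    rw [hv', hv']
    exact hi
  constructor
  · intro P hP
    obtain ⟨i, hi⟩ := EV.exists rfl hq hq2 hp.ne_zero hodd hK h P hP (hN P hP)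
    obtain ⟨v, hv⟩ := exists_above (K := K) p hp
    have h1 := (EV.compare P v hK p q hp h5 hq hq2 hpq hP hv (hN P hP) (hres P hP) hW σ hσ a h i).1
      (Or.inl hi)
    rcases h1 with h1 | h1
    · exact ⟨v, hv, i, hi, h1⟩
    · obtain ⟨v', hv', h2⟩ := hconj v p hv i h1
      exact ⟨v', hv', i, hi, h2⟩
  · intro v hv
    obtain ⟨P, hP⟩ := exists_above (K := K) q hq
    obtain ⟨i, hi⟩ := EV.exists rfl hq hq2 hp.ne_zero hodd hK h P hP (hN P hP)
    obtain ⟨j, hj⟩ := EV.exists rfl hq hq2 hp.ne_zero hodd hK hσ' P hP (hN P hP)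
    have h1 := EV.compare P v hK p q hp h5 hq hq2 hpq hP hv (hN P hP) (hres P hP) hW σ hσ a h i
    have h2 := EV.compare P v hK p q hp h5 hq hq2 hpq hP hv (hN P hP) (hres P hP) hW σ hσ a h j
    rcases h1.1 (Or.inl hi) with h3 | h3
    · exact ⟨P, hP, i, hi, h3⟩
    · rcases h2.1 (Or.inr hj) with h4 | h4
      · obtain ⟨P', hP', h5⟩ := hconj P q hP j hj
        exact ⟨P', hP', j, h5, h4⟩
      · have hij : i = j := EV.unique hne hσ' h3 h4
        rw [← hij] at hj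
        exact ⟨P, hP, i, hi, (h1.2 ⟨hi, hj⟩).1⟩

/-- `P` and `v` divide the same variable -/
def Same (P v : HeightOneSpectrum (𝓞 K)) (x y z : K) : Prop :=
  (Exc P x y z ∧ Exc v x y z) ∨ (Exc P y x z ∧ Exc v y x z) ∨ (Exc P z x y ∧ Exc v z x y)

/-- exponents divisible by `3 p`, both directions -/
theorem pattern_three (hK : Module.finrank ℚ K = 2) (p n : ℕ) (hp : p.Prime) (h5 : 5 ≤ p)
    (h9 : p % 9 ≠ 1 ∧ p % 9 ≠ 8) (hn : 3 * p ∣ n)
    (X Y Z : K) (hX : X ≠ 0) (hY : Y ≠ 0) (hZ : Z ≠ 0) (h : X ^ n + Y ^ n = Z ^ n) :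
    (∀ P : HeightOneSpectrum (𝓞 K), (3 : 𝓞 K) ∈ P.asIdeal →
      ∃ v : HeightOneSpectrum (𝓞 K), ((p : ℕ) : 𝓞 K) ∈ v.asIdeal ∧ Same P v X Y Z) ∧
    (∀ v : HeightOneSpectrum (𝓞 K), ((p : ℕ) : 𝓞 K) ∈ v.asIdeal →
      ∃ P : HeightOneSpectrum (𝓞 K), (3 : 𝓞 K) ∈ P.asIdeal ∧ Same P v X Y Z) := by
  obtain ⟨k, rfl⟩ := hn
  have hk : k ≠ 0 := by
    rintro rfl
    rw [mul_zero, pow_zero, pow_zero, pow_zero] at h
    have : (1 : K) = 0 := by linear_combination h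
    exact one_ne_zero this
  have hF : (X ^ k) ^ (3 * p) + (Y ^ k) ^ (3 * p) = (Z ^ k) ^ (3 * p) := by
    rw [← pow_mul, ← pow_mul, ← pow_mul, mul_comm k (3 * p), h]
  have hodd := hp.odd_of_ne_two (by omega)
  have hodd3 : Odd (3 * p) := (by decide : Odd 3).mul hodd
  have hW : ¬ 3 ^ 2 ∣ p ^ (3 - 1) - 1 := by
    intro hd
    have h1 : 1 ≤ p ^ 2 := Nat.one_le_pow _ _ hp.pos
    have h2 : p ^ 2 % 9 = 1 := by
      norm_num at hd
      omega
    have h3 : (p % 9) ^ 2 % 9 = 1 := by rw [← Nat.pow_mod]; exact h2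
    have h4 : p % 9 < 9 := Nat.mod_lt _ (by norm_num)
    obtain ⟨t, ht⟩ : ∃ t, t = p % 9 := ⟨_, rfl⟩
    rw [← ht] at h3 h4 h9
    obtain ⟨h91, h98⟩ := h9
    interval_cases t <;> omega
  obtain ⟨a, ha⟩ : ∃ a : Fin 3 → K, a = ![X ^ k, Y ^ k, -Z ^ k] := ⟨_, rfl⟩
  have ha0 : a 0 = X ^ k := by rw [ha]; rfl
  have ha1 : a 1 = Y ^ k := by rw [ha]; rfl
  have ha2 : a 2 = -Z ^ k := by rw [ha]; rfl
  have hsol : SolN (3 * p) a := by
    refine ⟨?_, ?_⟩
    · intro i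
      fin_cases i
      · exact ha0 ▸ pow_ne_zero k hX
      · exact ha1 ▸ pow_ne_zero k hY
      · exact ha2 ▸ neg_ne_zero.2 (pow_ne_zero k hZ)
    · rw [ha0, ha1, ha2, hodd3.neg_pow, hF]
      ring
  have hconv : ∀ (P v : HeightOneSpectrum (𝓞 K)) (i : Fin 3), EV P a i → EV v a i →
      Same P v X Y Z := by
    intro P v i hP hv
    have hex : ∀ (v : HeightOneSpectrum (𝓞 K)) (i : Fin 3), EV v a i →
        v.valuation K (a i) < v.valuation K (a (i + 1)) ∧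
          v.valuation K (a (i + 1)) = v.valuation K (a (i + 2)) := fun v i hi =>
      ⟨hi, EV.eq (mul_ne_zero (by norm_num) hp.ne_zero) hsol hi⟩
    have hP' := hex P i hP
    have hv' := hex v i hv
    have hpow : ∀ (v : HeightOneSpectrum (𝓞 K)) (A B C : K),
        v.valuation K (A ^ k) < v.valuation K (B ^ k) →
        v.valuation K (B ^ k) = v.valuation K (C ^ k) → Exc v A B C ∧ Exc v A C B := by
      intro v A B C h1 h2
      have h3 : Exc v (A ^ k) (C ^ k) (B ^ k) := ⟨by rw [← h2]; exact h1, h2.symm⟩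
      exact ⟨(exc_pow v k hk A B C).1 ⟨h1, h2⟩, (exc_pow v k hk A C B).1 h3⟩
    fin_cases i
    · change P.valuation K (a 0) < P.valuation K (a 1) ∧
        P.valuation K (a 1) = P.valuation K (a 2) at hP'
      change v.valuation K (a 0) < v.valuation K (a 1) ∧
        v.valuation K (a 1) = v.valuation K (a 2) at hv'
      rw [ha0, ha1, ha2, Valuation.map_neg] at hP' hv'
      exact Or.inl ⟨(hpow P _ _ _ hP'.1 hP'.2).1, (hpow v _ _ _ hv'.1 hv'.2).1⟩
    · change P.valuation K (a 1) < P.valuation K (a 2) ∧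
        P.valuation K (a 2) = P.valuation K (a 0) at hP'
      change v.valuation K (a 1) < v.valuation K (a 2) ∧
        v.valuation K (a 2) = v.valuation K (a 0) at hv'
      rw [ha0, ha1, ha2, Valuation.map_neg] at hP' hv'
      exact Or.inr (Or.inl ⟨(hpow P _ _ _ hP'.1 hP'.2).2, (hpow v _ _ _ hv'.1 hv'.2).2⟩)
    · change P.valuation K (a 2) < P.valuation K (a 0) ∧
        P.valuation K (a 0) = P.valuation K (a 1) at hP'
      change v.valuation K (a 2) < v.valuation K (a 0) ∧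
        v.valuation K (a 0) = v.valuation K (a 1) at hv'
      rw [ha0, ha1, ha2, Valuation.map_neg] at hP' hv'
      exact Or.inr (Or.inr ⟨(hpow P _ _ _ hP'.1 hP'.2).1, (hpow v _ _ _ hv'.1 hv'.2).1⟩)
  have hmem : ∀ P : HeightOneSpectrum (𝓞 K), (3 : 𝓞 K) ∈ P.asIdeal ↔
      ((3 : ℕ) : 𝓞 K) ∈ P.asIdeal := fun P => by norm_num
  have main := EV.pattern hK p 3 hp h5 Nat.prime_three (by norm_num) (by omega)
    (fun P _ => noSol_three P) (fun P h3P' s hs hsp => one_of_coprime P s hs p 8 (by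
      rw [show 8 = 2 ^ 3 by norm_num]
      exact Nat.Coprime.pow_right 3 hodd.coprime_two_right) hsp (pow_eight P hK h3P' s hs)) hW
    a hsol
  constructor
  · intro P hP
    obtain ⟨v, hv, i, h1, h2⟩ := main.1 P ((hmem P).1 hP)
    exact ⟨v, hv, hconv P v i h1 h2⟩
  · intro v hv
    obtain ⟨P, hP, i, h1, h2⟩ := main.2 v hv
    exact ⟨P, (hmem P).2 hP, hconv P v i h1 h2⟩

end

end Pool.Agent.Zk43.FQ
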