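import Mathlib

/-!
# Quadratic fields: coordinates, elements with even valuations
-/

set_option autoImplicit false

namespace Pool.Agent.Zk43.FQ

open NumberField IsDedekindDomain Polynomial

/-- all valuations are even -/
def Ev {K : Type} [Field K] [NumberField K] (b : K) : Prop :=
  ∀ v : HeightOneSpectrum (𝓞 K), ∃ m : ℤ, v.valuation K b = WithZero.exp (2 * m)

/-- `K` is the field of the square root `r` of the integer `D`, which is not a square -/
structure QF (K : Type) [Field K] [NumberField K] (D : ℤ) (r : K) : Prop where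
  rank : Module.finrank ℚ K = 2
  sf : Squarefree D
  ne : D ≠ 1
  sq : r ^ 2 = (D : K)

section

variable {K : Type} [Field K] [NumberField K] {D : ℤ} {r : K}

theorem QF.irr (q : QF K D r) (x : ℚ) : (x : K) ≠ r := by
  intro hx
  have h1 : (x : K) ^ 2 = (D : K) := by rw [hx, q.sq]
  have h2 : x ^ 2 = (D : ℚ) := by exact_mod_cast h1
  have h3 : IsSquare (D : ℚ) := ⟨x, by rw [← h2, pow_two]⟩
  have h4 : IsSquare D := Rat.isSquare_intCast_iff.1 h3
  obtain ⟨a, ha⟩ := h4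
  have h5 : IsUnit a := q.sf a ⟨1, by rw [ha, mul_one]⟩
  rcases Int.isUnit_iff.1 h5 with h | h <;> · rw [h] at ha; exact q.ne (by rw [ha]; norm_num)

theorem QF.coords (q : QF K D r) :
    (∀ a : K, ∃ x y : ℚ, a = (x : K) + y * r) ∧
    (∀ x y : ℚ, Algebra.norm ℚ ((x : K) + y * r) = x ^ 2 - D * y ^ 2) ∧
    (∀ x y : ℚ, Algebra.trace ℚ K ((x : K) + y * r) = 2 * x) := by
  have hirr := q.irr
  have hr := q.sq
  have hli : LinearIndependent ℚ ![(1 : K), r] := by
    rw [LinearIndependent.pair_iff]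
    intro s t hst
    rw [Algebra.smul_def, Algebra.smul_def, mul_one] at hst
    simp only [eq_ratCast] at hst
    have ht : t = 0 := by
      by_contra ht
      apply hirr (-s / t)
      have ht' : (t : K) ≠ 0 := by exact_mod_cast ht
      push_cast
      rw [div_eq_iff ht']
      linear_combination -hst
    subst ht
    refine ⟨?_, rfl⟩
    simpa using hst
  let b := basisOfLinearIndependentOfCardEqFinrank hli (by rw [q.rank]; rfl)
  have hb : ∀ i, b i = ![(1 : K), r] i := fun i => by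
    rw [show b i = _ from congrFun (coe_basisOfLinearIndependentOfCardEqFinrank hli _) i]
  have hb0 : b 0 = 1 := hb 0
  have hb1 : b 1 = r := hb 1
  have hrepr : ∀ x y : ℚ, b.repr ((x : K) + y * r) = Finsupp.single 0 x + Finsupp.single 1 y := by
    intro x y
    have e1 : (x : K) + y * r = x • b 0 + y • b 1 := by
      rw [hb0, hb1, Algebra.smul_def, Algebra.smul_def, mul_one]
      simp only [eq_ratCast]
    rw [e1, map_add, map_smul, map_smul, b.repr_self, b.repr_self]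
    simp
  have hM : ∀ x y : ℚ, Algebra.leftMulMatrix b ((x : K) + y * r) = !![x, D * y; y, x] := by
    intro x y
    ext i j
    rw [Algebra.leftMulMatrix_eq_repr_mul]
    fin_cases j
    · show b.repr (((x : K) + y * r) * b 0) i = _
      rw [hb0, mul_one, hrepr]
      fin_cases i <;> simp
    · show b.repr (((x : K) + y * r) * b 1) i = _
      have e2 : ((x : K) + y * r) * b 1 = ((D * y : ℚ) : K) + x * r := by
        rw [hb1]
        push_cast
        linear_combination (y : K) * hr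
      rw [e2, hrepr]
      fin_cases i <;> simp
  refine ⟨fun a => ⟨b.repr a 0, b.repr a 1, ?_⟩, fun x y => ?_, fun x y => ?_⟩
  · have h1 := b.sum_repr a
    rw [Fin.sum_univ_two, hb0, hb1, Algebra.smul_def, Algebra.smul_def, mul_one] at h1
    simp only [eq_ratCast] at h1
    exact h1.symm
  · rw [Algebra.norm_eq_matrix_det b, hM, Matrix.det_fin_two_of]
    ring
  · rw [Algebra.trace_eq_matrix_trace b, hM, Matrix.trace_fin_two_of]
    ring

theorem QF.r_ne (q : QF K D r) : r ≠ 0 := fun h => q.irr 0 (by rw [h]; simp)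

end

section

variable {K : Type} [Field K] [NumberField K]

theorem sq_ideal (x : 𝓞 K) (hx : x ≠ 0) (h : Ev (x : K)) :
    ∃ J : Ideal (𝓞 K), Ideal.span {x} = J ^ 2 := by
  classical
  have hI0 : (Ideal.span {x} : Ideal (𝓞 K)) ≠ 0 := by
    rw [Ne, Ideal.zero_eq_bot, Ideal.span_singleton_eq_bot]
    exact hx
  obtain ⟨e, he⟩ : ∃ e : HeightOneSpectrum (𝓞 K) → ℕ, e = fun v =>
    (Associates.mk v.asIdeal).count (Associates.mk (Ideal.span {x})).factors := ⟨_, rfl⟩
  have hev : ∀ v, e v / 2 * 2 = e v := by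
    intro v
    obtain ⟨m, hm⟩ := h v
    have h1 : v.valuation K (algebraMap (𝓞 K) K x) = WithZero.exp (-(e v : ℤ)) := by
      rw [HeightOneSpectrum.valuation_of_algebraMap, HeightOneSpectrum.intValuation_if_neg _ hx, he]
    have h2 : WithZero.exp (2 * m) = WithZero.exp (-(e v : ℤ)) := by
      rw [← hm, ← h1]
    have h3 : 2 * m = -(e v : ℤ) := WithZero.exp_injective h2
    omega
  have hfac := Ideal.finprod_heightOneSpectrum_factorization hI0
  have hmp : ∀ v : HeightOneSpectrum (𝓞 K),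
      v.maxPowDividing (Ideal.span {x}) = (v.asIdeal ^ (e v / 2)) ^ 2 := by
    intro v
    rw [← pow_mul, hev, he]
    rfl
  have hfin : Function.HasFiniteMulSupport fun v : HeightOneSpectrum (𝓞 K) =>
      v.asIdeal ^ (e v / 2) := by
    refine Set.Finite.subset (Ideal.hasFiniteMulSupport hI0) fun v hv => ?_
    rw [Function.mem_mulSupport] at hv ⊢
    rw [hmp]
    intro h1
    apply hv
    rw [Ideal.one_eq_top] at h1 ⊢
    exact (Ideal.pow_eq_top_iff.1 h1).resolve_right (by norm_num)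
  refine ⟨∏ᶠ v : HeightOneSpectrum (𝓞 K), v.asIdeal ^ (e v / 2), ?_⟩
  rw [finprod_pow hfin, ← hfac]
  exact finprod_congr fun v => hmp v

theorem val_exists (v : HeightOneSpectrum (𝓞 K)) (x : K) (hx : x ≠ 0) :
    ∃ k : ℤ, v.valuation K x = WithZero.exp k := by
  have h1 : v.valuation K x ≠ 0 := (Valuation.ne_zero_iff _).2 hx
  exact ⟨WithZero.log (v.valuation K x), (WithZero.exp_log h1).symm⟩

theorem Ev.sq {b : K} (hb : b ≠ 0) : Ev (b ^ 2) := fun v => by
  obtain ⟨k, hk⟩ := val_exists v b hb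
  refine ⟨k, ?_⟩
  rw [map_pow, hk, ← WithZero.exp_nsmul]
  congr 1

theorem Ev.mul {a b : K} (ha : Ev a) (hb : Ev b) : Ev (a * b) := fun v => by
  obtain ⟨k, hk⟩ := ha v
  obtain ⟨l, hl⟩ := hb v
  refine ⟨k + l, ?_⟩
  rw [map_mul, hk, hl, ← WithZero.exp_add]
  congr 1
  ring

theorem Ev.neg {a : K} (ha : Ev a) : Ev (-a) := fun v => by
  obtain ⟨k, hk⟩ := ha v
  exact ⟨k, by rw [Valuation.map_neg, hk]⟩

/-- if the product with a square has even valuations -/
theorem Ev.of_mul_sq {a b : K} (hb : b ≠ 0) (h : Ev (a * b ^ 2)) : Ev a := fun v => by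
  obtain ⟨k, hk⟩ := h v
  obtain ⟨l, hl⟩ := val_exists v b hb
  refine ⟨k - l, ?_⟩
  rw [map_mul, map_pow, hl, ← WithZero.exp_nsmul] at hk
  have h1 : v.valuation K a = WithZero.exp (2 * k) * (WithZero.exp (2 • l))⁻¹ := by
    rw [← hk, mul_assoc, mul_inv_cancel₀ WithZero.exp_ne_zero, mul_one]
  rw [h1, ← WithZero.exp_neg, ← WithZero.exp_add]
  congr 1
  simp only [nsmul_eq_mul, Nat.cast_ofNat]
  ring

theorem val_nat (v : HeightOneSpectrum (𝓞 K)) (n : ℕ) (hn : (n : 𝓞 K) ∉ v.asIdeal) :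
    v.valuation K (n : K) = 1 := by
  have h1 : ¬ v.valuation K (algebraMap (𝓞 K) K (n : 𝓞 K)) < 1 := fun h =>
    hn ((v.valuation_lt_one_iff_mem (n : 𝓞 K)).1 h)
  have h2 := v.valuation_le_one (K := K) (n : 𝓞 K)
  have h3 := le_antisymm h2 (not_lt.1 h1)
  simpa using h3

/-- the norm of an element with even valuations is a square, up to sign -/
theorem norm_sq (b : K) (hb0 : b ≠ 0) (hb : Ev b) :
    ∃ n : ℚ, Algebra.norm ℚ b = n ^ 2 ∨ Algebra.norm ℚ b = -n ^ 2 := by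
  obtain ⟨d, hd, hint⟩ :=
    ((IsFractionRing.isAlgebraic_iff ℤ ℚ K).2
      (Algebra.IsAlgebraic.isAlgebraic (R := ℚ) b)).exists_integral_multiple
  obtain ⟨α0, hα0⟩ : ∃ α0 : 𝓞 K, (α0 : K) = (d : K) * b := ⟨⟨_, hint⟩, by
    simp [zsmul_eq_mul]⟩
  have hdK : (d : K) ≠ 0 := by exact_mod_cast hd
  have hdQ : (d : ℚ) ≠ 0 := by exact_mod_cast hd
  have hα : (((d : 𝓞 K) * α0 : 𝓞 K) : K) = b * (d : K) ^ 2 := by
    have h8 : (((d : 𝓞 K) * α0 : 𝓞 K) : K) = (d : K) * (α0 : K) := by simp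
    rw [h8, hα0]
    ring
  have hne : (d : 𝓞 K) * α0 ≠ 0 := by
    intro h0
    rw [h0] at hα
    have h9 : ((0 : 𝓞 K) : K) = 0 := by simp
    rw [h9] at hα
    exact mul_ne_zero hb0 (pow_ne_zero 2 hdK) hα.symm
  obtain ⟨J, hJ⟩ := sq_ideal ((d : 𝓞 K) * α0) hne (by rw [hα]; exact hb.mul (Ev.sq hdK))
  have h1 : (Algebra.norm ℤ ((d : 𝓞 K) * α0)).natAbs = (Ideal.absNorm J) ^ 2 := by
    rw [← Ideal.absNorm_span_singleton, hJ, map_pow]
  have h2 : (Algebra.norm ℤ ((d : 𝓞 K) * α0) : ℚ) =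
      Algebra.norm ℚ b * ((d : ℚ) ^ (Module.finrank ℚ K)) ^ 2 := by
    rw [Algebra.coe_norm_int, hα, map_mul, map_pow]
    congr 2
    have : (d : K) = algebraMap ℚ K (d : ℚ) := by simp
    rw [this, Algebra.norm_algebraMap]
  have hd2 : ((d : ℚ) ^ (Module.finrank ℚ K)) ≠ 0 := pow_ne_zero _ hdQ
  refine ⟨(Ideal.absNorm J : ℚ) / (d : ℚ) ^ (Module.finrank ℚ K), ?_⟩
  rcases Int.natAbs_eq (Algebra.norm ℤ ((d : 𝓞 K) * α0)) with h3 | h3
  · left
    rw [h1] at h3
    rw [div_pow, eq_div_iff (pow_ne_zero 2 hd2), ← h2, h3]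
    push_cast
    rfl
  · right
    rw [h1] at h3
    rw [div_pow, ← neg_div, eq_div_iff (pow_ne_zero 2 hd2), ← h2, h3]
    push_cast
    rfl

end

section

variable {K : Type} [Field K] [NumberField K] {D : ℤ} {r : K}

/-- Hilbert's theorem 90 for a norm which is a square -/
theorem QF.hilb (q : QF K D r) (b : K) (hb : b ≠ 0) (n : ℚ) (hn : Algebra.norm ℚ b = n ^ 2) :
    ∃ (t : ℚ) (s : K), t ≠ 0 ∧ s ≠ 0 ∧ b = (t : K) * s ^ 2 := by
  obtain ⟨hco, hno, -⟩ := q.coords
  obtain ⟨x, y, rfl⟩ := hco b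
  rw [hno] at hn
  have key : ∀ m : ℚ, m ^ 2 = n ^ 2 → x + m ≠ 0 → ∃ (t : ℚ) (s : K), t ≠ 0 ∧ s ≠ 0 ∧
      (x : K) + y * r = (t : K) * s ^ 2 := by
    intro m hm hxm
    have ht : (2 * (x + m) : ℚ) ≠ 0 := mul_ne_zero two_ne_zero hxm
    have htK : ((2 * (x + m) : ℚ) : K) ≠ 0 := by exact_mod_cast ht
    have hid : ((x : K) + y * r + m) ^ 2 = ((x : K) + y * r) * ((2 * (x + m) : ℚ) : K) := by
      have h1 : ((x ^ 2 - D * y ^ 2 : ℚ) : K) = ((m ^ 2 : ℚ) : K) := by rw [hn, hm]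
      push_cast at h1 ⊢
      linear_combination (y : K) ^ 2 * q.sq - h1
    have heq : (x : K) + y * r = ((2 * (x + m) : ℚ) : K) *
        (((x : K) + y * r + m) / ((2 * (x + m) : ℚ) : K)) ^ 2 := by
      rw [div_pow, hid]
      field_simp
    refine ⟨2 * (x + m), ((x : K) + y * r + m) / ((2 * (x + m) : ℚ) : K), ht, ?_, heq⟩
    intro h0
    rw [h0] at heq
    apply hb
    rw [heq]
    ring
  by_cases h1 : x + n ≠ 0
  · exact key n rfl h1
  · by_cases h2 : x + -n ≠ 0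
    · exact key (-n) (by ring) h2
    · exfalso
      push Not at h1 h2
      have hx : x = 0 := by linarith
      have hn0 : n = 0 := by linarith
      rw [hx, hn0] at hn
      have hD : (D : ℚ) ≠ 0 := by exact_mod_cast q.sf.ne_zero
      have hy : y = 0 := by
        have h3 : (D : ℚ) * y ^ 2 = 0 := by linarith
        rcases mul_eq_zero.1 h3 with h | h
        · exact absurd h hD
        · exact pow_eq_zero_iff two_ne_zero |>.1 h
      apply hb
      rw [hx, hy]
      simp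

/-- a prime with even valuations divides `2 D`; it is not two if `D` is one modulo four -/
theorem QF.prime_even (q : QF K D r) (l : ℕ) (hl : l.Prime) (h : Ev (l : K)) :
    ((l : ℤ) ∣ D ∨ l = 2) ∧ (D % 4 = 1 → l ≠ 2) := by
  obtain ⟨hco, hno, htr⟩ := q.coords
  have hl0 : (l : 𝓞 K) ≠ 0 := by exact_mod_cast hl.ne_zero
  obtain ⟨I, hI⟩ := sq_ideal (l : 𝓞 K) hl0 (by simpa using h)
  have hcard : Ideal.absNorm I = l := by
    have h1 : Ideal.absNorm (Ideal.span {(l : 𝓞 K)}) = l ^ 2 := by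
      rw [Ideal.absNorm_span_natCast, RingOfIntegers.rank, q.rank]
    rw [hI, map_pow] at h1
    exact Nat.pow_left_injective (n := 2) (by norm_num) h1
  have hcard' : Nat.card (𝓞 K ⧸ I) = l := by
    rw [← hcard, Ideal.absNorm_apply, Submodule.cardQuot_apply]
  -- an integer congruent to `w`
  have hcong : ∀ w : 𝓞 K, ∃ c : ℤ, w - (c : 𝓞 K) ∈ I := by
    intro w
    have : Fact l.Prime := ⟨hl⟩
    have : Nontrivial (𝓞 K ⧸ I) := by
      have : Finite (𝓞 K ⧸ I) := Nat.finite_of_card_ne_zero (by rw [hcard']; exact hl.ne_zero)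
      rw [← Finite.one_lt_card_iff_nontrivial, hcard']
      exact hl.one_lt
    have h1 : Ideal.Quotient.mk I w ∈ AddSubgroup.zmultiples (1 : 𝓞 K ⧸ I) :=
      mem_zmultiples_of_prime_card hcard' one_ne_zero
    obtain ⟨c, hc⟩ := AddSubgroup.mem_zmultiples_iff.1 h1
    refine ⟨c, ?_⟩
    rw [← Ideal.Quotient.eq_zero_iff_mem, map_sub, ← hc]
    simp
  -- the trace and the norm of an element of `I` are divisible by `l`
  have hdiv : ∀ (w : 𝓞 K) (T N : ℤ), w ∈ I → w ^ 2 = T * w - N → (N : ℤ) = Algebra.norm ℤ w →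
      (T : ℤ) = Algebra.trace ℤ (𝓞 K) w → (l : ℤ) ∣ T ∧ (l : ℤ) ∣ N := by
    intro w T N hw h1 h2 h3
    have hn1 : (l : ℤ) ∣ N := by
      rw [h2, ← hcard]
      exact Ideal.absNorm_dvd_norm_of_mem hw
    refine ⟨?_, hn1⟩
    have hsq : w ^ 2 ∈ Ideal.span {(l : 𝓞 K)} := by
      rw [hI]
      exact Ideal.pow_mem_pow hw 2
    have h4 : (l : 𝓞 K) ∣ (T : 𝓞 K) * w := by
      have h5 : (l : 𝓞 K) ∣ (N : 𝓞 K) := by
        have := (Int.castRingHom (𝓞 K)).map_dvd hn1
        simpa using this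
      have h6 : (T : 𝓞 K) * w = w ^ 2 + N := by rw [h1]; ring
      rw [h6]
      exact dvd_add (Ideal.mem_span_singleton.1 hsq) h5
    obtain ⟨u, hu⟩ := h4
    have h7 : (T : ℤ) * T = l * Algebra.trace ℤ (𝓞 K) u := by
      have h8 := congrArg (Algebra.trace ℤ (𝓞 K)) hu
      have e1 : (T : 𝓞 K) * w = T • w := by rw [zsmul_eq_mul]
      have e2 : (l : 𝓞 K) * u = (l : ℤ) • u := by rw [zsmul_eq_mul]; simp
      rw [e1, e2, map_zsmul, map_zsmul, smul_eq_mul, smul_eq_mul, ← h3] at h8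
      exact h8
    have h9 : (l : ℤ) ∣ T * T := ⟨_, h7⟩
    exact (Nat.prime_iff_prime_int.1 hl).dvd_of_dvd_pow (n := 2) (by rw [pow_two]; exact h9)
  constructor
  · have hint : IsIntegral ℤ r := ⟨X ^ 2 - C D, by monicity!, by
      rw [eval₂_sub, eval₂_X_pow, eval₂_C, q.sq]
      simp⟩
    obtain ⟨R, hR⟩ : ∃ R : 𝓞 K, (R : K) = r := ⟨⟨r, hint⟩, rfl⟩
    obtain ⟨c, hc⟩ := hcong R
    have hwK : ((R - (c : 𝓞 K) : 𝓞 K) : K) = ((-c : ℚ) : K) + ((1 : ℚ) : K) * r := by
      have h7 : ((R - (c : 𝓞 K) : 𝓞 K) : K) = (R : K) - (c : K) := by simp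
      rw [h7, hR]
      push_cast
      ring
    have hnorm : c ^ 2 - D = Algebra.norm ℤ (R - (c : 𝓞 K)) := by
      have : ((c ^ 2 - D : ℤ) : ℚ) = (Algebra.norm ℤ (R - (c : 𝓞 K)) : ℚ) := by
        rw [Algebra.coe_norm_int, hwK, hno]
        push_cast
        ring
      exact_mod_cast this
    have htrace : -2 * c = Algebra.trace ℤ (𝓞 K) (R - (c : 𝓞 K)) := by
      have : ((-2 * c : ℤ) : ℚ) = (Algebra.trace ℤ (𝓞 K) (R - (c : 𝓞 K)) : ℚ) := by
        rw [Algebra.coe_trace_int, hwK, htr]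
        push_cast
        ring
      exact_mod_cast this
    obtain ⟨h1, h2⟩ := hdiv (R - (c : 𝓞 K)) (-2 * c) (c ^ 2 - D) hc (by
      apply RingOfIntegers.coe_injective
      have h7 : ((R - (c : 𝓞 K) : 𝓞 K) : K) = r - c := by rw [hwK]; push_cast; ring
      have h8 : ∀ m : ℤ, ((m : 𝓞 K) : K) = (m : K) := fun m => by simp
      have e1 : algebraMap (𝓞 K) K ((R - (c : 𝓞 K)) ^ 2) = (r - c) ^ 2 := by
        rw [map_pow]
        exact congrArg (· ^ 2) h7
      have e2 : algebraMap (𝓞 K) K (((-2 * c : ℤ) : 𝓞 K) * (R - (c : 𝓞 K)) -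
          ((c ^ 2 - D : ℤ) : 𝓞 K)) = (-2 * c) * (r - c) - (c ^ 2 - D) := by
        have e3 : algebraMap (𝓞 K) K (R - (c : 𝓞 K)) = r - c := h7
        rw [map_sub, map_mul, e3, map_intCast, map_intCast]
        push_cast
        ring
      rw [e1, e2]
      linear_combination q.sq) hnorm htrace
    rw [Int.prime_iff_natAbs_prime.2 (by simpa using hl) |>.dvd_mul] at h1
    rcases h1 with h1 | h1
    · right
      have : (l : ℤ) ∣ (2 : ℕ) := by
        have := (dvd_neg (a := (l : ℤ)) (b := (2 : ℤ))).1 h1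
        exact_mod_cast this
      exact (Nat.prime_dvd_prime_iff_eq hl Nat.prime_two).1 (Int.natCast_dvd_natCast.1 this)
    · left
      have h3 : (l : ℤ) ∣ c ^ 2 := h1.trans (Dvd.intro_left (c) (by ring))
      have h4 := dvd_sub h3 h2
      rwa [sub_sub_cancel] at h4
  · intro hD4 hl2
    obtain ⟨k, hk⟩ : ∃ k : ℤ, D = 4 * k + 1 := ⟨D / 4, by omega⟩
    have hqK : (D : K) = 4 * k + 1 := by rw [hk]; push_cast; ring
    have hr := q.sq
    have hint : IsIntegral ℤ ((1 + r) / 2) := by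
      refine ⟨X ^ 2 - X - C (k : ℤ), by monicity!, ?_⟩
      rw [eval₂_sub, eval₂_sub, eval₂_X_pow, eval₂_X, eval₂_C]
      simp only [eq_intCast]
      linear_combination (1 / 4 : K) * hr + (1 / 4 : K) * hqK
    obtain ⟨w, hw⟩ : ∃ w : 𝓞 K, (w : K) = (1 + r) / 2 := ⟨⟨_, hint⟩, rfl⟩
    obtain ⟨c, hc⟩ := hcong w
    have hwK : ((w - (c : 𝓞 K) : 𝓞 K) : K) =
        (((1 - 2 * c) / 2 : ℚ) : K) + ((1 / 2 : ℚ) : K) * r := by
      have h7 : ((w - (c : 𝓞 K) : 𝓞 K) : K) = (w : K) - (c : K) := by simp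
      rw [h7, hw]
      push_cast
      ring
    have hnorm : c ^ 2 - c - k = Algebra.norm ℤ (w - (c : 𝓞 K)) := by
      have : ((c ^ 2 - c - k : ℤ) : ℚ) = (Algebra.norm ℤ (w - (c : 𝓞 K)) : ℚ) := by
        rw [Algebra.coe_norm_int, hwK, hno, hk]
        push_cast
        ring
      exact_mod_cast this
    have htrace : 1 - 2 * c = Algebra.trace ℤ (𝓞 K) (w - (c : 𝓞 K)) := by
      have : ((1 - 2 * c : ℤ) : ℚ) = (Algebra.trace ℤ (𝓞 K) (w - (c : 𝓞 K)) : ℚ) := by
        rw [Algebra.coe_trace_int, hwK, htr]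
        push_cast
        ring
      exact_mod_cast this
    obtain ⟨h1, -⟩ := hdiv (w - (c : 𝓞 K)) (1 - 2 * c) (c ^ 2 - c - k) hc (by
      apply RingOfIntegers.coe_injective
      have h7 : ((w - (c : 𝓞 K) : 𝓞 K) : K) = (1 + r) / 2 - c := by rw [hwK]; push_cast; ring
      have e3 : algebraMap (𝓞 K) K (w - (c : 𝓞 K)) = (1 + r) / 2 - c := h7
      have e1 : algebraMap (𝓞 K) K ((w - (c : 𝓞 K)) ^ 2) = ((1 + r) / 2 - c) ^ 2 := by
        rw [map_pow, e3]
      have e2 : algebraMap (𝓞 K) K (((1 - 2 * c : ℤ) : 𝓞 K) * (w - (c : 𝓞 K)) -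
          ((c ^ 2 - c - k : ℤ) : 𝓞 K)) = (1 - 2 * c) * ((1 + r) / 2 - c) - (c ^ 2 - c - k) := by
        rw [map_sub, map_mul, e3, map_intCast, map_intCast]
        push_cast
        ring
      rw [e1, e2]
      linear_combination (1 / 4 : K) * hr + (1 / 4 : K) * hqK) hnorm htrace
    rw [hl2] at h1
    push_cast at h1
    omega

end

end Pool.Agent.Zk43.FQ
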