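import Pool.Agent.Zk43.FQ.Main

/-!
# Terjanian's theorem over quadratic fields: solutions of Fermat's equation
-/

set_option autoImplicit false

namespace Pool.Agent.Zk43.FQ

open NumberField IsDedekindDomain Polynomial Finset

section

variable {K : Type} [Field K] [NumberField K] {D : ℤ} {r : K}

/-- the element `a` has smaller absolute value than `b` and `c`, which have the same one -/
def Exc (v : HeightOneSpectrum (𝓞 K)) (a b c : K) : Prop :=
  v.valuation K a < v.valuation K b ∧ v.valuation K b = v.valuation K c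

theorem exc_of_lt (v : HeightOneSpectrum (𝓞 K)) (n : ℕ) (hn : n ≠ 0) (X Y Z : K)
    (h : X ^ n + Y ^ n = Z ^ n) (hXY : v.valuation K X < v.valuation K Y) : Exc v X Y Z := by
  refine ⟨hXY, ?_⟩
  have h1 : v.valuation K (Z ^ n) = v.valuation K (Y ^ n) := by
    rw [← h, Valuation.map_add_eq_of_lt_right]
    rw [map_pow, map_pow]
    exact pow_lt_pow_left₀ hXY zero_le' hn
  rw [map_pow, map_pow] at h1
  exact ((pow_left_inj₀ zero_le' zero_le' hn).1 h1).symm

theorem QF.main2p (q : QF K D r) (p : ℕ) (hp : p.Prime) (h5 : 5 ≤ p) (hd : Cond D p)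
    (X Y Z : K) (hX : X ≠ 0) (hY : Y ≠ 0) (hZ : Z ≠ 0) (h : X ^ (2 * p) + Y ^ (2 * p) = Z ^ (2 * p))
    (P : HeightOneSpectrum (𝓞 K)) (h2 : (2 : 𝓞 K) ∈ P.asIdeal) :
    ∃ v : HeightOneSpectrum (𝓞 K), ((p : ℕ) : 𝓞 K) ∈ v.asIdeal ∧
      ((Exc P X Y Z ∧ Exc v X Y Z) ∨ (Exc P Y X Z ∧ Exc v Y X Z) ∨
        (Exc P Z X Y ∧ Exc v Z X Y)) := by
  have hn : 2 * p ≠ 0 := by omega
  have hodd := hp.odd_of_ne_two (by omega)
  have h' : Y ^ (2 * p) + X ^ (2 * p) = Z ^ (2 * p) := by rw [add_comm]; exact h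
  -- three facts at every prime
  have fZ : ∀ v : HeightOneSpectrum (𝓞 K), v.valuation K Z < v.valuation K Y → Exc v Z X Y := by
    intro v hv
    have h1 : v.valuation K (X ^ (2 * p)) = v.valuation K (Y ^ (2 * p)) := by
      have e : X ^ (2 * p) = Z ^ (2 * p) - Y ^ (2 * p) := by rw [← h]; ring
      rw [e, Valuation.map_sub_eq_of_lt_right]
      rw [map_pow, map_pow]
      exact pow_lt_pow_left₀ hv zero_le' hn
    rw [map_pow, map_pow] at h1
    have h3 := (pow_left_inj₀ zero_le' zero_le' hn).1 h1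
    exact ⟨by rw [h3]; exact hv, h3⟩
  -- the ratio forms of the equation
  have hdiv : ∀ a b : K, b ≠ 0 → ∀ v : HeightOneSpectrum (𝓞 K), v.valuation K (a / b) < 1 →
      v.valuation K a < v.valuation K b := by
    intro a b hb v hv
    have hb' : 0 < v.valuation K b := zero_lt_iff.2 ((Valuation.ne_zero_iff _).2 hb)
    rw [map_div₀, div_lt_one₀ hb'] at hv
    exact hv
  have hdiv' : ∀ a b : K, b ≠ 0 → ∀ v : HeightOneSpectrum (𝓞 K), v.valuation K a < v.valuation K b →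
      v.valuation K (a / b) < 1 := by
    intro a b hb v hv
    have hb' : 0 < v.valuation K b := zero_lt_iff.2 ((Valuation.ne_zero_iff _).2 hb)
    rw [map_div₀, div_lt_one₀ hb']
    exact hv
  have eq1 : ∀ X Y : K, Y ≠ 0 → X ^ (2 * p) + Y ^ (2 * p) = Z ^ (2 * p) →
      (((1 : ℤ) : K) * (Z / Y) ^ 2) ^ p = 1 + (((1 : ℤ) : K) * (X / Y) ^ 2) ^ p := by
    intro X Y hY h
    have hY' : Y ^ (2 * p) ≠ 0 := pow_ne_zero _ hY
    rw [Int.cast_one, one_mul, one_mul, ← pow_mul, ← pow_mul, div_pow, div_pow, ← h]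
    field_simp
    ring
  have eq2 : (((-1 : ℤ) : K) * (X / Y) ^ 2) ^ p = 1 + (((-1 : ℤ) : K) * (Z / Y) ^ 2) ^ p := by
    have hY' : Y ^ (2 * p) ≠ 0 := pow_ne_zero _ hY
    have e1 : ∀ a : K, (((-1 : ℤ) : K) * a ^ 2) ^ p = - a ^ (2 * p) := by
      intro a
      push_cast
      rw [neg_one_mul, hodd.neg_pow, ← pow_mul]
    rw [e1, e1, div_pow, div_pow, ← h]
    field_simp
    ring
  have hunit : ∀ v : HeightOneSpectrum (𝓞 K), ∀ ε : ℤ, (ε = 1 ∨ ε = -1) → ∀ a : K,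
      (v.valuation K ((ε : K) * a ^ 2) < 1 ↔ v.valuation K a < 1) := by
    intro v ε hε a
    have h1 : v.valuation K (ε : K) = 1 := by rcases hε with h | h <;> simp [h]
    rw [map_mul, h1, one_mul, map_pow, pow_lt_one_iff_of_nonneg zero_le' two_ne_zero]
  have hEv : ∀ ε : ℤ, (ε = 1 ∨ ε = -1) → ∀ a : K, a ≠ 0 → Ev ((ε : K) * a ^ 2) := by
    intro ε hε a ha
    refine Ev.mul (fun v => ⟨0, ?_⟩) (Ev.sq ha)
    rcases hε with h | h <;> simp [h]
  have hne : ∀ ε : ℤ, (ε = 1 ∨ ε = -1) → ∀ a : K, a ≠ 0 → (ε : K) * a ^ 2 ≠ 0 := by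
    intro ε hε a ha
    refine mul_ne_zero ?_ (pow_ne_zero 2 ha)
    rcases hε with h | h <;> simp [h]
  -- an exceptional variable at `P`
  have main : ∀ ε : ℤ, (ε = 1 ∨ ε = -1) → ∀ A B C : K, A ≠ 0 → B ≠ 0 → C ≠ 0 →
      ((ε : K) * (C / B) ^ 2) ^ p = 1 + ((ε : K) * (A / B) ^ 2) ^ p →
      P.valuation K A < P.valuation K B →
      ∃ v : HeightOneSpectrum (𝓞 K), ((p : ℕ) : 𝓞 K) ∈ v.asIdeal ∧
        v.valuation K A < v.valuation K B := by
    intro ε hε A B C hA hB hC heq hlt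
    obtain ⟨v, hv, hv1⟩ := q.core' p hp h5 hd P h2 ((ε : K) * (C / B) ^ 2) ((ε : K) * (A / B) ^ 2)
      (hne ε hε _ (div_ne_zero hA hB)) heq (hEv ε hε _ (div_ne_zero hC hB))
      (hEv ε hε _ (div_ne_zero hA hB)) ((hunit P ε hε _).2 (hdiv' A B hB P hlt))
    exact ⟨v, hv, hdiv A B hB v ((hunit v ε hε _).1 hv1)⟩
  rcases lt_trichotomy (P.valuation K X) (P.valuation K Y) with hlt | heq | hgt
  · obtain ⟨v, hv, hv1⟩ := main 1 (Or.inl rfl) X Y Z hX hY hZ (eq1 X Y hY h) hlt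
    exact ⟨v, hv, Or.inl ⟨exc_of_lt P _ hn X Y Z h hlt, exc_of_lt v _ hn X Y Z h hv1⟩⟩
  · -- the two are equal
    have hZle : P.valuation K Z ≤ P.valuation K Y := by
      have h1 : P.valuation K (Z ^ (2 * p)) ≤ P.valuation K Y ^ (2 * p) := by
        rw [← h]
        refine (Valuation.map_add _ _ _).trans (max_le ?_ ?_)
        · rw [map_pow, heq]
        · rw [map_pow]
      rw [map_pow] at h1
      exact (pow_le_pow_iff_left₀ zero_le' zero_le' hn).1 h1
    rcases hZle.lt_or_eq with hZlt | hZeq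
    · obtain ⟨v, hv, hv1⟩ := main (-1) (Or.inr rfl) Z Y X hZ hY hX eq2 hZlt
      exact ⟨v, hv, Or.inr (Or.inr ⟨fZ P hZlt, fZ v hv1⟩)⟩
    · -- all three are equal
      exfalso
      have hY0 : P.valuation K Y ≠ 0 := (Valuation.ne_zero_iff _).2 hY
      have hone : ∀ a b : K, b ≠ 0 → P.valuation K a = P.valuation K b →
          P.valuation K (a / b) = 1 := by
        intro a b hb hab
        rw [map_div₀, hab]
        exact div_self ((Valuation.ne_zero_iff _).2 hb)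
      by_cases hD : D % 8 = 5
      · have main2 : ∀ ε : ℤ, (ε = 1 ∨ ε = -1) → ∀ A B C : K, A ≠ 0 → B ≠ 0 → C ≠ 0 →
            ((ε : K) * (C / B) ^ 2) ^ p = 1 + ((ε : K) * (A / B) ^ 2) ^ p →
            P.valuation K A = P.valuation K B → P.valuation K C = P.valuation K B →
            ∃ v : HeightOneSpectrum (𝓞 K), ((p : ℕ) : 𝓞 K) ∈ v.asIdeal ∧
              v.valuation K A < v.valuation K B := by
          intro ε hε A B C hA hB hC heq hAB hCB
          obtain ⟨v, hv, hv1⟩ := q.core2 hD p hp h5 hd P h2 ε hε (C / B) (A / B)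
            (div_ne_zero hC hB) (div_ne_zero hA hB) heq (hone C B hB hCB) (hone A B hB hAB)
          exact ⟨v, hv, hdiv A B hB v hv1⟩
        obtain ⟨v1, hv1, hl1⟩ := main2 1 (Or.inl rfl) X Y Z hX hY hZ (eq1 X Y hY h) heq hZeq
        obtain ⟨v2, hv2, hl2⟩ := main2 1 (Or.inl rfl) Y X Z hY hX hZ (eq1 Y X hX h') heq.symm
          (hZeq.trans heq.symm)
        obtain ⟨v3, hv3, hl3⟩ := main2 (-1) (Or.inr rfl) Z Y X hZ hY hX eq2 hZeq heq
        have e1 := exc_of_lt v1 _ hn X Y Z h hl1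
        have e2 := exc_of_lt v2 _ hn Y X Z h' hl2
        have e3 := fZ v3 hl3
        rcases q.two_primes p hp v1 v2 v3 hv1 hv2 hv3 with h12 | h13 | h23
        · rw [h12] at e1
          exact absurd e1.1 (not_lt.2 e2.1.le)
        · rw [h13] at e1
          have h6 := e1.1
          rw [e3.2] at h6
          exact lt_irrefl _ h6
        · rw [h23] at e2
          have h6 := e2.1
          rw [e3.2] at h6
          exact lt_irrefl _ h6
      · have r1 := q.res P h2 hD (X / Y) (hone X Y hY heq)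
        have r2 := q.res P h2 hD (Z / Y) (hone Z Y hY hZeq)
        have hpow : ∀ a : K, P.valuation K a = 1 → P.valuation K (a - 1) < 1 →
            P.valuation K (a ^ (2 * p) - 1) < 1 := by
          intro a ha ha1
          have e : a ^ (2 * p) - 1 = (∑ i ∈ range (2 * p), a ^ i) * (a - 1) :=
            (geom_sum_mul a (2 * p)).symm
          rw [e, map_mul]
          refine mul_lt_one_of_nonneg_of_lt_one_right (Valuation.map_sum_le _ fun i _ => ?_)
            zero_le' ha1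
          rw [map_pow, ha, one_pow]
        have s1 := hpow _ (hone X Y hY heq) r1
        have s2 := hpow _ (hone Z Y hY hZeq) r2
        have e : (1 : K) = ((Z / Y) ^ (2 * p) - 1) - ((X / Y) ^ (2 * p) - 1) := by
          have hY' : Y ^ (2 * p) ≠ 0 := pow_ne_zero _ hY
          rw [div_pow, div_pow, ← h]
          field_simp
          ring
        have h6 : P.valuation K (1 : K) < 1 := by
          rw [e]
          exact Valuation.map_sub_lt _ s2 s1
        rw [map_one] at h6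
        exact lt_irrefl _ h6
  · obtain ⟨v, hv, hv1⟩ := main 1 (Or.inl rfl) Y X Z hY hX hZ (eq1 Y X hX h') hgt
    exact ⟨v, hv, Or.inr (Or.inl ⟨exc_of_lt P _ hn Y X Z h' hgt, exc_of_lt v _ hn Y X Z h' hv1⟩)⟩

theorem exc_pow (v : HeightOneSpectrum (𝓞 K)) (k : ℕ) (hk : k ≠ 0) (a b c : K) :
    Exc v (a ^ k) (b ^ k) (c ^ k) ↔ Exc v a b c := by
  unfold Exc
  rw [map_pow, map_pow, map_pow, pow_lt_pow_iff_left₀ zero_le' zero_le' hk,
    pow_left_inj₀ zero_le' zero_le' hk]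

theorem QF.mainN (q : QF K D r) (p n : ℕ) (hp : p.Prime) (h5 : 5 ≤ p) (hd : Cond D p)
    (hn : 2 * p ∣ n) (X Y Z : K) (hX : X ≠ 0) (hY : Y ≠ 0) (hZ : Z ≠ 0)
    (h : X ^ n + Y ^ n = Z ^ n) (P : HeightOneSpectrum (𝓞 K)) (h2 : (2 : 𝓞 K) ∈ P.asIdeal) :
    ∃ v : HeightOneSpectrum (𝓞 K), ((p : ℕ) : 𝓞 K) ∈ v.asIdeal ∧
      ((Exc P X Y Z ∧ Exc v X Y Z) ∨ (Exc P Y X Z ∧ Exc v Y X Z) ∨
        (Exc P Z X Y ∧ Exc v Z X Y)) := by
  obtain ⟨k, rfl⟩ := hn
  have hk : k ≠ 0 := by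
    rintro rfl
    rw [mul_zero, pow_zero, pow_zero, pow_zero] at h
    have : (1 : K) = 0 := by linear_combination h
    exact one_ne_zero this
  have hF : (X ^ k) ^ (2 * p) + (Y ^ k) ^ (2 * p) = (Z ^ k) ^ (2 * p) := by
    rw [← pow_mul, ← pow_mul, ← pow_mul, mul_comm k (2 * p), h]
  obtain ⟨v, hv, h3⟩ := q.main2p p hp h5 hd _ _ _ (pow_ne_zero k hX) (pow_ne_zero k hY)
    (pow_ne_zero k hZ) hF P h2
  simp only [exc_pow _ k hk] at h3
  exact ⟨v, hv, h3⟩

end

end Pool.Agent.Zk43.FQ
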